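import Pool.Agent.KCls.Caps
import Pool.Agent.KLog.BasicV

/-! KC10: the basic pairs. -/

set_option autoImplicit false

open Pool.Agent.LK
open scoped ENNReal

namespace Pool.Agent.KCls

open Pool.Agent.KTube Pool.Agent.KRing Pool.Agent.KLog

variable {T : Finset (Sym2 P3) → Prop} {v : ℤ × ℤ} {π : PP} {y z : ℝ}

private theorem hgt_left (i : Fin 4) : hgt ([st4 i], []) = 1 := by
  simp [KLog.hgt, st4]

private theorem hgt_right (i : Fin 4) : hgt ([], [st4 i]) = 1 := by
  simp [KLog.hgt]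

/-- A block with one level is unknotted. -/
private theorem unk_of_one (hg : Geo v π) (h1 : hgt π = 1) : Unk v π := by
  obtain ⟨l, hl, -⟩ := exists_flat hg.ne
  have hb := hg.block
  have hne : hz π.1.sum ≠ v + hz π.2.sum := by
    intro h
    have hA := List.mem_of_getLast? hb.lastA
    have hB := List.mem_of_head? hb.headB
    rw [h] at hA
    exact hb.disj _ hA hB
  obtain ⟨r, hr⟩ := exists_UU' (k := hgt π) hne
  rw [unk_iff hg hl hr, ← hb.ring_rotate hr.2.1 hl.2.1]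
  refine hb.unknotted hr hl fun j hj hj' => ?_
  rw [h1] at hj'
  omega

private theorem st4_of {d : P3} (hd : IsStep d) (h : brk (lets [d]) = 0) : ∃ i, d = st4 i := by
  rcases hlet_cases hd with ⟨i, hi, hd', -⟩ | ⟨hi, -⟩
  · exact ⟨i, hd'⟩
  · simp [brk, hi] at h

private theorem len_eq (s : List P3) : s.length = brk (lets s) + stp (lets s) := by
  induction s with
  | nil => rfl
  | cons d s ih =>
    rw [List.length_cons, ih, lets_cons]
    cases h : hlet d with
    | none => rw [brk_none, stp_none]; omega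
    | some i => rw [brk_some, stp_some]; omega

private theorem bas_cases (hA : Steps π.1) (hB : Steps π.2) (h : Bas π) : π = ([], []) ∨
    (∃ i, π = ([st4 i], [])) ∨ ∃ i, π = ([], [st4 i]) := by
  obtain ⟨s, t⟩ := π
  obtain ⟨h1, h2⟩ := h
  simp only [nv, nh] at h1 h2 hA hB
  have hs := len_eq s
  have ht := len_eq t
  match s, t, hA, hB, hs, ht, h1, h2 with
  | [], [], _, _, _, _, _, _ => exact Or.inl rfl
  | [d], [], hA, _, _, _, h1, _ =>
    obtain ⟨i, hi⟩ := st4_of (hA d (by simp)) (by omega)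
    exact Or.inr (Or.inl ⟨i, by rw [hi]⟩)
  | [], [d], _, hB, _, _, h1, _ =>
    obtain ⟨i, hi⟩ := st4_of (hB d (by simp)) (by omega)
    exact Or.inr (Or.inr ⟨i, by rw [hi]⟩)
  | d :: d' :: s, t, _, _, hs, ht, h1, h2 =>
    simp only [List.length_cons] at hs
    omega
  | s, d :: d' :: t, _, _, hs, ht, h1, h2 =>
    simp only [List.length_cons] at ht
    omega
  | d :: s, d' :: t, _, _, hs, ht, h1, h2 =>
    simp only [List.length_cons] at hs ht
    omega

private theorem geo_valid (h : Bas π) (hg : Geo v π) : Valid v π := by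
  refine ⟨hg, unk_of_one hg ?_⟩
  rcases bas_cases hg.stA hg.stB h with rfl | ⟨i, rfl⟩ | ⟨i, rfl⟩
  · rfl
  · exact hgt_left i
  · exact hgt_right i

/-- The basic pairs are unknotted. -/
theorem bas_valid (hT : Cls T) : Bas π ∧ ValidT T v π ↔ Bas π ∧ Valid v π :=
  ⟨fun h => ⟨h.1, geo_valid h.1 h.2.1⟩, fun h => ⟨h.1, h.2.1, unkT_of_unk hT h.2.2⟩⟩

theorem bas_free (hT : Cls T) : Bas π ∧ FreeT T π ↔ Bas π ∧ Free π := by
  constructor
  · rintro ⟨h, v, hv, hv'⟩
    exact ⟨h, v, hv, ((bas_valid hT).1 ⟨h, hv'⟩).2⟩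
  · rintro ⟨h, v, hv, hv'⟩
    exact ⟨h, v, hv, ((bas_valid hT).2 ⟨h, hv'⟩).2⟩

theorem basV (hT : Cls T) (hy : 0 < y) (hz : 0 < z) (hv : v ≠ 0) (f : ℤ × ℤ → ℝ≥0∞) :
    ∑' p : {p // Bas p ∧ ValidT T v p}, wt (ENNReal.ofReal y) (ENNReal.ofReal z) p.1 *
      f (v + dsp p.1) = ENNReal.ofReal (y * z ^ 2) * f v +
        ENNReal.ofReal (2 * (y * z ^ 2) * z) * nb (kill f) v := by
  rw [← KLog.basV hy hz hv f]
  exact (Equiv.subtypeEquivRight fun p => bas_valid (π := p) (v := v) hT).tsum_eq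
    (fun p : {p // Bas p ∧ Valid v p} => wt (ENNReal.ofReal y) (ENNReal.ofReal z) p.1 *
      f (v + dsp p.1))

theorem basF (hT : Cls T) (hy : 0 < y) (hz : 0 < z) (f : ℤ × ℤ → ℝ≥0∞) :
    ∑' p : {p // Bas p ∧ FreeT T p}, wt (ENNReal.ofReal y) (ENNReal.ofReal z) p.1 * f (dsp p.1) =
      ENNReal.ofReal (y * z ^ 2) * f 0 + ENNReal.ofReal (2 * (y * z ^ 2) * z) * nb f 0 := by
  rw [← KLog.basF hy hz f]
  exact (Equiv.subtypeEquivRight fun p => bas_free (π := p) hT).tsum_eq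
    (fun p : {p // Bas p ∧ Free p} => wt (ENNReal.ofReal y) (ENNReal.ofReal z) p.1 * f (dsp p.1))

end Pool.Agent.KCls
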