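import Pool.Agent.KCls.Defs

/-! KC2: a block is of class `T` independently of the halves. -/

set_option autoImplicit false

open Pool.Agent.LK

namespace Pool.Agent.KCls

open Pool.Agent.KTube Pool.Agent.KRing Pool.Agent.KLog
open Pool.Agent.LatticeTube (pedges)

variable {T : Finset (Sym2 P3) → Prop} {v : ℤ × ℤ} {π : PP} {l r : List P3}

theorem exists_flatT (hT : Cls T) (hv : v ≠ 0) : ∃ l, HalfT T 0 v l ∧ LU 0 0 v l := by
  obtain ⟨l, h1, h2⟩ := exists_flat hv
  exact ⟨l, ⟨LT.of_unk hT h1, h2⟩, h1⟩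

/-- The lower half composed of a lower half and a block, in terms of an upper half. -/
private theorem lt_block (hT : Cls T) (hg : Geo v π) (hl : Lower 0 0 v l)
    (hr : UU (hgt π) (hz π.1.sum) (v + hz π.2.sum) r) :
    LT T (hgt π) (hz π.1.sum) (v + hz π.2.sum) (sdB v π ++ (l ++ sdA π)) ↔
      LT T 0 0 v l ∧ UT T 0 0 v (sdA π ++ (r ++ sdB v π)) := by
  have hb := hg.block
  rw [lt_iff hT hr (hb.lower hl), ← hb.ring_rotate hr.2.1 hl,
    ring_iff hT hg.ne.symm (hb.upper hr.2.1) hl]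
  exact and_comm

private theorem unkT_iff_UT (hT : Cls T) (hg : Geo v π)
    (hr : UU (hgt π) (hz π.1.sum) (v + hz π.2.sum) r) :
    UnkT T v π ↔ UT T 0 0 v (sdA π ++ (r ++ sdB v π)) := by
  constructor
  · rintro ⟨l, h1, h2⟩
    exact ((lt_block hT hg h1.2.1 hr).1 h2).2
  · intro h
    obtain ⟨l, hl, -⟩ := exists_flat hg.ne
    exact ⟨l, hl, (lt_block hT hg hl.2.1 hr).2 ⟨LT.of_unk hT hl, h⟩⟩

/-- **The lower half composed of a lower half and a block.** -/
theorem t_lu (hT : Cls T) (hg : Geo v π) (hl : Lower 0 0 v l) :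
    LT T (hgt π) (hz π.1.sum) (v + hz π.2.sum) (sdB v π ++ (l ++ sdA π)) ↔
      LT T 0 0 v l ∧ UnkT T v π := by
  obtain ⟨r, hr⟩ := exists_UU' (k := hgt π) hg.ne'
  rw [lt_block hT hg hl hr, unkT_iff_UT hT hg hr]

/-- **The block is of class `T` iff the polygon composed with any unknotted halves is.** -/
theorem t_iff_caps (hT : Cls T) (hg : Geo v π) (hl : LU 0 0 v l)
    (hr : UU (hgt π) (hz π.1.sum) (v + hz π.2.sum) r) :
    UnkT T v π ↔ T (ring (r ++ (sdB v π ++ (l ++ sdA π)))) := by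
  rw [← lt_iff hT hr (hg.block.lower hl.2.1), t_lu hT hg hl.2.1]
  exact ⟨fun h => ⟨LT.of_unk hT hl, h⟩, fun h => h.2⟩

/-- An unknotted block is of class `T`. -/
theorem unkT_of_unk (hT : Cls T) (h : Unk v π) : UnkT T v π := by
  obtain ⟨l, h1, h2⟩ := h
  exact ⟨l, h1, LT.of_unk hT h2⟩

theorem ne_top (h : ValidT T v π) : v + dsp π ≠ 0 := by
  intro h0
  refine h.1.ne' ?_
  rw [dsp, add_sub_assoc', sub_eq_zero] at h0
  exact h0.symm

end Pool.Agent.KCls
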