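import Pool.Agent.KTen.SpliceType
import Pool.Agent.KRing.Class

/-! KC1: classes of knot types that are closed under sums and summands. -/

set_option autoImplicit false

open Pool.Agent.LK

namespace Pool.Agent.KCls

open Pool.Agent.KTube Pool.Agent.KRing
open Pool.Agent.LatticeTube (pedges)

/-- `T` is a class of knot types (up to mirror images) which contains the unknot and such that a
stacked join of two lattice polygons is of class `T` iff both are. -/
structure Cls (T : Finset (Sym2 P3) → Prop) : Prop where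
  inv : ∀ E F, SameType E F → T E → T F
  unk : ∀ E, IsPolygon E → Unknotted E → T E
  sum : ∀ E F x y h, IsPolygon E → IsPolygon F → Below E F →
    s((x, y, h), (x + 1, y, h)) ∈ E → s((x, y, h + 1), (x + 1, y, h + 1)) ∈ F →
    (T (joinZ E F x y h) ↔ T E ∧ T F)

variable {T : Finset (Sym2 P3) → Prop} {E F A B : Finset (Sym2 P3)} {k : ℤ} {a b : ℤ × ℤ}
  {r l : List P3}

theorem cls_unknotted : Cls Unknotted where
  inv _ _ h hU := h.symm.unknotted hU
  unk _ _ h := h
  sum E F x y h hE hF hB he hf := by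
    constructor
    · intro hU
      exact ⟨nc_lower hE hF hB he hf hU, ncStatement E F x y h hE hF hB he hf hU⟩
    · rintro ⟨h1, h2⟩
      exact (b1Statement E F x y h hE h1 hF hB he hf).symm.unknotted h2

theorem cls_all : Cls fun _ => True where
  inv _ _ _ _ := trivial
  unk _ _ _ := trivial
  sum _ _ _ _ _ _ _ _ _ _ := ⟨fun _ => ⟨trivial, trivial⟩, fun _ => trivial⟩

/-- The part below the plane is of class `T`. -/
def LowT (T : Finset (Sym2 P3) → Prop) (E : Finset (Sym2 P3)) (k : ℤ) : Prop :=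
  ∃ A, LowClose E k A ∧ T A

/-- The part above the plane is of class `T`. -/
def UppT (T : Finset (Sym2 P3) → Prop) (E : Finset (Sym2 P3)) (k : ℤ) : Prop :=
  ∃ A, UppClose E k A ∧ T A

private theorem cls_iff (hT : Cls T) (h : SameType E F) : T E ↔ T F :=
  ⟨hT.inv _ _ h, hT.inv _ _ h.symm⟩

/-- **Cutting at a section with two edges.** -/
theorem t_split (hT : Cls T) (hE : IsPolygon E) (h2 : IsTwo E k) (hA : LowClose E k A)
    (hB : UppClose E k B) : T E ↔ T A ∧ T B := by
  obtain ⟨R1, hR1⟩ := exists_bound E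
  obtain ⟨R2, hR2⟩ := exists_bound A
  obtain ⟨R3, hR3⟩ := exists_bound B
  set R := R1 + R2 + R3 with hR
  set t : P3 := ((R : ℤ) + 2, (R : ℤ), 0) with ht
  have ht0 : t.2.2 = 0 := rfl
  have pE : Pos (2 * R + 2) (shift t E) := pos_shift fun u hu => by
    obtain ⟨a, b⟩ := hR1 u hu; rw [hR]; push_cast; constructor <;> omega
  have pA : Pos (2 * R + 2) (shift t A) := pos_shift fun u hu => by
    obtain ⟨a, b⟩ := hR2 u hu; rw [hR]; push_cast; constructor <;> omega
  have pB : Pos (2 * R + 2) (shift t B) := pos_shift fun u hu => by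
    obtain ⟨a, b⟩ := hR3 u hu; rw [hR]; push_cast; constructor <;> omega
  have hL : 1 ≤ 2 * R + 2 := by omega
  have hE' := isPolygon_shift hE t
  have h2' : IsTwo (shift t E) k := by unfold IsTwo; rw [ncard_cross_shift ht0]; exact h2
  have tE := sameType_shift t E
  have tA := (sameType_shift t A).trans (close_low hL hE' pE h2' (hA.shift ht0) pA)
  have tB := (sameType_shift t B).trans (close_upp hL hE' pE h2' (hB.shift ht0) pB)
  have hI := ins_facts stretchStatement hL hE' pE.tube h2' pE.notV0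
  have hH := hgt_pos (2 * R + 2) (2 * R + 2)
  have hV := (hI.mid _ (by omega) (by omega)).2 rfl
  obtain ⟨hl, hu, hg⟩ := cutStatement _ _ hI.poly hV
  obtain ⟨hBel, he, hf⟩ := join_data hl hu
  have hS := sameType_glue_join stretchStatement hl hu
  rw [hg] at hS
  have tF := (tE.trans hI.type).trans hS
  rw [cls_iff hT tF, hT.sum _ _ 0 0 _ hl.1 (isPolygon_shift hu.1 _) hBel he hf, cls_iff hT tA,
    cls_iff hT (tB.trans (sameType_shift (0, 0, 2) _))]

theorem t_iff (hT : Cls T) (hE : IsPolygon E) (h2 : IsTwo E k) :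
    T E ↔ LowT T E k ∧ UppT T E k := by
  obtain ⟨A, hA⟩ := exists_lowClose hE h2
  obtain ⟨B, hB⟩ := exists_uppClose hE h2
  rw [t_split hT hE h2 hA hB]
  constructor
  · rintro ⟨h3, h4⟩
    exact ⟨⟨A, hA, h3⟩, ⟨B, hB, h4⟩⟩
  · rintro ⟨⟨A', hA', h3⟩, ⟨B', hB', h4⟩⟩
    exact ⟨hT.inv _ _ (lowClose_unique hE h2 hA' hA) h3,
      hT.inv _ _ (uppClose_unique hE h2 hB' hB) h4⟩

theorem LowT.congr (h : LowT T E k) (hEF : LowEq E F k) : LowT T F k := by
  obtain ⟨A, hA, hU⟩ := h
  exact ⟨A, ⟨hA.1, fun u v hu => (hA.2.1 u v hu).trans (hEF u v hu), hA.2.2⟩, hU⟩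

theorem UppT.congr (h : UppT T E k) (hEF : UppEq E F k) : UppT T F k := by
  obtain ⟨A, hA, hU⟩ := h
  exact ⟨A, ⟨hA.1, fun u v hu => (hA.2.1 u v hu).trans (hEF u v hu), hA.2.2⟩, hU⟩

private theorem LowT_shift (hT : Cls T) (h : LowT T E k) (t : P3) :
    LowT T (shift t E) (k + t.2.2) := by
  obtain ⟨A, hA, hU⟩ := h
  refine ⟨LK.shift t A, ⟨isPolygon_shift hA.1 t, ?_, ?_⟩, hT.inv _ _ (sameType_shift t A) hU⟩
  · intro u v hu
    rw [mem_shift, mem_shift]
    exact hA.2.1 _ _ (by simp only [Prod.snd_sub]; omega)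
  · intro j hj h1
    rw [nonempty_cross_shift'] at h1
    rw [ncard_cross_shift']
    exact hA.2.2 _ (by omega) h1

private theorem UppT_shift (hT : Cls T) (h : UppT T E k) (t : P3) :
    UppT T (shift t E) (k + t.2.2) := by
  obtain ⟨A, hA, hU⟩ := h
  refine ⟨LK.shift t A, ⟨isPolygon_shift hA.1 t, ?_, ?_⟩, hT.inv _ _ (sameType_shift t A) hU⟩
  · intro u v hu
    rw [mem_shift, mem_shift]
    exact hA.2.1 _ _ (by simp only [Prod.snd_sub]; omega)
  · intro j hj h1
    rw [nonempty_cross_shift'] at h1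
    rw [ncard_cross_shift']
    exact hA.2.2 _ (by omega) h1

/-- The lower half `l` is of class `T`. -/
def LT (T : Finset (Sym2 P3) → Prop) (k : ℤ) (a b : ℤ × ℤ) (l : List P3) : Prop :=
  a ≠ b ∧ Lower k a b l ∧ ∃ r, Upper k a b r ∧ LowT T (ring (r ++ l)) k

/-- The upper half `r` is of class `T`. -/
def UT (T : Finset (Sym2 P3) → Prop) (k : ℤ) (a b : ℤ × ℤ) (r : List P3) : Prop :=
  a ≠ b ∧ Upper k a b r ∧ ∃ l, Lower k a b l ∧ UppT T (ring (r ++ l)) k

theorem LT.lowT (h : LT T k a b l) (hr : Upper k a b r) : LowT T (ring (r ++ l)) k := by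
  obtain ⟨-, hl, r', hr', hU⟩ := h
  exact hU.congr (lowEq_ring hr' hr hl)

theorem UT.uppT (h : UT T k a b r) (hl : Lower k a b l) : UppT T (ring (r ++ l)) k := by
  obtain ⟨-, hr, l', hl', hU⟩ := h
  exact hU.congr (uppEq_ring hr hl' hl)

theorem LT.shift (hT : Cls T) (h : LT T k a b l) (t : P3) :
    LT T (k + t.2.2) (csh t a) (csh t b) (l.map (· + t)) := by
  obtain ⟨hab, hl, r', hr', hU⟩ := h
  refine ⟨csh_ne hab, hl.shift t, _, hr'.shift t, ?_⟩
  rw [← List.map_append, ring_map]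
  exact LowT_shift hT hU t

theorem UT.shift (hT : Cls T) (h : UT T k a b r) (t : P3) :
    UT T (k + t.2.2) (csh t a) (csh t b) (r.map (· + t)) := by
  obtain ⟨hab, hr, l', hl', hU⟩ := h
  refine ⟨csh_ne hab, hr.shift t, _, hl'.shift t, ?_⟩
  rw [← List.map_append, ring_map]
  exact UppT_shift hT hU t

theorem LT.of_unk (hT : Cls T) (h : LU k a b l) : LT T k a b l := by
  obtain ⟨hab, hl, r, hr, A, hA, hU⟩ := h
  exact ⟨hab, hl, r, hr, A, hA, hT.unk A hA.1 hU⟩

theorem UT.of_unk (hT : Cls T) (h : UU k a b r) : UT T k a b r := by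
  obtain ⟨hab, hr, l, hl, A, hA, hU⟩ := h
  exact ⟨hab, hr, l, hl, A, hA, hT.unk A hA.1 hU⟩

/-- Two halves form a polygon of class `T` iff both are of class `T`. -/
theorem ring_iff (hT : Cls T) (hab : a ≠ b) (hr : Upper k a b r) (hl : Lower k a b l) :
    T (ring (r ++ l)) ↔ UT T k a b r ∧ LT T k a b l := by
  rw [t_iff hT (ring_of hab hr hl).isPolygon (isTwo_ring_of hab hr hl)]
  constructor
  · rintro ⟨h1, h2⟩
    exact ⟨⟨hab, hr, l, hl, h2⟩, ⟨hab, hl, r, hr, h1⟩⟩
  · rintro ⟨h1, h2⟩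
    exact ⟨h2.lowT hr, h1.uppT hl⟩

/-- The class of a lower half can be read off from any unknotted upper half. -/
theorem lt_iff (hT : Cls T) (hr : UU k a b r) (hl : Lower k a b l) :
    LT T k a b l ↔ T (ring (r ++ l)) := by
  rw [ring_iff hT hr.1 hr.2.1 hl]
  exact ⟨fun h => ⟨UT.of_unk hT hr, h⟩, fun h => h.2⟩

theorem ut_iff (hT : Cls T) (hl : LU k a b l) (hr : Upper k a b r) :
    UT T k a b r ↔ T (ring (r ++ l)) := by
  rw [ring_iff hT hl.1 hr hl.2.1]
  exact ⟨fun h => ⟨h, LT.of_unk hT hl⟩, fun h => h.1⟩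

end Pool.Agent.KCls
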