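import Pool.Agent.KCls.Cls
import Pool.Agent.KLog.Kernel
import Pool.Agent.KLog.Flip

/-! The blocks of a polygon of class `T` between consecutive sections with two edges. -/

set_option autoImplicit false

open Pool.Agent.LK
open scoped ENNReal

namespace Pool.Agent.KCls

open Pool.Agent.KTube Pool.Agent.KRing Pool.Agent.KLog
open Pool.Agent.LatticeTube (pedges)

variable (T : Finset (Sym2 P3) → Prop)

/-- The block is of class `T`: together with some unknotted lower half it is a lower half of
class `T`. -/
def UnkT (v : ℤ × ℤ) (π : PP) : Prop :=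
  ∃ l, LU 0 0 v l ∧ LT T (hgt π) (hz π.1.sum) (v + hz π.2.sum) (sdB v π ++ (l ++ sdA π))

/-- The blocks of class `T` between consecutive sections with two edges. -/
def ValidT (v : ℤ × ℤ) (π : PP) : Prop := Geo v π ∧ UnkT T v π

/-- The pairs that are valid far from the origin. -/
def FreeT (π : PP) : Prop := ∃ v, nh π < nrm v ∧ ValidT T v π

/-- The lower halves of class `T` with displacement `v` at the top, and with `n` sections with two
edges below. -/
def HalfT (n : ℕ) (v : ℤ × ℤ) (l : List P3) : Prop := LT T 0 0 v l ∧ nsec l = n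

/-- Their partition function. -/
noncomputable def MT (y z : ℝ≥0∞) (n : ℕ) (v : ℤ × ℤ) : ℝ≥0∞ :=
  ∑' l : {l // HalfT T n v l}, wl y z l.1

/-- The polygons of class `T` with exactly `N` sections with two edges, up to translation. -/
def PT (N : ℕ) : Set (Finset (Sym2 P3)) :=
  {E | IsPolygon E ∧ T E ∧ Normed E ∧ {k : ℤ | IsTwo E k}.ncard = N}

/-- Their partition function, `z` for each edge. -/
noncomputable def UNT (y z : ℝ≥0∞) (N : ℕ) : ℝ≥0∞ :=
  ∑' E : PT T N, y ^ span E.1 * z ^ E.1.card

/-- The kernel. -/
noncomputable def kerT (y z : ℝ) : Ker PP where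
  wt := wt (ENNReal.ofReal y) (ENNReal.ofReal z)
  l := nh
  u := dsp
  V := ValidT T
  Fr := FreeT T
  Bas := Bas
  q := y * z ^ 2
  z := z

end Pool.Agent.KCls
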