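import Pool.Agent.KCls.UnkX
import Pool.Agent.KLog.Far

/-! KC9: far from the origin validity does not depend on the displacement. -/

set_option autoImplicit false

open Pool.Agent.LK
open scoped ENNReal

namespace Pool.Agent.KCls

open Pool.Agent.KTube Pool.Agent.KRing Pool.Agent.KLog

variable {T : Finset (Sym2 P3) → Prop} {v v' : ℤ × ℤ} {π : PP}

/-- The number of steps in the direction of the second coordinate. -/
private def yst (s : List P3) : ℕ := s.countP fun d => d.2.1 ≠ 0

private theorem far_stp {s : List P3} (h : Steps s) : stp (lets s) = xst s + yst s := by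
  induction s with
  | nil => rfl
  | cons d s ih =>
    obtain ⟨hd, hs⟩ := h.cons
    have ih := ih hs
    unfold stp xst yst at ih ⊢
    rw [lets_cons, List.countP_cons, List.countP_cons, List.countP_cons, ih]
    rcases step_cases hd with rfl | rfl | rfl | rfl | rfl | rfl <;>
      simp [hlet] <;> omega

private theorem far_xst_rt3 (s : List P3) : xst (s.map rt3) = yst s := by
  unfold xst yst
  rw [List.countP_map]
  congr 1
  funext d
  simp [rt3]

private theorem far_yst_rt3 (s : List P3) : yst (s.map rt3) = xst s := by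
  unfold xst yst
  rw [List.countP_map]
  rfl

/-- the steps in the first direction -/
private def XX (π : PP) : ℕ := xst π.1 + xst π.2

/-- the steps in the second direction -/
private def YY (π : PP) : ℕ := yst π.1 + yst π.2

private theorem far_XX (π : PP) : XX (rotP π) = YY π := by
  simp only [XX, YY, rotP, far_xst_rt3]

private theorem far_YY (π : PP) : YY (rotP π) = XX π := by
  simp only [XX, YY, rotP, far_yst_rt3]

private theorem far_nh (hA : Steps π.1) (hB : Steps π.2) : nh π = XX π + YY π := by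
  unfold nh XX YY
  rw [far_stp hA, far_stp hB]
  omega

private theorem rt4 (v : ℤ × ℤ) : rt (rt (rt (rt v))) = v := by
  simp [rt]

private theorem sec0 (hT : Cls T) (h : ValidT T v π) (hg' : Geo v' π) (hv : (XX π : ℤ) < v.1)
    (hv' : (XX π : ℤ) < v'.1) : ValidT T v' π :=
  ⟨hg', unk_x hT h.1 hg' hv hv' h.2⟩

private theorem sec3 (hT : Cls T) (h : ValidT T v π) (hg' : Geo v' π) (hv : (YY π : ℤ) < -v.2)
    (hv' : (YY π : ℤ) < -v'.2) : ValidT T v' π := by
  have h1 := sec0 hT (valid_rotP hT h) (geo_rotP hg') (by rw [far_XX]; exact hv)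
    (by rw [far_XX]; exact hv')
  have h2 := valid_rotP hT (valid_rotP hT (valid_rotP hT h1))
  rwa [rt4, rotP_rotP] at h2

private theorem sec2 (hT : Cls T) (h : ValidT T v π) (hg' : Geo v' π) (hv : (XX π : ℤ) < -v.1)
    (hv' : (XX π : ℤ) < -v'.1) : ValidT T v' π := by
  have h1 := sec3 hT (valid_rotP hT h) (geo_rotP hg') (by rw [far_YY]; exact hv)
    (by rw [far_YY]; exact hv')
  have h2 := valid_rotP hT (valid_rotP hT (valid_rotP hT h1))
  rwa [rt4, rotP_rotP] at h2

private theorem sec1 (hT : Cls T) (h : ValidT T v π) (hg' : Geo v' π) (hv : (YY π : ℤ) < v.2)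
    (hv' : (YY π : ℤ) < v'.2) : ValidT T v' π := by
  have h1 := sec2 hT (valid_rotP hT h) (geo_rotP hg')
    (by rw [far_XX]; change _ < -(-v.2); rwa [neg_neg])
    (by rw [far_XX]; change _ < -(-v'.2); rwa [neg_neg])
  have h2 := valid_rotP hT (valid_rotP hT (valid_rotP hT h1))
  rwa [rt4, rotP_rotP] at h2

/-- one of the corner displacements is valid iff any far displacement is -/
private theorem far_corner (hT : Cls T) (h : ValidT T v π) (hv : nh π < nrm v)
    (hv' : nh π < nrm v') : ValidT T v' π := by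
  have hn : nh π = XX π + YY π := far_nh h.1.stA h.1.stB
  have hgeo : ∀ {w : ℤ × ℤ}, nh π < nrm w → Geo w π := fun hw => geo_far h.1 hv hw
  obtain ⟨X, hX⟩ : ∃ X : ℤ, X = XX π := ⟨_, rfl⟩
  obtain ⟨Y, hY⟩ : ∃ Y : ℤ, Y = YY π := ⟨_, rfl⟩
  have hX0 : 0 ≤ X := by rw [hX]; positivity
  have hY0 : 0 ≤ Y := by rw [hY]; positivity
  have hc : ∀ a b : ℤ, a.natAbs = XX π + 1 → b.natAbs = YY π + 1 → nh π < nrm (a, b) := by
    intro a b ha hb
    unfold nrm
    change nh π < a.natAbs + b.natAbs
    omega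
  have c0 : nh π < nrm (X + 1, Y + 1) := hc _ _ (by omega) (by omega)
  have c1 : nh π < nrm (-(X + 1), Y + 1) := hc _ _ (by omega) (by omega)
  have c3 : nh π < nrm (X + 1, -(Y + 1)) := hc _ _ (by omega) (by omega)
  have key : ∀ {w : ℤ × ℤ}, nh π < nrm w → ((XX π : ℤ) < w.1 ∨ (YY π : ℤ) < w.2 ∨
      (XX π : ℤ) < -w.1 ∨ (YY π : ℤ) < -w.2) := by
    intro w hw
    unfold nrm at hw
    omega
  have h0 : ValidT T (X + 1, Y + 1) π := by
    rcases key hv with h1 | h1 | h1 | h1
    · exact sec0 hT h (hgeo c0) h1 (by change _ < X + 1; omega)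
    · exact sec1 hT h (hgeo c0) h1 (by change _ < Y + 1; omega)
    · have h2 := sec2 hT h (hgeo c1) h1 (by change _ < -(-(X + 1)); omega)
      exact sec1 hT h2 (hgeo c0) (by change _ < Y + 1; omega) (by change _ < Y + 1; omega)
    · have h2 := sec3 hT h (hgeo c3) h1 (by change _ < -(-(Y + 1)); omega)
      exact sec0 hT h2 (hgeo c0) (by change _ < X + 1; omega) (by change _ < X + 1; omega)
  rcases key hv' with h1 | h1 | h1 | h1
  · exact sec0 hT h0 (hgeo hv') (by change _ < X + 1; omega) h1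
  · exact sec1 hT h0 (hgeo hv') (by change _ < Y + 1; omega) h1
  · have h2 := sec1 hT h0 (hgeo c1) (by change _ < Y + 1; omega) (by change _ < Y + 1; omega)
    exact sec2 hT h2 (hgeo hv') (by change _ < -(-(X + 1)); omega) h1
  · have h2 := sec0 hT h0 (hgeo c3) (by change _ < X + 1; omega) (by change _ < X + 1; omega)
    exact sec3 hT h2 (hgeo hv') (by change _ < -(-(Y + 1)); omega) h1

/-- **Far invariance.** -/
theorem valid_far (hT : Cls T) (hv : nh π < nrm v) : ValidT T v π ↔ FreeT T π :=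
  ⟨fun h => ⟨v, hv, h⟩, fun ⟨_, hv', h⟩ => far_corner hT h hv' hv⟩

private theorem free_rotP (hT : Cls T) (h : FreeT T π) : FreeT T (rotP π) := by
  obtain ⟨v, hv, h⟩ := h
  refine ⟨rt v, ?_, valid_rotP hT h⟩
  rwa [nrm_rt, nh_rotP h.1.stA h.1.stB]

/-- The rotation of the free pairs. -/
theorem free_rot (hT : Cls T) : ∃ σ : {π // FreeT T π} ≃ {π // FreeT T π}, ∀ π,
    (∀ y z : ℝ≥0∞, wt y z (σ π).1 = wt y z π.1) ∧ nh (σ π).1 = nh π.1 ∧
      dsp (σ π).1 = rt (dsp π.1) := by
  refine ⟨⟨fun π => ⟨rotP π.1, free_rotP hT π.2⟩,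
    fun π => ⟨rotP (rotP (rotP π.1)), free_rotP hT (free_rotP hT (free_rotP hT π.2))⟩,
    fun π => Subtype.ext (rotP_rotP π.1), fun π => Subtype.ext (rotP_rotP π.1)⟩, fun π => ?_⟩
  obtain ⟨v, hv, h⟩ := π.2
  exact ⟨fun y z => wt_rotP y z π.1, nh_rotP h.1.stA h.1.stB, dsp_rotP π.1⟩

end Pool.Agent.KCls
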