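import Pool.Agent.KCls.Far
import Pool.Agent.KTen.SideJoinB
import Pool.Agent.KTen.PatA

/-! KC19: a larger class has more free blocks. -/

set_option autoImplicit false

open Pool.Agent.LK

namespace Pool.Agent.KCls

open Pool.Agent.KTube Pool.Agent.KRing Pool.Agent.KLog Pool.Agent.KTen
open Pool.Agent.LatticeTube (pedges mem_of_mem_pedges)

variable {T T' : Finset (Sym2 P3) → Prop}

theorem free_mono (hTT : ∀ E, IsPolygon E → T E → T' E) (π : PP) (h : FreeT T π) :
    FreeT T' π := by
  obtain ⟨v, hv, hg, l, hl, hab, hL, r, hr, A, hA, hTA⟩ := h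
  exact ⟨v, hv, hg, l, hl, hab, hL, r, hr, A, hA, hTT A hA.1 hTA⟩

section

variable {k k' : ℤ} {a b a' b' : ℤ × ℤ} {r l A B : List P3}

private lemma st_rev {l : List P3} (h : l.IsChain Adj) : l.reverse.IsChain Adj := by
  rw [List.isChain_reverse]
  exact h.imp fun _ _ h => h.symm

private lemma st_shift (h : Block k k' a b a' b' A B) (t : P3) :
    Block (k + t.2.2) (k' + t.2.2) (csh t a) (csh t b) (csh t a') (csh t b')
      (A.map (· + t)) (B.map (· + t)) := by
  have hch : ∀ l : List P3, l.IsChain Adj → (l.map (· + t)).IsChain Adj := by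
    intro l hl
    rw [List.isChain_map]
    refine hl.imp fun u v huv => ?_
    unfold Adj at huv ⊢
    simpa using huv
  refine ⟨by have := h.lt; omega, h.nodupA.map (add_left_injective t),
    h.nodupB.map (add_left_injective t), ?_, hch _ h.chainA, hch _ h.chainB, ?_, ?_, ?_, ?_,
    ?_, ?_⟩
  · intro u hu hu'
    obtain ⟨x, hx, rfl⟩ := List.mem_map.1 hu
    obtain ⟨y, hy, hxy⟩ := List.mem_map.1 hu'
    have := add_left_injective t hxy
    subst this
    exact h.disj _ hx hy
  · rw [List.head?_map, h.headA]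
    simp only [Option.map_some, Option.some.injEq, csh]
    refine Prod.ext rfl (Prod.ext rfl ?_)
    simp only [Prod.snd_add]; ring
  · rw [List.getLast?_map, h.lastA]
    rfl
  · rw [List.head?_map, h.headB]
    rfl
  · rw [List.getLast?_map, h.lastB]
    simp only [Option.map_some, Option.some.injEq, csh]
    refine Prod.ext rfl (Prod.ext rfl ?_)
    simp only [Prod.snd_add]; ring
  · intro u hu
    obtain ⟨v, hv, rfl⟩ := List.mem_map.1 hu
    have := h.levA v hv
    simp only [Prod.snd_add]; omega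
  · intro u hu
    obtain ⟨v, hv, rfl⟩ := List.mem_map.1 hu
    have := h.levB v hv
    simp only [Prod.snd_add]; omega

private lemma st_leg (t : P3) (l : List P3) (c : ℤ × ℤ) (j : ℤ) :
    leg c j ∈ pedges (l.map (· + t)) ↔ leg (c.1 - t.1, c.2 - t.2.1) (j - t.2.2) ∈ pedges l := by
  rw [pedges_map]
  have : leg c j ∈ LK.shift t (pedges l) ↔ _ := mem_shift
  refine this.trans ?_
  have e1 : ((c.1, c.2, j + 1) : P3) - t = (c.1 - t.1, c.2 - t.2.1, j - t.2.2 + 1) := by
    refine Prod.ext rfl (Prod.ext rfl ?_)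
    simp only [Prod.snd_sub]; ring
  rw [e1]
  rfl

private lemma st_steps {p : P3} {s : List P3} (h : (wk p s).IsChain Adj) : Steps s :=
  chain_wk.1 h

/-- The pair of words of a block. -/
private theorem exists_pp (hab : a ≠ b) (hb : Block k k' a b a' b' A B)
    (hthin : ∀ j, k < j → j < k' → {c | leg c j ∈ pedges A ∨ leg c j ∈ pedges B}.ncard ≠ 2)
    {t : P3} (ht : t = (-a.1, -a.2, -k)) :
    ∃ π : PP, Geo (csh t b) π ∧ hgt π = k' + t.2.2 ∧ hz π.1.sum = csh t a' ∧
      csh t b + hz π.2.sum = csh t b' ∧ sdA π = A.map (· + t) ∧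
      sdB (csh t b) π = B.map (· + t) := by
  have ht1 : t.1 = -a.1 := by rw [ht]
  have ht2 : t.2.1 = -a.2 := by rw [ht]
  have ht3 : t.2.2 = -k := by rw [ht]
  have hbs := st_shift hb t
  have hk0 : k + t.2.2 = 0 := by rw [ht3]; ring
  have ha0 : csh t a = 0 := by
    unfold csh
    rw [ht1, ht2]
    refine Prod.ext ?_ ?_
    · simp
    · simp
  rw [hk0, ha0] at hbs
  set v := csh t b with hv
  obtain ⟨sA, hA⟩ := exists_wk (A.map (· + t)) _ hbs.headA
  obtain ⟨sB, hB⟩ := exists_wk (B.map (· + t)).reverse _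
    (by rw [List.head?_reverse]; exact hbs.lastB)
  have hA0 : A.map (· + t) = wk (0, 0, 1) sA := by
    rw [hA]
    rfl
  have hB0 : B.map (· + t) = (wk (v.1, v.2, 1) sB).reverse := by
    rw [← List.reverse_reverse (B.map (· + t)), hB]
    rfl
  have hstA : Steps sA := by
    refine st_steps (p := (0, 0, 1)) ?_
    rw [← hA0]
    exact hbs.chainA
  have hstB : Steps sB := by
    refine st_steps (p := (v.1, v.2, 1)) ?_
    have h1 := st_rev hbs.chainB
    rw [hB0, List.reverse_reverse] at h1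
    exact h1
  have hsumA : ((0, 0, 1) : P3) + sA.sum = ((csh t a').1, (csh t a').2, k' + t.2.2) := by
    have h1 := hbs.lastA
    rw [hA0, last_wk, Option.some.injEq] at h1
    exact h1
  have hsumB : ((v.1, v.2, 1) : P3) + sB.sum = ((csh t b').1, (csh t b').2, k' + t.2.2) := by
    have h1 := hbs.headB
    rw [hB0, List.head?_reverse, last_wk, Option.some.injEq] at h1
    exact h1
  have hA1 : sA.sum.1 = (csh t a').1 := by
    have := congrArg Prod.fst hsumA
    simpa using this
  have hA2 : sA.sum.2.1 = (csh t a').2 := by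
    have := congrArg (fun p : P3 => p.2.1) hsumA
    simpa using this
  have hA3 : sA.sum.2.2 + 1 = k' + t.2.2 := by
    have := congrArg (fun p : P3 => p.2.2) hsumA
    simp only [Prod.snd_add] at this
    omega
  have hB1 : v.1 + sB.sum.1 = (csh t b').1 := by
    have := congrArg Prod.fst hsumB
    simpa using this
  have hB2 : v.2 + sB.sum.2.1 = (csh t b').2 := by
    have := congrArg (fun p : P3 => p.2.1) hsumB
    simpa using this
  have hgt' : hgt (sA, sB) = k' + t.2.2 := hA3
  have hz1 : hz sA.sum = csh t a' := Prod.ext hA1 hA2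
  have hz2 : v + hz sB.sum = csh t b' := Prod.ext hB1 hB2
  have hsdA : sdA (sA, sB) = A.map (· + t) := hA0.symm
  have hsdB : sdB v (sA, sB) = B.map (· + t) := hB0.symm
  have hv0 : v ≠ 0 := by
    intro h0
    exact csh_ne (t := t) hab.symm (by rw [← hv, h0, ha0])
  refine ⟨(sA, sB), ⟨hv0, hstA, hstB, ?_, ?_⟩, hgt', hz1, hz2, hsdA, hsdB⟩
  · rw [hsdA, hsdB, hgt']
    change Block 0 (k' + t.2.2) 0 v (hz sA.sum) (v + hz sB.sum) _ _
    rw [hz1, hz2]
    exact hbs
  · intro j hj hj'
    rw [hgt'] at hj'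
    have h1 := hthin (j - t.2.2) (by omega) (by omega)
    intro h2
    apply h1
    rw [← h2, hsdA, hsdB]
    have h3 : {c | leg c j ∈ pedges (A.map (· + t)) ∨ leg c j ∈ pedges (B.map (· + t))} =
        (fun c : ℤ × ℤ => csh t c) ''
          {c | leg c (j - t.2.2) ∈ pedges A ∨ leg c (j - t.2.2) ∈ pedges B} := by
      ext c
      simp only [Set.mem_ofPred_eq, st_leg, Set.mem_image]
      constructor
      · intro h5
        refine ⟨(c.1 - t.1, c.2 - t.2.1), h5, ?_⟩
        unfold csh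
        simp
      · rintro ⟨d, hd, rfl⟩
        unfold csh
        simpa using hd
    rw [h3, Set.ncard_image_of_injective]
    intro c d hcd
    by_contra hne
    exact csh_ne (t := t) hne hcd

/-- A horizontal edge. -/
private def Hor (e : Sym2 P3) : Prop := ∀ u ∈ e, ∀ w ∈ e, (u : P3).2.2 = w.2.2

private theorem hor_mk {u w : P3} : Hor s(u, w) ↔ u.2.2 = w.2.2 := by
  unfold Hor
  constructor
  · intro h
    exact h u (Sym2.mem_mk_left u w) w (Sym2.mem_mk_right u w)
  · intro h x hx y hy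
    rw [Sym2.mem_iff] at hx hy
    rcases hx with rfl | rfl <;> rcases hy with rfl | rfl
    · rfl
    · exact h
    · exact h.symm
    · rfl

open Classical in
private theorem stp_le {s : List P3} (hs : Steps s) : ∀ {p : P3}, (wk p s).Nodup →
    stp (lets s) ≤ ((pedges (wk p s)).filter Hor).card := by
  induction s with
  | nil =>
    intro p _
    simp [stp]
  | cons d s ih =>
    intro p hn
    obtain ⟨hd, hs'⟩ := hs.cons
    rw [wk_cons, List.nodup_cons] at hn
    have h1 := ih hs' hn.2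
    have h2 : pedges (wk p (d :: s)) = insert s(p, p + d) (pedges (wk (p + d) s)) := by
      obtain ⟨m, hm⟩ : ∃ m, wk (p + d) s = (p + d) :: m := by
        cases s with
        | nil => exact ⟨[], rfl⟩
        | cons x s => exact ⟨_, rfl⟩
      rw [wk_cons, hm, pedges_cons_cons]
    have h3 : s(p, p + d) ∉ pedges (wk (p + d) s) := fun h => hn.1 (mem_of_mem_pedges h).1
    rw [h2, Finset.filter_insert]
    have h4 : stp (lets (d :: s)) = stp (lets s) + if (hlet d).isSome then 1 else 0 := by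
      unfold stp
      rw [lets_cons, List.countP_cons]
    rw [h4]
    split_ifs with h5 h6 h6
    · rw [Finset.card_insert_of_notMem (fun h => h3 (Finset.mem_filter.1 h).1)]
      omega
    · exfalso
      apply h6
      rw [hor_mk]
      rcases step_cases hd with rfl | rfl | rfl | rfl | rfl | rfl
      · simp
      · simp
      · simp
      · simp
      · simp [hlet] at h5
      · simp [hlet] at h5
    · rw [Finset.card_insert_of_notMem (fun h => h3 (Finset.mem_filter.1 h).1)]
      omega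
    · omega

open Classical in
private theorem hor_map (t : P3) (l : List P3) :
    ((pedges (l.map (· + t))).filter Hor).card ≤ ((pedges l).filter Hor).card := by
  rw [pedges_map]
  refine Finset.card_le_card_of_surjOn (Sym2.map fun u => u + t) ?_
  intro e he
  rw [Finset.mem_coe, Finset.mem_filter] at he
  obtain ⟨h1, h2⟩ := he
  unfold mapE at h1
  rw [Finset.mem_image] at h1
  obtain ⟨x, hx, rfl⟩ := h1
  refine ⟨x, ?_, rfl⟩
  rw [Finset.mem_coe, Finset.mem_filter]
  refine ⟨hx, ?_⟩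
  induction x using Sym2.ind with
  | _ u w =>
    rw [Sym2.map_mk, hor_mk] at h2
    rw [hor_mk]
    simpa using h2

open Classical in
/-- The number of horizontal steps of a block. -/
private theorem nh_le (hb : Block k k' a b a' b' A B) {π : PP} {v : ℤ × ℤ} {t : P3}
    (hg : Geo v π) (hA : sdA π = A.map (· + t)) (hB : sdB v π = B.map (· + t)) :
    KLog.nh π ≤ ((pedges A ∪ pedges B).filter Hor).card := by
  have h1 : stp (lets π.1) ≤ ((pedges A).filter Hor).card := by
    refine (stp_le hg.stA (p := (0, 0, 1)) hg.block.nodupA).trans ?_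
    change ((pedges (sdA π)).filter Hor).card ≤ _
    rw [hA]
    exact hor_map t A
  have h2 : stp (lets π.2) ≤ ((pedges B).filter Hor).card := by
    refine (stp_le hg.stB (p := (v.1, v.2, 1)) (List.nodup_reverse.1 hg.block.nodupB)).trans ?_
    have e : pedges (wk (v.1, v.2, 1) π.2) = pedges (sdB v π) := by
      ext e
      unfold sdB
      rw [mem_pedges_reverse]
    rw [e, hB]
    exact hor_map t B
  have h3 : Disjoint ((pedges A).filter Hor) ((pedges B).filter Hor) := by
    rw [Finset.disjoint_left]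
    intro e he he'
    have h4 := (Finset.mem_filter.1 he).1
    have h5 := (Finset.mem_filter.1 he').1
    induction e using Sym2.ind with
    | _ u w => exact hb.disj _ (mem_of_mem_pedges h4).1 (mem_of_mem_pedges h5).1
  rw [Finset.filter_union, Finset.card_union_of_disjoint h3]
  unfold KLog.nh
  omega

end

section

variable {K0 E : Finset (Sym2 P3)} {h : ℕ} {z : ℤ} {v : ℤ × ℤ}

/-- Below the plane the side join is `E`. -/
private theorem ins_low (hK : LeftOf K0 h z) (hE : IsPolygon E) :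
    LowEq (insK K0 h z (0, 0) E 0) E 0 := by
  obtain ⟨z1, z2⟩ := leftOf_z hK
  intro u w hu
  rw [std_mem]
  constructor
  · rintro (⟨h1, -⟩ | ⟨h1, -⟩ | h1 | h1)
    · rw [mem_stretch] at h1
      rcases h1 with ⟨h2, -, -⟩ | ⟨-, h2, -⟩ | ⟨x, y, i, hi, h2, h3⟩
      · exact h2
      · omega
      · rw [Sym2.eq_iff] at h3
        have h4 : i = 0 := by
          rcases h3 with ⟨rfl, -⟩ | ⟨rfl, -⟩
          · simp only at hu; omega
          · simp only at hu; omega
        subst h4
        rcases h3 with ⟨rfl, rfl⟩ | ⟨rfl, rfl⟩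
        · simpa using h2
        · rw [Sym2.eq_swap]; simpa using h2
    · have := (hK.lev _ (left_mem_verts h1)).1
      omega
    · rw [Sym2.eq_iff] at h1
      rcases h1 with ⟨rfl, -⟩ | ⟨rfl, -⟩ <;> simp only at hu <;> omega
    · rw [Sym2.eq_iff] at h1
      rcases h1 with ⟨rfl, -⟩ | ⟨rfl, -⟩ <;> simp only at hu <;> omega
  · intro h1
    refine Or.inl ⟨?_, ?_⟩
    · rw [mem_stretch]
      rcases adj_cases 0 (hE.adj _ _ h1) with ⟨h2, h3⟩ | ⟨h2, -⟩ | ⟨x, y, h2⟩
      · exact Or.inl ⟨h1, h2, h3⟩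
      · omega
      · rw [h2] at h1
        refine Or.inr (Or.inr ⟨x, y, 0, by omega, h1, ?_⟩)
        rw [h2]
        simp
    · intro h2
      rw [Sym2.eq_iff] at h2
      rcases h2 with ⟨rfl, -⟩ | ⟨rfl, -⟩ <;> simp only at hu <;> omega

/-- Above the upper plane the side join is `E` moved up. -/
private theorem ins_upp (hK : LeftOf K0 h z) (hE : IsPolygon E) :
    UppEq (shift (0, 0, (h : ℤ)) E) (insK K0 h z (0, 0) E 0) h := by
  obtain ⟨z1, z2⟩ := leftOf_z hK
  intro u w hu
  rw [std_mem, mem_shift]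
  constructor
  · intro h1
    refine Or.inl ⟨?_, ?_⟩
    · rw [mem_stretch]
      rcases adj_cases 0 (hE.adj _ _ h1) with ⟨h2, -⟩ | ⟨h2, h3⟩ | ⟨x, y, h2⟩
      · simp only [Prod.snd_sub] at h2; omega
      · simp only [Prod.snd_sub] at h2 h3
        exact Or.inr (Or.inl ⟨h1, by omega, by omega⟩)
      · rw [h2] at h1
        refine Or.inr (Or.inr ⟨x, y, h, le_rfl, h1, ?_⟩)
        have h3 := congrArg (Sym2.map fun p : P3 => p + (0, 0, (h : ℤ))) h2
        simp only [Sym2.map_mk, sub_add_cancel] at h3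
        rw [h3]
        simp only [Prod.mk_add_mk, add_zero]
        rw [show (0 : ℤ) + 1 + h = 0 + h + 1 by ring]
    · intro h2
      rw [Sym2.eq_iff] at h2
      rcases h2 with ⟨rfl, -⟩ | ⟨rfl, -⟩ <;> simp only at hu <;> omega
  · rintro (⟨h1, -⟩ | ⟨h1, -⟩ | h1 | h1)
    · rw [mem_stretch] at h1
      rcases h1 with ⟨-, h2, -⟩ | ⟨h2, -, -⟩ | ⟨x, y, i, hi, h2, h3⟩
      · omega
      · exact h2
      · rw [Sym2.eq_iff] at h3
        have h4 : i = h := by
          rcases h3 with ⟨rfl, -⟩ | ⟨rfl, -⟩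
          · simp only at hu; omega
          · simp only at hu; omega
        subst h4
        rcases h3 with ⟨rfl, rfl⟩ | ⟨rfl, rfl⟩
        · simp only [Prod.mk_sub_mk, sub_zero]
          rw [show (0 : ℤ) + i - i = 0 by ring, show (0 : ℤ) + i + 1 - i = 0 + 1 by ring]
          exact h2
        · simp only [Prod.mk_sub_mk, sub_zero]
          rw [show (0 : ℤ) + i - i = 0 by ring, show (0 : ℤ) + i + 1 - i = 0 + 1 by ring,
            Sym2.eq_swap]
          exact h2
    · have := (hK.lev _ (left_mem_verts h1)).2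
      omega
    · rw [Sym2.eq_iff] at h1
      rcases h1 with ⟨rfl, -⟩ | ⟨rfl, -⟩ <;> simp only at hu <;> omega
    · rw [Sym2.eq_iff] at h1
      rcases h1 with ⟨rfl, -⟩ | ⟨rfl, -⟩ <;> simp only at hu <;> omega

/-- The sections of the side join. -/
private theorem ins_cross (hK : LeftOf K0 h z) (hc : cross E 0 = {(0, 0), v}) (hv : 0 < v.1)
    {j : ℤ} (h0 : 0 ≤ j) (h1 : j ≤ h) :
    v ∈ cross (insK K0 h z (0, 0) E 0) j ∧
      ∀ c ∈ cross (insK K0 h z (0, 0) E 0) j, c ≠ v → c.1 ≤ 0 := by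
  obtain ⟨z1, z2⟩ := leftOf_z hK
  constructor
  · rw [mem_cross, std_mem]
    refine Or.inl ⟨?_, ?_⟩
    · have h2 : v ∈ cross (stretch E 0 h) j := by
        rw [cross_stretch_mid h0 (by omega), hc]
        simp
      exact h2
    · intro h2
      rw [Sym2.eq_iff] at h2
      simp only [Prod.mk.injEq] at h2
      omega
  · intro c hc' hcv
    rw [mem_cross, std_mem] at hc'
    rcases hc' with ⟨h2, -⟩ | ⟨h2, -⟩ | h2 | h2
    · have h3 : c ∈ cross (stretch E 0 h) j := h2
      rw [cross_stretch_mid h0 (by omega), hc] at h3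
      rcases h3 with h3 | h3
      · rw [h3]
      · exact absurd h3 hcv
    · have := hK.left _ (left_mem_verts h2)
      simp only at this
      omega
    · rw [Sym2.eq_iff] at h2
      simp only [Prod.mk.injEq] at h2
      omega
    · rw [Sym2.eq_iff] at h2
      simp only [Prod.mk.injEq] at h2
      omega

open Classical in
/-- The horizontal edges of the side join between the planes. -/
private theorem ins_hor (G : Finset (Sym2 P3)) (hG : ∀ e ∈ G, e ∈ insK K0 h z (0, 0) E 0)
    (hl : ∀ u w, s(u, w) ∈ G → 1 ≤ u.2.2 ∧ u.2.2 ≤ h) :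
    (G.filter Hor).card ≤ K0.card + 2 := by
  have h1 : G.filter Hor ⊆ K0 ∪ {s((-1, 0, z), (0, 0, z)), s((-1, 0, z + 1), (0, 0, z + 1))} := by
    intro e he
    obtain ⟨h2, h3⟩ := Finset.mem_filter.1 he
    induction e using Sym2.ind with
    | _ u w =>
      have h4 := hG _ h2
      have h5 := hl u w h2
      rw [hor_mk] at h3
      rw [std_mem] at h4
      rw [Finset.mem_union, Finset.mem_insert, Finset.mem_singleton]
      rcases h4 with ⟨h4, -⟩ | ⟨h4, -⟩ | h4 | h4
      · exfalso
        rw [mem_stretch] at h4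
        rcases h4 with ⟨-, h6, -⟩ | ⟨-, h6, -⟩ | ⟨x, y, i, hi, -, h6⟩
        · omega
        · omega
        · rw [Sym2.eq_iff] at h6
          rcases h6 with ⟨rfl, rfl⟩ | ⟨rfl, rfl⟩
          · simp only at h3; omega
          · simp only at h3; omega
      · exact Or.inl h4
      · exact Or.inr (Or.inl h4)
      · exact Or.inr (Or.inr h4)
  refine (Finset.card_le_card h1).trans ((Finset.card_union_le _ _).trans ?_)
  have h2 := Finset.card_le_two (a := (s((-1, 0, z), (0, 0, z)) : Sym2 P3))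
    (b := s((-1, 0, z + 1), (0, 0, z + 1)))
  omega

end

private theorem lt_unshift (hT : Cls T) {k : ℤ} {a b : ℤ × ℤ} {l : List P3} {t : P3}
    (h : LT T (k + t.2.2) (csh t a) (csh t b) (l.map (· + t))) : LT T k a b l := by
  have h1 := h.shift hT (-t)
  have e1 : k + t.2.2 + (-t).2.2 = k := by simp only [Prod.snd_neg]; ring
  have e2 : ∀ c : ℤ × ℤ, csh (-t) (csh t c) = c := by
    intro c
    unfold csh
    simp
  have e3 : (l.map (· + t)).map (· + -t) = l := by
    rw [List.map_map]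
    have : ((· + -t) ∘ (· + t) : P3 → P3) = id := by
      funext u
      simp
    rw [this, List.map_id]
  rw [e1, e2, e2, e3] at h1
  exact h1

/-- **A local knot.** -/
theorem exists_free (hT : Cls T) (hT' : Cls T') (hTT : ∀ E, IsPolygon E → T E → T' E)
    (hne : ∃ E, IsPolygon E ∧ T' E ∧ ¬ T E) : ∃ π, FreeT T' π ∧ ¬ FreeT T π := by
  classical
  obtain ⟨K, hKP, hK', hKT⟩ := hne
  obtain ⟨K0, h, z, hKK, hK⟩ := exists_leftOf hKP
  obtain ⟨z1, z2⟩ := leftOf_z hK
  obtain ⟨W, hW⟩ : ∃ W : ℤ, W = K0.card + 3 := ⟨_, rfl⟩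
  obtain ⟨v, hv⟩ : ∃ v : ℤ × ℤ, v = (W, 0) := ⟨_, rfl⟩
  have hv1 : v.1 = W := by rw [hv]
  have hv0 : v ≠ 0 := by
    intro h0
    have := congrArg Prod.fst h0
    rw [hv1] at this
    simp only [Prod.fst_zero] at this
    omega
  obtain ⟨r, l, hr, hl, hr1, hl0, hU⟩ := exists_flat2 hv0
  set E := ring (r ++ l) with hEdef
  have hE : IsPolygon E := (ring_of hv0.symm hr hl).isPolygon
  have hc : cross E 0 = {(0, 0), v} := cross_ring_of hr hl
  have hlex : Lex (0, 0) v := Or.inl (by simp only; omega)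
  set F := insK K0 h z (0, 0) E 0 with hFdef
  have hF : IsPolygon F := insK_poly hK hE hc hlex
  have hS : SameType K F := hKK.trans (insK_type hK hE hc hlex hU)
  have hTF' : T' F := hT'.inv _ _ hS hK'
  have hTF : ¬ T F := fun h => hKT (hT.inv _ _ hS.symm h)
  -- the sections at the planes `0` and `h`
  obtain ⟨hcl, hcu⟩ := insK_cross hK hE hc hlex
  have h20 : IsTwo F 0 := by
    unfold IsTwo
    rw [hcl 0 le_rfl, hc]
    exact Set.ncard_pair hv0.symm
  have h2h : IsTwo F h := by
    unfold IsTwo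
    rw [hcu h (by omega), sub_self, hc]
    exact Set.ncard_pair hv0.symm
  have hE2 := isTwo_ring_of hv0.symm hr hl
  have hparts := (t_iff hT hE hE2).1 (hT.unk E hE hU)
  have hlow0 : LowT T F 0 := hparts.1.congr fun u w hu => (ins_low hK hE u w hu).symm
  have huppH : UppT T F h := by
    have h1 : UT T 0 0 v r := ⟨hv0.symm, hr, l, hl, hparts.2⟩
    have h2 := (h1.shift hT (0, 0, (h : ℤ))).uppT (hl.shift (0, 0, (h : ℤ)))
    rw [← List.map_append, ring_map] at h2
    have e1 : (0 : ℤ) + ((0, 0, (h : ℤ)) : P3).2.2 = h := by simp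
    rw [e1] at h2
    exact h2.congr (ins_upp hK hE)
  have hlowH : ¬ LowT T F h := fun h1 => hTF ((t_iff hT hF h2h).2 ⟨h1, huppH⟩)
  -- the lowest section below which the polygon is not of class `T`
  obtain ⟨k2, ⟨hk2a, hk2b, hk2c, hk2d⟩, hk2min⟩ :
      ∃ k2 : ℤ, (0 ≤ k2 ∧ k2 ≤ h ∧ IsTwo F k2 ∧ ¬ LowT T F k2) ∧
        ∀ j : ℤ, 0 ≤ j → j ≤ h → IsTwo F j → ¬ LowT T F j → k2 ≤ j := by
    have hfin : {j : ℤ | 0 ≤ j ∧ j ≤ h ∧ IsTwo F j ∧ ¬ LowT T F j}.Finite :=
      (Set.finite_Icc (0 : ℤ) h).subset fun j hj => ⟨hj.1, hj.2.1⟩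
    obtain ⟨k2, h1, h2⟩ := Set.exists_min_image _ id hfin ⟨h, by omega, le_rfl, h2h, hlowH⟩
    exact ⟨k2, h1, fun j a1 a2 a3 a4 => h2 j ⟨a1, a2, a3, a4⟩⟩
  have hk20 : k2 ≠ 0 := by
    rintro rfl
    exact hk2d hlow0
  -- the section below it
  obtain ⟨k1, ⟨hk1a, hk1b, hk1c⟩, hk1max⟩ :
      ∃ k1 : ℤ, (0 ≤ k1 ∧ k1 < k2 ∧ IsTwo F k1) ∧ ∀ j, 0 ≤ j → j < k2 → IsTwo F j → j ≤ k1 := by
    have hfin : {j : ℤ | 0 ≤ j ∧ j < k2 ∧ IsTwo F j}.Finite :=
      (Set.finite_Ico (0 : ℤ) k2).subset fun j hj => ⟨hj.1, hj.2.1⟩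
    obtain ⟨k1, h1, h2⟩ := Set.exists_max_image _ id hfin ⟨0, le_rfl, by omega, h20⟩
    exact ⟨k1, h1, fun j a1 a2 a3 => h2 j ⟨a1, a2, a3⟩⟩
  have hk1T : LowT T F k1 := by
    by_contra h1
    have := hk2min k1 hk1a (by omega) hk1c h1
    omega
  have hgap : ∀ j, k1 < j → j < k2 → ¬ IsTwo F j := by
    intro j h1 h2 h3
    have := hk1max j (by omega) h2 h3
    omega
  -- the block between them
  obtain ⟨hvc, hleft⟩ := ins_cross hK hc (by omega) hk1a (show k1 ≤ h by omega)
  obtain ⟨b, r1, l1, hab, hr1', hl1, hF1⟩ := exists_halves hF hk1c hvc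
  have hb0 : b.1 ≤ 0 := by
    refine hleft b ?_ hab.symm
    rw [← hFdef, ← hF1, cross_ring_of hr1' hl1]
    simp
  obtain ⟨a', b', A, r2, B, hab', hB, hr2, hr1eq⟩ := exists_block hr1' hl1 hk1b
    (show IsTwo (ring (r1 ++ l1)) k2 by rw [hF1]; exact hk2c)
  have hF2 : ring (r2 ++ (B ++ (l1 ++ A))) = F := by
    rw [← hB.ring_rotate hr2 hl1, ← hr1eq, hF1]
  have hthin : ∀ j, k1 < j → j < k2 →
      {c | leg c j ∈ pedges A ∨ leg c j ∈ pedges B}.ncard ≠ 2 := by
    intro j h1 h2 h3
    apply hgap j h1 h2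
    unfold IsTwo
    rw [← hF1, hr1eq, hB.cross_mid hr2 hl1 h1 h2]
    exact h3
  obtain ⟨t, ht⟩ : ∃ t : P3, t = (-v.1, -v.2, -k1) := ⟨_, rfl⟩
  obtain ⟨π, hg, hH, hz1, hz2, hsA, hsB⟩ := exists_pp hab hB hthin ht
  have ht1 : t.1 = -v.1 := by rw [ht]
  have ht2 : t.2.1 = -v.2 := by rw [ht]
  have ht3 : t.2.2 = -k1 := by rw [ht]
  have hk0 : k1 + t.2.2 = 0 := by rw [ht3]; ring
  have ha0 : csh t v = 0 := by
    unfold csh
    rw [ht1, ht2]
    refine Prod.ext ?_ ?_
    · simp
    · simp
  have hls : Lower 0 0 (csh t b) (l1.map (· + t)) := by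
    have h1 := hl1.shift t
    rw [hk0, ha0] at h1
    exact h1
  have hlist : (B ++ (l1 ++ A)).map (· + t) =
      sdB (csh t b) π ++ (l1.map (· + t) ++ sdA π) := by
    rw [hsA, hsB]
    simp only [List.map_append]
  have hnh : KLog.nh π ≤ K0.card + 2 := by
    refine (nh_le hB hg hsA hsB).trans (ins_hor (E := E) (h := h) (z := z) _ ?_ ?_)
    · intro e he
      rw [← hFdef, ← hF1, mem_ring_of hr1' hl1, hr1eq, hB.mem_upper hr2]
      rw [Finset.mem_union] at he
      rcases he with he | he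
      · exact Or.inl (Or.inl he)
      · exact Or.inl (Or.inr (Or.inl he))
    · intro u w he
      rw [Finset.mem_union] at he
      rcases he with he | he
      · have := hB.levA u (mem_of_mem_pedges he).1
        omega
      · have := hB.levB u (mem_of_mem_pedges he).1
        omega
  have hnrm : KLog.nh π < nrm (csh t b) := by
    have h1 : (csh t b).1 = b.1 - W := by
      unfold csh
      rw [ht1, hv1]
      ring
    unfold nrm
    omega
  -- it is of class `T'`
  have hUT' : UnkT T' (csh t b) π := by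
    have h1 : LT T' k2 a' b' (B ++ (l1 ++ A)) := by
      refine ⟨hab', hB.lower hl1, r2, hr2, ?_⟩
      rw [hF2]
      exact ((t_iff hT' hF hk2c).1 hTF').1
    have h2 := h1.shift hT' t
    rw [hlist, ← hH, ← hz1, ← hz2] at h2
    exact ((t_lu hT' hg hls).1 h2).2
  -- it is not of class `T`
  have hUT : ¬ UnkT T (csh t b) π := by
    intro h0
    apply hk2d
    have h1 : LT T k1 v b l1 := by
      refine ⟨hab, hl1, r1, hr1', ?_⟩
      rw [hF1]
      exact hk1T
    have h2 := h1.shift hT t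
    rw [hk0, ha0] at h2
    have h3 := (t_lu hT hg hls).2 ⟨h2, h0⟩
    rw [hH, hz1, hz2, ← hlist] at h3
    have h4 := (lt_unshift hT h3).lowT hr2
    rw [hF2] at h4
    exact h4
  refine ⟨π, ⟨csh t b, hnrm, hg, hUT'⟩, fun h0 => hUT ((valid_far hT hnrm).2 h0).2⟩

end Pool.Agent.KCls
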