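import Pool.Agent.KCls.Kernel
import Pool.Agent.KCls.Join
import Pool.Agent.KRing.Ratio

/-! KC14: the generating function at the critical point. -/

set_option autoImplicit false

open Pool.Agent.LK
open scoped ENNReal

namespace Pool.Agent.KCls

open Pool.Agent.KTube Pool.Agent.KRing Pool.Agent.KLog
open Pool.Agent.KTen (Zt)

variable {T : Finset (Sym2 P3) → Prop} {y z : ℝ}

private theorem tsum_classes {α : Type} (P : α → Prop) (k : α → ℕ) (f : α → ℝ≥0∞) :
    ∑' n : ℕ, ∑' E : {E | P E ∧ k E = n}, f E.1 = ∑' E : {E | P E}, f E.1 := by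
  rw [← ENNReal.tsum_fiberwise (fun E : {E | P E} => f E.1) (fun E => k E.1)]
  refine tsum_congr fun n => ?_
  let e : {E | P E ∧ k E = n} ≃ ((fun E : {E | P E} => k E.1) ⁻¹' {n}) :=
    { toFun := fun E => ⟨⟨E.1, E.2.1⟩, E.2.2⟩
      invFun := fun E => ⟨E.1.1, E.1.2, E.2⟩
      left_inv := fun E => rfl
      right_inv := fun E => rfl }
  exact e.tsum_eq (fun E : ((fun E : {E | P E} => k E.1) ⁻¹' {n}) => f E.1.1)

private theorem zt_tsum (hy : 0 ≤ y) (hz : 0 ≤ z) (n : ℕ) :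
    ENNReal.ofReal (Zt y T n * z ^ n) =
      ∑' E : KTen.NSet T n, ENNReal.ofReal y ^ span E.1 * ENNReal.ofReal z ^ E.1.card := by
  classical
  set X := (KTen.nset_finite T n).toFinset with hX
  have hset : KTen.NSet T n = ↑X := by rw [hX, Set.Finite.coe_toFinset]
  rw [zt_sum, ← hX, Finset.sum_mul,
    ENNReal.ofReal_sum_of_nonneg fun E _ => mul_nonneg (pow_nonneg hy _) (pow_nonneg hz _)]
  rw [tsum_congr_set_coe (fun E : Finset (Sym2 P3) => ENNReal.ofReal y ^ span E *
    ENNReal.ofReal z ^ E.card) hset]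
  have h := Finset.tsum_subtype X (fun E : Finset (Sym2 P3) => ENNReal.ofReal y ^ span E *
    ENNReal.ofReal z ^ E.card)
  refine Eq.trans ?_ h.symm
  refine Finset.sum_congr rfl fun E hE => ?_
  have hE' : E ∈ KTen.NSet T n := by
    rw [hX, Set.Finite.mem_toFinset] at hE
    exact hE
  rw [ENNReal.ofReal_mul (pow_nonneg hy _), ENNReal.ofReal_pow hy, ENNReal.ofReal_pow hz,
    hE'.2.2.2]

/-- With an arbitrary weight for the number of edges. -/
theorem gen_eq (hy : 0 ≤ y) (hz : 0 ≤ z) (g : ℕ → ℝ≥0∞) :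
    ∑' n : ℕ, g n * ENNReal.ofReal (Zt y T n * z ^ n) =
      ∑' N, ∑' E : PT T N, g E.1.card * (ENNReal.ofReal y ^ span E.1 *
        ENNReal.ofReal z ^ E.1.card) := by
  set f : Finset (Sym2 P3) → ℝ≥0∞ := fun E => g E.card * (ENNReal.ofReal y ^ span E *
    ENNReal.ofReal z ^ E.card) with hf
  set P : Finset (Sym2 P3) → Prop := fun E => IsPolygon E ∧ T E ∧ Normed E with hP
  have h1 : ∀ n : ℕ, g n * ENNReal.ofReal (Zt y T n * z ^ n) =
      ∑' E : {E | P E ∧ E.card = n}, f E.1 := by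
    intro n
    rw [zt_tsum hy hz, ← ENNReal.tsum_mul_left]
    have hset : KTen.NSet T n = {E | P E ∧ E.card = n} := by
      ext E
      constructor
      · rintro ⟨a, b, c, d⟩
        exact ⟨⟨a, b, c⟩, d⟩
      · rintro ⟨⟨a, b, c⟩, d⟩
        exact ⟨a, b, c, d⟩
    rw [← tsum_congr_set_coe f hset]
    refine tsum_congr fun E => ?_
    rw [hf]
    simp only
    rw [E.2.2.2.2]
  have h2 : ∀ N : ℕ, ∑' E : PT T N, g E.1.card * (ENNReal.ofReal y ^ span E.1 *
      ENNReal.ofReal z ^ E.1.card) = ∑' E : {E | P E ∧ {k : ℤ | IsTwo E k}.ncard = N}, f E.1 := by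
    intro N
    have hset : PT T N = {E | P E ∧ {k : ℤ | IsTwo E k}.ncard = N} := by
      ext E
      constructor
      · rintro ⟨a, b, c, d⟩
        exact ⟨⟨a, b, c⟩, d⟩
      · rintro ⟨⟨a, b, c⟩, d⟩
        exact ⟨a, b, c, d⟩
    rw [← tsum_congr_set_coe f hset]
  rw [tsum_congr h1, tsum_congr h2, tsum_classes P (fun E => E.card) f,
    tsum_classes P (fun E => {k : ℤ | IsTwo E k}.ncard) f]

/-- The polygons without sections with two edges. -/
private theorem unt_zero (hy : 0 < y) (hz : 0 < z) (hz1 : z ≤ 1 / 10 ^ 4) (hq : y * z ^ 2 ≤ 1) :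
    UNT T (ENNReal.ofReal y) (ENNReal.ofReal z) 0 ≠ ⊤ := by
  refine ne_top_of_le_ne_top (un_geo hy hz hz1 hq) ?_
  let φ : PT T 0 → PF := fun E => ⟨E.1, E.2.1, E.2.2.2.1, E.2.2.2.2⟩
  have hφ : Function.Injective φ := by
    intro E F h
    exact Subtype.ext (congrArg (fun x : PF => x.1) h)
  exact ENNReal.tsum_comp_le_tsum_of_injective hφ
    (fun E : PF => ENNReal.ofReal y ^ span E.1 * ENNReal.ofReal z ^ E.1.card)

/-- A polygon with `N` sections with two edges has at least `2 N` edges. -/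
private theorem card_ge {N : ℕ} {E : Finset (Sym2 P3)} (hE : E ∈ PT T N) : 2 * N ≤ E.card := by
  have h1 := KTen.numTwo_le hE.1
  have h2 := KTen.two_span_le hE.1
  have h3 := KTen.card_eq hE.1
  have h4 : KTen.numTwo E = N := hE.2.2.2
  omega

/-- The series `∑ 1 / (n log n)` diverges. -/
private theorem not_summable_log : ¬ Summable (fun n : ℕ => 1 / ((n : ℝ) * Real.log n)) := by
  rw [← summable_condensed_iff_of_eventually_nonneg]
  · have e : (fun k : ℕ => (2 : ℝ) ^ k * (1 / (((2 ^ k : ℕ) : ℝ) * Real.log ((2 ^ k : ℕ) : ℝ)))) =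
        fun k : ℕ => (1 / Real.log 2) * (k : ℝ)⁻¹ := by
      funext k
      have h2 : (2 : ℝ) ^ k ≠ 0 := by positivity
      have hl : Real.log 2 ≠ 0 := (Real.log_pos one_lt_two).ne'
      push_cast
      rw [Real.log_pow]
      rcases Nat.eq_zero_or_pos k with rfl | hk
      · simp
      · have hk' : (k : ℝ) ≠ 0 := by exact_mod_cast hk.ne'
        field_simp
    rw [e, summable_mul_left_iff (by
      have hl : Real.log 2 ≠ 0 := (Real.log_pos one_lt_two).ne'
      positivity)]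
    exact Real.not_summable_natCast_inv
  · filter_upwards [Filter.eventually_ge_atTop 1] with n hn
    have h1 : (1 : ℝ) ≤ n := by exact_mod_cast hn
    have h2 : 0 ≤ Real.log n := Real.log_nonneg h1
    show (0 : ℝ) ≤ 1 / ((n : ℝ) * Real.log n)
    positivity
  · filter_upwards [Filter.eventually_ge_atTop 2] with n hn
    have h1 : (2 : ℝ) ≤ n := by exact_mod_cast hn
    have h2 : 0 < Real.log n := Real.log_pos (by linarith)
    have h3 : Real.log n ≤ Real.log ((n + 1 : ℕ) : ℝ) :=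
      Real.log_le_log (by linarith) (by push_cast; linarith)
    apply one_div_le_one_div_of_le (by positivity)
    exact mul_le_mul (by push_cast; linarith) h3 h2.le (by positivity)

private theorem zt_nonneg (hy : 0 ≤ y) (n : ℕ) : 0 ≤ Zt y T n := by
  rw [zt_sum]
  exact Finset.sum_nonneg fun E _ => pow_nonneg hy _

/-- Finite total mass of the polygons. -/
private theorem sum_UN (hT : Cls T) (hy : 0 < y) (hz : 0 < z) (hz1 : z ≤ 1 / 10 ^ 4)
    (hq : y * z ^ 2 ≤ 1)
    (hκ : (kerT T y z).Ok) (hM : Seq (kerT T y z) (MT T (ENNReal.ofReal y) (ENNReal.ofReal z))) :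
    ∑' N, UNT T (ENNReal.ofReal y) (ENNReal.ofReal z) N ≠ ⊤ := by
  have hcap := cap_sum (T := T) hy hz hz1 hq
  have hgreen := seq_green hκ hM
  set C : ℝ≥0∞ := ∑' v, MT T (ENNReal.ofReal y) (ENNReal.ofReal z) 0 v * 4 ^ nrm v with hC
  set G : ℝ≥0∞ := ∑' n, ∑' v, MT T (ENNReal.ofReal y) (ENNReal.ofReal z) n v *
    ENNReal.ofReal ((1 / 4) ^ nrm v) with hG
  have h1 : ∀ v, MT T (ENNReal.ofReal y) (ENNReal.ofReal z) 0 v ≤
      C * ENNReal.ofReal ((1 / 4) ^ nrm v) := by
    intro v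
    have h2 : MT T (ENNReal.ofReal y) (ENNReal.ofReal z) 0 v * 4 ^ nrm v ≤ C :=
      ENNReal.le_tsum (f := fun v => MT T (ENNReal.ofReal y) (ENNReal.ofReal z) 0 v * 4 ^ nrm v) v
    have h3 : (4 : ℝ≥0∞) ^ nrm v * ENNReal.ofReal ((1 / 4) ^ nrm v) = 1 := by
      have h4 : (4 : ℝ≥0∞) = ENNReal.ofReal 4 := by norm_num
      rw [h4, ← ENNReal.ofReal_pow (by norm_num), ← ENNReal.ofReal_mul (by positivity),
        ← mul_pow]
      norm_num
    calc MT T (ENNReal.ofReal y) (ENNReal.ofReal z) 0 v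
        = MT T (ENNReal.ofReal y) (ENNReal.ofReal z) 0 v * 4 ^ nrm v *
            ENNReal.ofReal ((1 / 4) ^ nrm v) := by rw [mul_assoc, h3, mul_one]
      _ ≤ C * ENNReal.ofReal ((1 / 4) ^ nrm v) := by gcongr
  rw [tsum_eq_zero_add' ENNReal.summable]
  refine ENNReal.add_ne_top.2 ⟨unt_zero hy hz hz1 hq, ?_⟩
  have h2 : ∑' n, UNT T (ENNReal.ofReal y) (ENNReal.ofReal z) (n + 1) ≤
      ENNReal.ofReal y * (C * G) := by
    rw [hG, ← ENNReal.tsum_mul_left, ← ENNReal.tsum_mul_left]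
    refine ENNReal.tsum_le_tsum fun n => (cut_top hT n).trans ?_
    gcongr
    rw [← ENNReal.tsum_mul_left]
    refine ENNReal.tsum_le_tsum fun v => ?_
    calc MT T (ENNReal.ofReal y) (ENNReal.ofReal z) n v * MT T (ENNReal.ofReal y) (ENNReal.ofReal z) 0 v
        ≤ MT T (ENNReal.ofReal y) (ENNReal.ofReal z) n v *
            (C * ENNReal.ofReal ((1 / 4) ^ nrm v)) := by gcongr; exact h1 v
      _ = C * (MT T (ENNReal.ofReal y) (ENNReal.ofReal z) n v *
            ENNReal.ofReal ((1 / 4) ^ nrm v)) := by ring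
  exact ne_top_of_le_ne_top
    (ENNReal.mul_ne_top ENNReal.ofReal_ne_top (ENNReal.mul_ne_top hcap hgreen)) h2

/-- **The generating function at a given critical point.** -/
theorem sums_at (hT : Cls T) (hy0 : 0 < y) (hz : 0 < z) (hz1 : z ≤ 1 / 10 ^ 4) (hq : y * z ^ 2 ≤ 1)
    (hone : ∑' π : {π // FreeT T π}, wt (ENNReal.ofReal y) (ENNReal.ofReal z) π.1 = 1) :
    Summable (fun n : ℕ => Zt y T n * z ^ n) ∧
    ¬ Summable (fun n : ℕ => Real.log n ^ 2 * (Zt y T n * z ^ n)) := by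
  have hκ := ker_ok hT hy0 hz hz1 hq hone
  have hM := seq_MT hT hy0 hz hz1 hq
  have hnn : ∀ n, 0 ≤ Zt y T n * z ^ n := fun n =>
    mul_nonneg (zt_nonneg hy0.le n) (pow_nonneg hz.le n)
  refine ⟨?_, ?_⟩
  · have h1 := gen_eq (T := T) hy0.le hz.le (fun _ => 1)
    have h2 : ∑' n : ℕ, ENNReal.ofReal (Zt y T n * z ^ n) ≠ ⊤ := by
      have h3 : ∑' n : ℕ, ENNReal.ofReal (Zt y T n * z ^ n) =
          ∑' N, UNT T (ENNReal.ofReal y) (ENNReal.ofReal z) N := by
        simpa only [one_mul, UNT] using h1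
      rw [h3]
      exact sum_UN hT hy0 hz hz1 hq hκ hM
    have h4 := ENNReal.summable_toReal h2
    simpa only [ENNReal.toReal_ofReal (hnn _)] using h4
  · intro hs
    obtain ⟨c, hc, n1, hn1⟩ := seq_sq hκ hM
    have h1 := gen_eq (T := T) hy0.le hz.le (fun n : ℕ => ENNReal.ofReal (Real.log n ^ 2))
    -- the left-hand side is finite
    have h2 : ∑' n : ℕ, ENNReal.ofReal (Real.log n ^ 2) *
        ENNReal.ofReal (Zt y T n * z ^ n) ≠ ⊤ := by
      have h3 := hs.tsum_ofReal_ne_top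
      simpa only [ENNReal.ofReal_mul (sq_nonneg _)] using h3
    rw [h1] at h2
    -- lower bound by the numbers of sections
    have h4 : ∀ N : ℕ, ENNReal.ofReal (Real.log N ^ 2) *
        UNT T (ENNReal.ofReal y) (ENNReal.ofReal z) N ≤
        ∑' E : PT T N, ENNReal.ofReal (Real.log E.1.card ^ 2) * (ENNReal.ofReal y ^ span E.1 *
          ENNReal.ofReal z ^ E.1.card) := by
      intro N
      rw [UNT, ← ENNReal.tsum_mul_left]
      refine ENNReal.tsum_le_tsum fun E => ?_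
      refine mul_le_mul' (ENNReal.ofReal_le_ofReal ?_) le_rfl
      rcases Nat.eq_zero_or_pos N with rfl | hN
      · simpa using sq_nonneg (Real.log (E.1.card : ℝ))
      · have hc1 : (1 : ℝ) ≤ N := by exact_mod_cast hN
        have hc2 : N ≤ E.1.card := le_trans (by omega) (card_ge E.2)
        have hc3 : (N : ℝ) ≤ (E.1.card : ℝ) := by exact_mod_cast hc2
        exact pow_le_pow_left₀ (Real.log_nonneg hc1) (Real.log_le_log (by linarith) hc3) 2
    have h5 : ∑' N : ℕ, ENNReal.ofReal (Real.log N ^ 2) *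
        UNT T (ENNReal.ofReal y) (ENNReal.ofReal z) N ≠ ⊤ :=
      ne_top_of_le_ne_top h2 (ENNReal.tsum_le_tsum h4)
    -- only the odd numbers of sections
    have hinj : Function.Injective (fun n : ℕ => 2 * n + 1) := by
      intro a b hab
      have hab' : 2 * a + 1 = 2 * b + 1 := hab
      omega
    have h6 : ∑' n : ℕ, ENNReal.ofReal (Real.log ((2 * n + 1 : ℕ) : ℝ) ^ 2) *
        UNT T (ENNReal.ofReal y) (ENNReal.ofReal z) (2 * n + 1) ≠ ⊤ :=
      ne_top_of_le_ne_top h5 (ENNReal.tsum_comp_le_tsum_of_injective hinj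
        (fun N : ℕ => ENNReal.ofReal (Real.log N ^ 2) *
          UNT T (ENNReal.ofReal y) (ENNReal.ofReal z) N))
    have hinj2 : Function.Injective (fun n : ℕ => n + (n1 + 2)) := fun a b hab =>
      Nat.add_right_cancel hab
    have h7 : ∑' n : ℕ, ENNReal.ofReal (Real.log ((2 * (n + (n1 + 2)) + 1 : ℕ) : ℝ) ^ 2) *
        UNT T (ENNReal.ofReal y) (ENNReal.ofReal z) (2 * (n + (n1 + 2)) + 1) ≠ ⊤ :=
      ne_top_of_le_ne_top h6 (ENNReal.tsum_comp_le_tsum_of_injective hinj2
        (fun n : ℕ => ENNReal.ofReal (Real.log ((2 * n + 1 : ℕ) : ℝ) ^ 2) *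
          UNT T (ENNReal.ofReal y) (ENNReal.ofReal z) (2 * n + 1)))
    have h8 : ∀ n : ℕ, ENNReal.ofReal (y * c * (1 / (((n + (n1 + 2) : ℕ) : ℝ) *
        Real.log ((n + (n1 + 2) : ℕ) : ℝ)))) ≤
        2 * (ENNReal.ofReal (Real.log ((2 * (n + (n1 + 2)) + 1 : ℕ) : ℝ) ^ 2) *
          UNT T (ENNReal.ofReal y) (ENNReal.ofReal z) (2 * (n + (n1 + 2)) + 1)) := by
      intro n
      generalize hm : n + (n1 + 2) = m
      have hm1 : n1 ≤ m := by omega
      have hm2 : (2 : ℝ) ≤ m := by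
        have : 2 ≤ m := by omega
        exact_mod_cast this
      have hl : 0 < Real.log m := Real.log_pos (by linarith)
      have hl2 : Real.log m ≤ Real.log ((2 * m + 1 : ℕ) : ℝ) :=
        Real.log_le_log (by linarith) (by push_cast; linarith)
      have e : y * c * (1 / ((m : ℝ) * Real.log m)) =
          Real.log m ^ 2 * (y * (c / (m * Real.log m ^ 3))) := by
        have hm0 : (m : ℝ) ≠ 0 := by linarith
        field_simp
      rw [e, ENNReal.ofReal_mul (by positivity), ENNReal.ofReal_mul hy0.le]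
      calc ENNReal.ofReal (Real.log m ^ 2) *
            (ENNReal.ofReal y * ENNReal.ofReal (c / (m * Real.log m ^ 3)))
          ≤ ENNReal.ofReal (Real.log ((2 * m + 1 : ℕ) : ℝ) ^ 2) * (ENNReal.ofReal y *
              ∑' v : ℤ × ℤ, MT T (ENNReal.ofReal y) (ENNReal.ofReal z) m v *
                MT T (ENNReal.ofReal y) (ENNReal.ofReal z) m v) := by
            refine mul_le_mul' (ENNReal.ofReal_le_ofReal ?_) (mul_le_mul' le_rfl (hn1 m hm1))
            exact pow_le_pow_left₀ hl.le hl2 2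
        _ ≤ ENNReal.ofReal (Real.log ((2 * m + 1 : ℕ) : ℝ) ^ 2) *
              (2 * UNT T (ENNReal.ofReal y) (ENNReal.ofReal z) (2 * m + 1)) :=
            mul_le_mul' le_rfl (join_half hT m)
        _ = 2 * (ENNReal.ofReal (Real.log ((2 * m + 1 : ℕ) : ℝ) ^ 2) *
              UNT T (ENNReal.ofReal y) (ENNReal.ofReal z) (2 * m + 1)) := by ring
    have h9 : ∑' n : ℕ, ENNReal.ofReal (y * c * (1 / (((n + (n1 + 2) : ℕ) : ℝ) *
        Real.log ((n + (n1 + 2) : ℕ) : ℝ)))) ≠ ⊤ := by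
      refine ne_top_of_le_ne_top ?_ (ENNReal.tsum_le_tsum h8)
      rw [ENNReal.tsum_mul_left]
      exact ENNReal.mul_ne_top (by norm_num) h7
    have h10 := ENNReal.summable_toReal h9
    have hpos : ∀ n : ℕ, 0 ≤ y * c * (1 / (((n + (n1 + 2) : ℕ) : ℝ) *
        Real.log ((n + (n1 + 2) : ℕ) : ℝ))) := by
      intro n
      have hm2 : (1 : ℝ) ≤ ((n + (n1 + 2) : ℕ) : ℝ) := by
        have : 1 ≤ n + (n1 + 2) := by omega
        exact_mod_cast this
      have hl : 0 ≤ Real.log ((n + (n1 + 2) : ℕ) : ℝ) := Real.log_nonneg hm2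
      positivity
    simp only [ENNReal.toReal_ofReal (hpos _)] at h10
    rw [summable_mul_left_iff (by positivity)] at h10
    exact not_summable_log ((summable_nat_add_iff (n1 + 2)).1 h10)

end Pool.Agent.KCls
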