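import Pool.Agent.KCls.GenU
import Pool.Agent.KCls.Sums
import Pool.Agent.KCls.Strict
import Pool.Agent.KAsym.Final

/-! KC20: the asymptotics of the number of stretched polygons of class `T`. -/

set_option autoImplicit false

open Pool.Agent.LK Filter Topology
open scoped ENNReal

namespace Pool.Agent.KCls

open Pool.Agent.KTube Pool.Agent.KRing Pool.Agent.KLog
open Pool.Agent.KTen (Zt)

variable {T T' : Finset (Sym2 P3) → Prop}

/-- The asymptotic form. -/
def Form (y : ℝ) (T : Finset (Sym2 P3) → Prop) (μ A : ℝ) : Prop :=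
  Tendsto (fun k : ℕ => Zt y T (2 * k) /
    (μ ^ (2 * k) / (((2 * k : ℕ) : ℝ) * Real.log ((2 * k : ℕ) : ℝ) ^ 2))) atTop (𝓝 A)

section

open Pool.Agent.KAsym

/-! ### The model -/

variable {R J H : Type} {κ : Mdl R J H}

private theorem one_sub_q (hκ : κ.Ok) : 1 - κ.q ≤ 9 * κ.z ∧ κ.q ≤ 1 := by
  have hz := hκ.z_pos
  have h2 : ∀ r, κ.rc r ≤ κ.rc r * 2 ^ κ.rn r * om (κ.ru r) := by
    intro r
    have h0 := hκ.rc_nn r
    have h3 : (1 : ℝ) ≤ 2 ^ κ.rn r := one_le_pow₀ (by norm_num)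
    calc κ.rc r ≤ κ.rc r * 2 ^ κ.rn r := le_mul_of_one_le_right h0 h3
      _ ≤ _ := le_mul_of_one_le_right (by positivity) (one_le_om _)
  have hs : Summable κ.rc := hκ.r_summable.of_nonneg_of_le hκ.rc_nn h2
  have h3 : ∑' r, κ.rc r ≤ κ.z / 1000 := (hs.tsum_le_tsum h2 hκ.r_summable).trans hκ.r_le
  have h4 : 0 ≤ ∑' r, κ.rc r := tsum_nonneg hκ.rc_nn
  have h5 := hκ.crit
  have h6 := hκ.q_pos
  have h7 : 0 < κ.q * κ.z := mul_pos h6 hz
  have h8 : κ.q ≤ 1 := by nlinarith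
  have h9 : κ.q * κ.z ≤ κ.z := by nlinarith
  exact ⟨by nlinarith, h8⟩

/-- The points of the critical line away from the singularity. -/
private theorem mem_far (hκ : κ.Ok) {φ : ℝ} (h1 : 80 * κ.z ≤ |φ|) (h2 : |φ| ≤ Real.pi) :
    (φ * Complex.I : ℂ) / 2 ∈ κ.Far := by
  have hz := hκ.z_pos
  refine ⟨?_, ?_⟩
  · rw [Complex.norm_exp]
    have : (-((φ * Complex.I : ℂ) / 2)).re = 0 := by simp
    rw [this, Real.exp_zero]
    norm_num
  · have e1 : (-2 : ℂ) * ((φ * Complex.I : ℂ) / 2) = ((-φ : ℝ) : ℂ) * Complex.I := by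
      push_cast; ring
    rw [e1]
    obtain ⟨hq1, hq2⟩ := one_sub_q hκ
    have h3 : 2 / Real.pi * |φ| ≤ ‖1 - Complex.exp (((-φ : ℝ) : ℂ) * Complex.I)‖ := by
      have e2 : ‖1 - Complex.exp (((-φ : ℝ) : ℂ) * Complex.I)‖ = 2 * |Real.sin (φ / 2)| := by
        rw [norm_sub_rev]
        have h := Complex.norm_exp_I_mul_ofReal_sub_one (-φ)
        rw [mul_comm] at h
        rw [h]
        rw [norm_mul, Real.norm_eq_abs, Real.norm_eq_abs, neg_div, Real.sin_neg, abs_neg]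
        norm_num
      rw [e2]
      have h4 : 2 / Real.pi * |φ / 2| ≤ |Real.sin (φ / 2)| := by
        apply Real.mul_abs_le_abs_sin
        rw [abs_div, abs_two]
        linarith
      rw [abs_div, abs_two] at h4
      linarith
    have h4 : ‖(1 : ℂ) - κ.q‖ * ‖Complex.exp (((-φ : ℝ) : ℂ) * Complex.I)‖ ≤ 9 * κ.z := by
      rw [Complex.norm_exp_ofReal_mul_I, mul_one]
      have : (1 : ℂ) - κ.q = ((1 - κ.q : ℝ) : ℂ) := by push_cast; ring
      rw [this, Complex.norm_real, Real.norm_of_nonneg (by linarith)]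
      exact hq1
    have h5 : ‖1 - Complex.exp (((-φ : ℝ) : ℂ) * Complex.I)‖ ≤
        ‖1 - κ.q * Complex.exp (((-φ : ℝ) : ℂ) * Complex.I)‖ +
        ‖(1 : ℂ) - κ.q‖ * ‖Complex.exp (((-φ : ℝ) : ℂ) * Complex.I)‖ := by
      rw [← norm_mul]
      have e3 : 1 - Complex.exp (((-φ : ℝ) : ℂ) * Complex.I) =
          (1 - κ.q * Complex.exp (((-φ : ℝ) : ℂ) * Complex.I)) -
          ((1 : ℂ) - κ.q) * Complex.exp (((-φ : ℝ) : ℂ) * Complex.I) := by ring
      rw [e3]
      exact norm_sub_le _ _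
    have hpi : Real.pi < 4 := by linarith [Real.pi_lt_d2]
    have h6 : 40 * κ.z ≤ 2 / Real.pi * |φ| := by
      rw [div_mul_eq_mul_div, le_div_iff₀ Real.pi_pos]
      nlinarith
    linarith

/-! ### The generating function -/

variable {y z : ℝ}

private noncomputable def ff (T : Finset (Sym2 P3) → Prop) (y z : ℝ) (S : ℂ) : ℂ :=
  uuT T y z (S / 2) + y / 2 * (mdlT T y z).srcs (S / 2) (mmT T y z (S / 2))

private noncomputable def GGf (T : Finset (Sym2 P3) → Prop) (y z : ℝ) (g : ℂ → ℂ) (S : ℂ) : ℂ :=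
  uuT T y z (S / 2) + y / 2 * g (S / 2)

private theorem half_re (S : ℂ) : (S / 2).re = S.re / 2 := by
  have : (S / 2) = ((1 / 2 : ℝ) : ℂ) * S := by push_cast; ring
  rw [this, Complex.re_ofReal_mul]; ring

private theorem half_norm (S : ℂ) : ‖S / 2‖ = ‖S‖ / 2 := by
  rw [norm_div]; norm_num

private theorem GGf_diff (hy : 0 < y) (hz : 0 < z) (hz1 : z ≤ 1 / 10 ^ 12) (hq : y * z ^ 2 ≤ 1)
    {g : ℂ → ℂ} {U V : Set ℂ} (hg : DifferentiableOn ℂ g U)
    (hV : ∀ S ∈ V, S / 2 ∈ U ∧ -(1 / 2) < (S / 2).re) :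
    DifferentiableOn ℂ (GGf T y z g) V := by
  have hh : DifferentiableOn ℂ (fun S : ℂ => S / 2) V := by fun_prop
  unfold GGf
  refine DifferentiableOn.add ?_ (DifferentiableOn.mul (differentiableOn_const _) ?_)
  · exact (uu_diff hy hz hz1 hq).comp hh fun S hS => (hV S hS).2
  · exact hg.comp hh fun S hS => (hV S hS).1

private theorem ext_aux (hy : 0 < y) (hz : 0 < z) (hz1 : z ≤ 1 / 10 ^ 12) (hq : y * z ^ 2 ≤ 1)
    {g : ℂ → ℂ} {U : Set ℂ} (hU : IsOpen U) (hg : DifferentiableOn ℂ g U)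
    (hgs : ∀ s ∈ U, 0 < s.re → g s = (mdlT T y z).srcs s (mmT T y z s)) {φ : ℝ}
    (hφ : (φ * Complex.I : ℂ) / 2 ∈ U) :
    ∃ ε > 0, ∃ g : ℂ → ℂ, DifferentiableOn ℂ g (Metric.ball (φ * Complex.I) ε) ∧
      ∀ s ∈ Metric.ball (φ * Complex.I : ℂ) ε, 0 < s.re → g s = ff T y z s := by
  have hW : IsOpen {S : ℂ | S / 2 ∈ U ∧ -(1 / 2) < (S / 2).re} := by
    refine (hU.preimage (by fun_prop : Continuous fun S : ℂ => S / 2)).inter ?_
    exact isOpen_lt continuous_const (Complex.continuous_re.comp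
      (by fun_prop : Continuous fun S : ℂ => S / 2))
  have hmem : (φ * Complex.I : ℂ) ∈ {S : ℂ | S / 2 ∈ U ∧ -(1 / 2) < (S / 2).re} := by
    refine ⟨hφ, ?_⟩
    rw [half_re]
    simp
  obtain ⟨ε, hε, hsub⟩ := Metric.isOpen_iff.1 hW _ hmem
  refine ⟨ε, hε, GGf T y z g, GGf_diff hy hz hz1 hq hg hsub, fun S hS hre => ?_⟩
  unfold GGf ff
  rw [hgs _ (hsub hS).1 (by rw [half_re]; linarith)]

/-- The hypotheses of the transfer theorem. -/
private theorem trf {y z : ℝ} (hT : Cls T) (hy : 0 < y) (hz : 0 < z) (hz1 : z ≤ 1 / 10 ^ 12)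
    (hq : y * z ^ 2 ≤ 1)
    (hone : ∑' π : {π // FreeT T π}, wt (ENNReal.ofReal y) (ENNReal.ofReal z) π.1 = 1)
    (hs : Summable fun n : ℕ => Zt y T n * z ^ n) :
    ∃ (f : ℂ → ℂ) (r : ℝ) (A B c : ℂ) (C : ℝ),
      Trf (fun k => Zt y T (2 * k) * z ^ (2 * k)) f r A B c C := by
  have hκ := mdl_ok hT hy hz hz1 hq hone
  have hm := mdl_sol hT hy hz hz1 hq hone
  have hκz : (mdlT T y z).z = z := rfl
  obtain ⟨gn, hgn1, hgn2, A₀, B₀, c₀, C₀, r₀, hr₀, hgn3⟩ := near hκ hm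
  obtain ⟨gf, hgf1, hgf2⟩ := far hκ hm
  obtain ⟨Cu, hCu⟩ := uu_lip hy hz hz1 hq
  set c : ℂ := c₀ + Real.log 2 with hc
  set r : ℝ := min (min (80 * z) (2 * r₀)) (min (1 / 50) (Real.exp (c.re - 1))) with hr
  have hr0 : 0 < r := by
    rw [hr]
    refine lt_min (lt_min (by positivity) (by positivity)) (lt_min (by norm_num) (Real.exp_pos _))
  have hr1 : r ≤ 80 * z := (min_le_left _ _).trans (min_le_left _ _)
  have hr2 : r ≤ 2 * r₀ := (min_le_left _ _).trans (min_le_right _ _)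
  have hr3 : r ≤ 1 / 50 := (min_le_right _ _).trans (min_le_left _ _)
  have hr4 : r ≤ Real.exp (c.re - 1) := (min_le_right _ _).trans (min_le_right _ _)
  have hsec : ∀ S ∈ Sct r, S / 2 ∈ (mdlT T y z).Sec ∧ -(1 / 2) < (S / 2).re := by
    rintro S ⟨h1, h2, h3⟩
    refine ⟨⟨div_ne_zero h1 two_ne_zero, ?_, ?_⟩, ?_⟩
    · rw [half_norm, hκz]; linarith
    · rw [half_norm, half_re]; linarith
    · rw [half_re]; linarith [norm_nonneg S]
  refine ⟨ff T y z, r, uuT T y z 0 + y / 2 * A₀, y / 2 * B₀, c, |Cu| + |y / 2 * C₀|, ?_⟩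
  refine { summable := ?_, nonneg := ?_, r_pos := hr0, r_le := by linarith, c_re := ?_,
           eq := ?_, ext := ?_, near := ?_ }
  · exact hs.comp_injective (i := fun k : ℕ => 2 * k) fun a b h => by
      have h' : 2 * a = 2 * b := h
      omega
  · intro n
    exact mul_nonneg (KTen.zt_nonneg hy.le _ _) (pow_nonneg hz.le _)
  · have : Real.log r ≤ c.re - 1 := by
      rw [← Real.log_exp (c.re - 1)]
      exact Real.log_le_log hr0 hr4
    linarith
  · intro S hS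
    have h1 := gen_uu hT hy hz hz1 hq hone (s := S / 2) (by rw [half_re]; linarith)
    unfold ff
    rw [← h1]
    have hinj : Function.Injective fun k : ℕ => 2 * k := fun a b h => by
      have h' : 2 * a = 2 * b := h
      omega
    have h2 : ∑' k : ℕ, (fun n : ℕ => ((Zt y T n * z ^ n : ℝ) : ℂ) *
        Complex.exp (-n * (S / 2))) (2 * k) = ∑' n : ℕ, ((Zt y T n * z ^ n : ℝ) : ℂ) *
        Complex.exp (-n * (S / 2)) := by
      refine hinj.tsum_eq (f := fun n : ℕ => ((Zt y T n * z ^ n : ℝ) : ℂ) *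
        Complex.exp (-n * (S / 2))) fun n hn => ?_
      by_contra hc
      have hodd : ¬ Even n := fun ⟨k, hk⟩ => hc ⟨k, by simp only; omega⟩
      apply hn
      simp only [KTen.u_odd hodd, zero_mul, Complex.ofReal_zero]
    rw [← h2]
    refine tsum_congr fun k => ?_
    simp only
    congr 2
    push_cast
    ring
  · intro φ h1 h2
    by_cases h3 : |φ| < 80 * z
    · refine ext_aux hy hz hz1 hq isOpen_sec hgn1 hgn2 ?_
      have hn : ‖(φ * Complex.I : ℂ) / 2‖ = |φ| / 2 := by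
        rw [half_norm, norm_mul, Complex.norm_real, Complex.norm_I, mul_one, Real.norm_eq_abs]
      refine ⟨?_, ?_, ?_⟩
      · rw [← norm_pos_iff, hn]; linarith
      · rw [hn, hκz]; linarith
      · rw [hn, half_re]
        have : (φ * Complex.I : ℂ).re = 0 := by simp
        rw [this]
        linarith
    · exact ext_aux hy hz hz1 hq isOpen_far hgf1 hgf2 (mem_far hκ (by rw [hκz]; linarith) h2)
  · refine ⟨GGf T y z gn, GGf_diff hy hz hz1 hq hgn1 hsec, fun S hS hre => ?_, fun S hS => ?_⟩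
    · unfold GGf ff
      rw [hgn2 _ (hsec S hS).1 (by rw [half_re]; linarith)]
    · have h1 := hgn3 (S / 2) (hsec S hS).1 (by
        rw [half_norm]; linarith [hS.2.1])
      have h2 := hCu (S / 2) (by rw [half_norm]; linarith [hS.2.1])
      have hlog : Complex.log (S / 2) = Complex.log S - Real.log 2 := by
        have e1 : S / 2 = ((2⁻¹ : ℝ) : ℂ) * S := by push_cast; ring
        rw [e1, Complex.log_ofReal_mul (by norm_num) hS.1, Real.log_inv]
        push_cast; ring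
      have e2 : c₀ - Complex.log (S / 2) = c - Complex.log S := by rw [hlog, hc]; ring
      rw [e2] at h1
      have hn1 : ‖S‖ ≤ 1 := by linarith [hS.2.1]
      have hn0 : 0 ≤ ‖S‖ := norm_nonneg _
      have h3 : ‖S‖ / 2 ≤ √‖S‖ := by
        have : ‖S‖ ≤ √‖S‖ := by
          rw [Real.le_sqrt hn0 hn0]
          nlinarith
        linarith
      have h4 : √(‖S‖ / 2) ≤ √‖S‖ := Real.sqrt_le_sqrt (by linarith)
      have e3 : GGf T y z gn S - (uuT T y z 0 + y / 2 * A₀) + y / 2 * B₀ / (c - Complex.log S) =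
          (uuT T y z (S / 2) - uuT T y z 0) + (y / 2 : ℂ) * (gn (S / 2) - A₀ +
            B₀ / (c - Complex.log S)) := by
        unfold GGf
        ring
      rw [e3]
      rw [half_norm] at h1 h2
      have h5 : ‖(y / 2 : ℂ)‖ = y / 2 := by
        have : (y / 2 : ℂ) = ((y / 2 : ℝ) : ℂ) := by push_cast; ring
        rw [this, Complex.norm_real, Real.norm_of_nonneg (by positivity)]
      calc _ ≤ ‖uuT T y z (S / 2) - uuT T y z 0‖ + ‖(y / 2 : ℂ) * (gn (S / 2) - A₀ +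
            B₀ / (c - Complex.log S))‖ := norm_add_le _ _
        _ ≤ |Cu| * √‖S‖ + |y / 2 * C₀| * √‖S‖ := by
          refine add_le_add ?_ ?_
          · calc _ ≤ Cu * (‖S‖ / 2) := h2
              _ ≤ |Cu| * (‖S‖ / 2) := mul_le_mul_of_nonneg_right (le_abs_self _) (by positivity)
              _ ≤ |Cu| * √‖S‖ := mul_le_mul_of_nonneg_left h3 (abs_nonneg _)
          · rw [norm_mul, h5]
            calc _ ≤ y / 2 * (C₀ * √(‖S‖ / 2)) := mul_le_mul_of_nonneg_left h1 (by positivity)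
              _ = (y / 2 * C₀) * √(‖S‖ / 2) := by ring
              _ ≤ |y / 2 * C₀| * √(‖S‖ / 2) :=
                mul_le_mul_of_nonneg_right (le_abs_self _) (Real.sqrt_nonneg _)
              _ ≤ |y / 2 * C₀| * √‖S‖ := mul_le_mul_of_nonneg_left h4 (abs_nonneg _)
        _ = _ := by ring

private theorem main_aux (hT : Cls T) {y z : ℝ} (hy : 0 < y) (hz : 0 < z)
    (hz1 : z ≤ 1 / 10 ^ 12) (hq : y * z ^ 2 ≤ 1)
    (hone : ∑' π : {π // FreeT T π}, wt (ENNReal.ofReal y) (ENNReal.ofReal z) π.1 = 1) :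
    ∃ A : ℝ, 0 < A ∧ Form y T z⁻¹ A := by
  obtain ⟨hs1, hs2⟩ := sums_at hT hy hz (hz1.trans (by norm_num)) hq hone
  obtain ⟨f, r, A, B, c, C, hTr⟩ := trf hT hy hz hz1 hq hone hs1
  set a : ℕ → ℝ := fun k => Zt y T (2 * k) * z ^ (2 * k) with ha
  have hann : ∀ k, 0 ≤ a k := hTr.nonneg
  have hns : ¬ Summable fun n : ℕ => Real.log n ^ 2 * a n := by
    intro hsum
    apply hs2
    have hinj : Function.Injective fun k : ℕ => 2 * k := fun a b h => by
      have h' : 2 * a = 2 * b := h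
      omega
    refine (hinj.summable_iff ?_).1 ?_
    · intro n hn
      have hodd : ¬ Even n := fun ⟨k, hk⟩ => hn ⟨k, by simp only; omega⟩
      simp only [KTen.u_odd hodd, zero_mul, mul_zero]
    · have h2 : Summable fun n : ℕ => 2 * Real.log 2 ^ 2 * a n + 2 * (Real.log n ^ 2 * a n) :=
        (hTr.summable.mul_left _).add (hsum.mul_left 2)
      refine h2.of_nonneg_of_le (fun n => ?_) fun n => ?_
      · exact mul_nonneg (sq_nonneg _) (hann n)
      · have h3 : Real.log ((2 * n : ℕ) : ℝ) ^ 2 ≤ 2 * Real.log 2 ^ 2 + 2 * Real.log n ^ 2 := by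
          rcases Nat.eq_zero_or_pos n with rfl | hn
          · simp
            positivity
          · push_cast
            rw [Real.log_mul two_ne_zero (by exact_mod_cast hn.ne')]
            nlinarith [sq_nonneg (Real.log 2 - Real.log n)]
        show Real.log ((2 * n : ℕ) : ℝ) ^ 2 * a n ≤ _
        have := mul_le_mul_of_nonneg_right h3 (hann n)
        linarith
  have hB := ne_zero hTr hns
  have hlim := transfer hTr
  refine ⟨2 * B.re, by positivity, ?_⟩
  unfold Form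
  have hl : Tendsto (fun k : ℕ => (Real.log ((2 * k : ℕ) : ℝ) / Real.log k) ^ 2) atTop (𝓝 1) := by
    have h1 : Tendsto (fun k : ℕ => Real.log (k : ℝ)) atTop atTop :=
      Real.tendsto_log_atTop.comp tendsto_natCast_atTop_atTop
    have h2 : Tendsto (fun k : ℕ => (Real.log 2 / Real.log k + 1) ^ 2) atTop (𝓝 1) := by
      have := ((h1.const_div_atTop (Real.log 2)).add_const 1).pow 2
      simpa using this
    refine h2.congr' ?_
    filter_upwards [eventually_ge_atTop 2] with k hk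
    have hk2 : (2 : ℝ) ≤ k := by exact_mod_cast hk
    have hk0 : (k : ℝ) ≠ 0 := by linarith
    have hlk : Real.log k ≠ 0 := (Real.log_pos (by linarith)).ne'
    push_cast
    rw [Real.log_mul two_ne_zero hk0]
    field_simp
  have h3 := (hlim.mul hl).const_mul 2
  rw [mul_one] at h3
  refine h3.congr' ?_
  filter_upwards [eventually_ge_atTop 2] with k hk
  have hk2 : (2 : ℝ) ≤ k := by exact_mod_cast hk
  have hk0 : (k : ℝ) ≠ 0 := by linarith
  have hlk : Real.log k ≠ 0 := (Real.log_pos (by linarith)).ne'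
  have hl2 : Real.log ((2 * k : ℕ) : ℝ) ≠ 0 := by
    push_cast
    exact (Real.log_pos (by linarith)).ne'
  simp only [ha]
  have hzk : z ^ (2 * k) ≠ 0 := pow_ne_zero _ hz.ne'
  rw [inv_pow]
  generalize Real.log ((2 * k : ℕ) : ℝ) = L at *
  push_cast
  field_simp

end

private theorem z_le {y z : ℝ} (hy : 10 ^ 24 ≤ y) (hq : y * z ^ 2 ≤ 1) :
    z ≤ 1 / 10 ^ 12 := by
  by_contra h
  push Not at h
  have h1 : (1 / 10 ^ 12 : ℝ) ^ 2 < z ^ 2 := pow_lt_pow_left₀ h (by norm_num) (by norm_num)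
  have h2 : (10 : ℝ) ^ 24 * (1 / 10 ^ 12) ^ 2 < y * z ^ 2 := by
    calc (10 : ℝ) ^ 24 * (1 / 10 ^ 12) ^ 2 < 10 ^ 24 * z ^ 2 := by
          exact mul_lt_mul_of_pos_left h1 (by norm_num)
      _ ≤ y * z ^ 2 := mul_le_mul_of_nonneg_right hy (sq_nonneg _)
  norm_num at h2
  linarith

private theorem pow_lim {x L : ℝ} (hx : 0 < x) (hL : 0 < L)
    (h : Tendsto (fun k : ℕ => x ^ (2 * k)) atTop (𝓝 L)) : x = 1 := by
  have h2 : Tendsto (fun k : ℕ => 2 * k) atTop atTop :=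
    tendsto_id.const_mul_atTop' (by norm_num)
  rcases lt_trichotomy x 1 with h1 | h1 | h1
  · have h3 := (tendsto_pow_atTop_nhds_zero_of_lt_one hx.le h1).comp h2
    exact absurd (tendsto_nhds_unique h h3) hL.ne'
  · exact h1
  · have h3 := (tendsto_pow_atTop_atTop_of_one_lt h1).comp h2
    exact absurd h (not_tendsto_nhds_of_tendsto_atTop h3 L)

/-- The growth rate is determined by the asymptotic form. -/
private theorem form_unique {y μ ν A B : ℝ} (hμ : 0 < μ) (hν : 0 < ν) (hA : 0 < A) (hB : 0 < B)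
    (h : Form y T μ A) (h' : Form y T ν B) : μ = ν := by
  have h1 := h.div h' hB.ne'
  have h2 : Tendsto (fun k : ℕ => (ν / μ) ^ (2 * k)) atTop (𝓝 (A / B)) := by
    refine h1.congr' ?_
    filter_upwards [h.eventually_ne hA.ne', eventually_ge_atTop 1] with k hk hk1
    have hD : (0 : ℝ) < ((2 * k : ℕ) : ℝ) * Real.log ((2 * k : ℕ) : ℝ) ^ 2 := by
      have h3 : (2 : ℝ) ≤ ((2 * k : ℕ) : ℝ) := by exact_mod_cast (by omega : 2 ≤ 2 * k)
      have h4 : 0 < Real.log ((2 * k : ℕ) : ℝ) := Real.log_pos (by linarith)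
      positivity
    have hZ : Zt y T (2 * k) ≠ 0 := by
      intro h0
      apply hk
      rw [h0, zero_div]
    have hμk : μ ^ (2 * k) ≠ 0 := pow_ne_zero _ hμ.ne'
    have hνk : ν ^ (2 * k) ≠ 0 := pow_ne_zero _ hν.ne'
    rw [Pi.div_apply, div_pow]
    generalize ((2 * k : ℕ) : ℝ) * Real.log ((2 * k : ℕ) : ℝ) ^ 2 = D at *
    have hD' := hD.ne'
    field_simp
  have h3 := pow_lim (div_pos hν hμ) (div_pos hA hB) h2
  rw [div_eq_one_iff_eq hμ.ne'] at h3
  exact h3.symm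

/-- At the critical point. -/
theorem main_at (hT : Cls T) {y z : ℝ} (hy : 0 < y) (hz : 0 < z) (hz1 : z ≤ 1 / 10 ^ 12)
    (hq : y * z ^ 2 ≤ 1)
    (hone : ∑' π : {π // FreeT T π}, wt (ENNReal.ofReal y) (ENNReal.ofReal z) π.1 = 1) :
    ∃ A : ℝ, 0 < A ∧ Form y T z⁻¹ A :=
  main_aux hT hy hz hz1 hq hone

/-- **The asymptotics of the number of stretched polygons of class `T`.** -/
theorem main (hT : Cls T) {y : ℝ} (hy : 10 ^ 24 ≤ y) : ∃ μ : ℝ, 0 < μ ∧ ∃ A : ℝ, 0 < A ∧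
    Form y T μ A := by
  have hy0 : 0 < y := lt_of_lt_of_le (by norm_num) hy
  obtain ⟨z, hz, -, hq, hone⟩ := exists_crit hT (le_trans (by norm_num) hy : (10 : ℝ) ^ 8 ≤ y)
  obtain ⟨A, hA, h⟩ := main_at hT hy0 hz (z_le hy hq) hq hone
  exact ⟨z⁻¹, inv_pos.2 hz, A, hA, h⟩

/-- **The growth rate is strictly increasing in the class.** -/
theorem main_lt (hT : Cls T) (hT' : Cls T') (hTT : ∀ E, IsPolygon E → T E → T' E)
    (hne : ∃ E, IsPolygon E ∧ T' E ∧ ¬ T E) {y μ μ' A A' : ℝ} (hy : 10 ^ 24 ≤ y) (hμ : 0 < μ)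
    (hμ' : 0 < μ') (hA : 0 < A) (hA' : 0 < A') (h : Form y T μ A) (h' : Form y T' μ' A') :
    μ < μ' := by
  have hy0 : 0 < y := lt_of_lt_of_le (by norm_num) hy
  have hy8 : (10 : ℝ) ^ 8 ≤ y := le_trans (by norm_num) hy
  obtain ⟨z, hz, -, hq, hone⟩ := exists_crit hT hy8
  obtain ⟨z', hz', -, hq', hone'⟩ := exists_crit hT' hy8
  obtain ⟨B, hB, h1⟩ := main_at hT hy0 hz (z_le hy hq) hq hone
  obtain ⟨B', hB', h1'⟩ := main_at hT' hy0 hz' (z_le hy hq') hq' hone'
  rw [form_unique hμ (inv_pos.2 hz) hA hB h h1, form_unique hμ' (inv_pos.2 hz') hA' hB' h' h1']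
  have h2 := crit_lt (free_mono hTT) (exists_free hT hT' hTT hne) hy0 hz hz' hone hone'
  exact inv_strictAnti₀ hz' h2

end Pool.Agent.KCls
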