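import Pool.Agent.KCls.SolM
import Pool.Agent.KCls.Cut
import Pool.Agent.KCls.Rest

/-! KC18: the generating function of the polygons of class `T`. -/

set_option autoImplicit false

open Pool.Agent.LK
open scoped ENNReal

namespace Pool.Agent.KCls

open Pool.Agent.KTube Pool.Agent.KRing Pool.Agent.KLog Pool.Agent.KAsym
open Pool.Agent.KTen (Zt)

variable {y z : ℝ}

/-- The generating function of the polygons without sections with two edges. -/
noncomputable def uuT (T : Finset (Sym2 P3) → Prop) (y z : ℝ) (s : ℂ) : ℂ :=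
  ∑' E : PT T 0, ((y ^ span E.1 * z ^ E.1.card : ℝ) : ℂ) * Complex.exp (-E.1.card * s)

variable {T : Finset (Sym2 P3) → Prop}

/-- The weight of a polygon. -/
private noncomputable def wP (y z : ℝ) (E : Finset (Sym2 P3)) : ℝ := y ^ span E * z ^ E.card

/-- The complex weight of a polygon. -/
private noncomputable def wC (y z : ℝ) (s : ℂ) (E : Finset (Sym2 P3)) : ℂ :=
  ((y ^ span E * z ^ E.card : ℝ) : ℂ) * Complex.exp (-E.card * s)

private theorem wP_nonneg (hy : 0 < y) (hz : 0 < z) (E : Finset (Sym2 P3)) : 0 ≤ wP y z E := by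
  unfold wP
  positivity

private theorem norm_wC (hy : 0 < y) (hz : 0 < z) (s : ℂ) (E : Finset (Sym2 P3)) :
    ‖wC y z s E‖ = wP y z E * Real.exp (-E.card * s.re) := by
  unfold wC wP
  rw [norm_mul, Complex.norm_real, Complex.norm_exp, Real.norm_of_nonneg (by positivity)]
  congr 2
  simp

private theorem sum0 (hy : 0 < y) (hz : 0 < z) (hz1 : z ≤ 1 / 10 ^ 12) (hq : y * z ^ 2 ≤ 1) :
    Summable fun E : PT T 0 => wP y z E.1 * 2 ^ E.1.card := by
  have h := un_geo' hy hz hz1 hq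
  have h1 : ∀ E : PF, ENNReal.ofReal y ^ span E.1 * ENNReal.ofReal z ^ E.1.card *
      2 ^ E.1.card = ENNReal.ofReal (wP y z E.1 * 2 ^ E.1.card) := by
    intro E
    unfold wP
    rw [ENNReal.ofReal_mul (by positivity), ENNReal.ofReal_mul (by positivity),
      ENNReal.ofReal_pow hy.le, ENNReal.ofReal_pow hz.le, ENNReal.ofReal_pow (by norm_num)]
    norm_num
  rw [tsum_congr h1] at h
  have h2 : Summable fun E : PF => wP y z E.1 * 2 ^ E.1.card :=
    (ENNReal.summable_toReal h).congr fun E =>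
      ENNReal.toReal_ofReal (mul_nonneg (wP_nonneg hy hz _) (by positivity))
  have hinj : Function.Injective fun E : PT T 0 =>
      (⟨E.1, E.2.1, E.2.2.2.1, E.2.2.2.2⟩ : PF) := by
    rintro ⟨E, hE⟩ ⟨F, hF⟩ h
    have h3 : E = F := congrArg (fun X : PF => X.1) h
    subst h3
    rfl
  exact (h2.comp_injective hinj).congr fun E => rfl

private theorem exp_le_two (n : ℕ) {t : ℝ} (ht : -(1 / 2) ≤ t) :
    Real.exp (-(n : ℝ) * t) ≤ 2 ^ n := by
  have h1 : Real.exp (-(n : ℝ) * t) ≤ Real.exp ((n : ℝ) * (1 / 2)) := by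
    apply Real.exp_le_exp.2
    have hn : (0 : ℝ) ≤ n := n.cast_nonneg
    nlinarith
  refine h1.trans ?_
  rw [Real.exp_nat_mul]
  refine pow_le_pow_left₀ (Real.exp_pos _).le ?_ n
  have h2 : Real.exp (1 / 2) ^ 2 ≤ 2 ^ 2 := by
    rw [← Real.exp_nat_mul]
    norm_num
    have := Real.exp_one_lt_d9
    linarith
  exact le_of_sq_le_sq h2 (by norm_num)

theorem uu_diff (hy : 0 < y) (hz : 0 < z) (hz1 : z ≤ 1 / 10 ^ 12) (hq : y * z ^ 2 ≤ 1) :
    DifferentiableOn ℂ (uuT T y z) {s | -(1 / 2) < s.re} := by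
  have hU : IsOpen {s : ℂ | -(1 / 2) < s.re} := isOpen_lt continuous_const Complex.continuous_re
  refine Complex.differentiableOn_tsum_of_summable_norm (sum0 hy hz hz1 hq) (fun E => ?_) hU
    (fun E s hs => ?_)
  · refine Differentiable.differentiableOn ?_
    fun_prop
  · have h1 := norm_wC hy hz s E.1
    unfold wC at h1
    rw [h1]
    exact mul_le_mul_of_nonneg_left (exp_le_two _ (le_of_lt hs)) (wP_nonneg hy hz _)

theorem uu_lip (hy : 0 < y) (hz : 0 < z) (hz1 : z ≤ 1 / 10 ^ 12) (hq : y * z ^ 2 ≤ 1) :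
    ∃ C : ℝ, ∀ s : ℂ, ‖s‖ ≤ 1 / 100 → ‖uuT T y z s - uuT T y z 0‖ ≤ C * ‖s‖ := by
  have hU : IsOpen {s : ℂ | -(1 / 2) < s.re} := isOpen_lt continuous_const Complex.continuous_re
  have hd := uu_diff (T := T) hy hz hz1 hq
  have hsub : Metric.closedBall (0 : ℂ) (1 / 100) ⊆ {s : ℂ | -(1 / 2) < s.re} := by
    intro s hs
    rw [mem_closedBall_zero_iff] at hs
    have h1 := (Complex.abs_re_le_norm s).trans hs
    have h2 := (abs_le.1 h1).1
    show -(1 / 2) < s.re
    linarith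
  have hc : ContinuousOn (deriv (uuT T y z)) (Metric.closedBall (0 : ℂ) (1 / 100)) :=
    (hd.deriv hU).continuousOn.mono hsub
  obtain ⟨C, hC⟩ := (isCompact_closedBall (0 : ℂ) (1 / 100)).exists_bound_of_continuousOn hc
  refine ⟨C, fun s hs => ?_⟩
  have h3 := (convex_closedBall (0 : ℂ) (1 / 100)).norm_image_sub_le_of_norm_deriv_le
    (f := uuT T y z) (C := C)
    (fun x hx => (hd x (hsub hx)).differentiableAt (hU.mem_nhds (hsub hx)))
    hC (Metric.mem_closedBall_self (by norm_num)) (mem_closedBall_zero_iff.2 hs)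
  rwa [sub_zero] at h3

/-- The halves with a half without sections with two edges of the same displacement. -/
private abbrev TT (T : Finset (Sym2 P3) → Prop) : Type := Σ h : HT T, {l // LT T 0 0 h.1 l}

/-- The complex weight of a half. -/
private noncomputable def cl (y z : ℝ) (s : ℂ) (l : List P3) : ℂ :=
  wlR y z l * Complex.exp (-l.length * s)

private theorem norm_cl (hy : 0 < y) (hz : 0 < z) (s : ℂ) (l : List P3) :
    ‖cl y z s l‖ = wlR y z l * Real.exp (-l.length * s.re) := by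
  unfold cl wlR
  rw [norm_mul, Complex.norm_real, Complex.norm_exp, Real.norm_of_nonneg (by positivity)]
  congr 2
  simp

private theorem f1_inj : Function.Injective (fun h : HT T =>
    (⟨h.1, ⟨h.2.1, h.2.2.1⟩⟩ : Σ v : ℤ × ℤ, {l // LT T 0 0 v l})) := by
  rintro ⟨v, l, hl⟩ ⟨v', l', hl'⟩ h
  have h1 : v = v' := congrArg (fun p : Σ v : ℤ × ℤ, {l // LT T 0 0 v l} => p.1) h
  have h2 : l = l' := congrArg (fun p : Σ v : ℤ × ℤ, {l // LT T 0 0 v l} => p.2.1) h
  subst h1
  subst h2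
  rfl

private theorem f2_inj : Function.Injective (fun p : TT T =>
    ((p.1, ⟨p.1.1, p.2⟩) : HT T × Σ v : ℤ × ℤ, {l // LT T 0 0 v l})) := by
  rintro ⟨h, l, hl⟩ ⟨h', l', hl'⟩ e
  have e1 : h = h' := congrArg (fun p : HT T × Σ v : ℤ × ℤ, {l // LT T 0 0 v l} => p.1) e
  have e2 : l = l' := congrArg (fun p : HT T × Σ v : ℤ × ℤ, {l // LT T 0 0 v l} => p.2.2.1) e
  subst e1
  subst e2
  rfl

private theorem summable_comp {α β : Type} {f : α → ℝ} (h : Summable f) {g : β → α}
    (hg : Function.Injective g) {k : β → ℝ} (hk : ∀ b, k b = f (g b)) : Summable k := by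
  have h1 := h.comp_injective hg
  exact h1.congr fun b => (hk b).symm

private theorem summable_compC {α β : Type} {f : α → ℂ} (h : Summable f) {g : β → α}
    (hg : Function.Injective g) {k : β → ℂ} (hk : ∀ b, k b = f (g b)) : Summable k := by
  have h1 := h.comp_injective hg
  exact h1.congr fun b => (hk b).symm

private theorem tsum_equivC {α β : Type} {f : α → ℂ} (g : β ≃ α) {k : β → ℂ}
    (hk : ∀ b, k b = f (g b)) : ∑' b, k b = ∑' a, f a := by
  rw [tsum_congr hk]
  exact g.tsum_eq f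

private theorem summable_mul {α β : Type} {f : α → ℝ} {g : β → ℝ} (hf : Summable f)
    (hg : Summable g) (hf0 : ∀ a, 0 ≤ f a) (hg0 : ∀ b, 0 ≤ g b) {k : α × β → ℝ}
    (hk : ∀ x, k x = f x.1 * g x.2) : Summable k := by
  have h1 := Summable.mul_of_nonneg hf hg hf0 hg0
  exact h1.congr fun b => (hk b).symm

private theorem sumT (hT : Cls T) (hy : 0 < y) (hz : 0 < z) (hz1 : z ≤ 1 / 10 ^ 12)
    (hq : y * z ^ 2 ≤ 1)
    (hone : ∑' π : {π // FreeT T π}, wt (ENNReal.ofReal y) (ENNReal.ofReal z) π.1 = 1)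
    {s : ℂ} (hs : 0 < s.re) :
    Summable fun p : TT T => cl y z s p.1.2.1 * cl y z s p.2.1 := by
  have h0 := all_summable hT hy hz hz1 hq hone hs
  have hn : ∀ l : List P3, 0 ≤ wlR y z l * Real.exp (-l.length * s.re) := by
    intro l
    unfold wlR
    positivity
  have h1 : Summable fun h : HT T => wlR y z h.2.1 * Real.exp (-h.2.1.length * s.re) :=
    summable_comp h0 f1_inj fun h => rfl
  have h2 : Summable fun x : HT T × Σ v : ℤ × ℤ, {l // LT T 0 0 v l} =>
      (wlR y z x.1.2.1 * Real.exp (-x.1.2.1.length * s.re)) *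
        (wlR y z x.2.2.1 * Real.exp (-x.2.2.1.length * s.re)) :=
    summable_mul h1 h0 (fun h => hn h.2.1) (fun p => hn p.2.1) fun x => rfl
  have h3 : Summable fun p : TT T => (wlR y z p.1.2.1 * Real.exp (-p.1.2.1.length * s.re)) *
      (wlR y z p.2.1 * Real.exp (-p.2.1.length * s.re)) :=
    summable_comp h2 f2_inj fun p => rfl
  refine Summable.of_norm (h3.congr fun p => ?_)
  rw [norm_mul, norm_cl hy hz, norm_cl hy hz]

private theorem tsumT (hT : Cls T) (hy : 0 < y) (hz : 0 < z) (hz1 : z ≤ 1 / 10 ^ 12)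
    (hq : y * z ^ 2 ≤ 1)
    (hone : ∑' π : {π // FreeT T π}, wt (ENNReal.ofReal y) (ENNReal.ofReal z) π.1 = 1)
    {s : ℂ} (hs : 0 < s.re) :
    ∑' p : TT T, cl y z s p.1.2.1 * cl y z s p.2.1 = (mdlT T y z).srcs s (mmT T y z s) := by
  rw [(sumT hT hy hz hz1 hq hone hs).tsum_sigma]
  unfold Mdl.srcs
  refine tsum_congr fun h => ?_
  have h1 : ∑' l : {l // LT T 0 0 h.1 l}, cl y z s h.2.1 * cl y z s l.1 =
      cl y z s h.2.1 * ∑' l : {l // LT T 0 0 h.1 l}, cl y z s l.1 := tsum_mul_left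
  exact h1

/-- All polygons with sections with two edges, twice. -/
private abbrev T2 (T : Finset (Sym2 P3) → Prop) : Type := Σ n : ℕ, PT T (n + 1) × Bool

private theorem exists_equiv (hT : Cls T) : ∃ e : T2 T ≃ TT T, ∀ x : T2 T,
    x.2.1.1.card = (e x).1.2.1.length + (e x).2.1.length ∧
      span x.2.1.1 = lspan (e x).1.2.1 + lspan (e x).2.1 + 1 := by
  choose e he using cut_bij hT
  let Φ : (Σ n : ℕ, Σ v : ℤ × ℤ, {l // HalfT T n v l} × {l // HalfT T 0 v l}) ≃ TT T :=
    { toFun := fun x => ⟨⟨x.2.1, x.2.2.2⟩, ⟨x.2.2.1.1, x.2.2.1.2.1⟩⟩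
      invFun := fun x => ⟨nsec x.2.1, ⟨x.1.1, (⟨x.2.1, x.2.2, rfl⟩, x.1.2)⟩⟩
      left_inv := by
        rintro ⟨n, v, ⟨l, hl, hn⟩, l2⟩
        subst hn
        rfl
      right_inv := fun x => rfl }
  refine ⟨(Equiv.sigmaCongrRight e).trans Φ, fun x => ?_⟩
  obtain ⟨h1, h2⟩ := he x.1 x.2
  refine ⟨?_, ?_⟩
  · rw [h1]
    exact Nat.add_comm _ _
  · rw [h2]
    show _ = lspan (e x.1 x.2).2.2.1 + lspan (e x.1 x.2).2.1.1 + 1
    rw [Nat.add_comm (lspan (e x.1 x.2).2.2.1)]

private theorem wC_equiv (s : ℂ) {E : Finset (Sym2 P3)} {l l2 : List P3}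
    (h1 : E.card = l2.length + l.length) (h2 : span E = lspan l2 + lspan l + 1) :
    wC y z s E = y * (cl y z s l2 * cl y z s l) := by
  unfold wC cl wlR
  rw [h1, h2]
  have h3 : Complex.exp (-((l2.length + l.length : ℕ) : ℂ) * s) =
      Complex.exp (-l2.length * s) * Complex.exp (-l.length * s) := by
    rw [← Complex.exp_add]
    congr 1
    push_cast
    ring
  rw [h3]
  push_cast
  ring

/-- All polygons with sections with two edges. -/
private abbrev T1 (T : Finset (Sym2 P3) → Prop) : Type := Σ n : ℕ, PT T (n + 1)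

private theorem sum1 (hT : Cls T) (hy : 0 < y) (hz : 0 < z) (hz1 : z ≤ 1 / 10 ^ 12)
    (hq : y * z ^ 2 ≤ 1)
    (hone : ∑' π : {π // FreeT T π}, wt (ENNReal.ofReal y) (ENNReal.ofReal z) π.1 = 1)
    {s : ℂ} (hs : 0 < s.re) :
    Summable (fun x : T1 T => wC y z s x.2.1) ∧
      2 * ∑' x : T1 T, wC y z s x.2.1 = y * (mdlT T y z).srcs s (mmT T y z s) := by
  obtain ⟨e, he⟩ := exists_equiv hT
  have h1 : ∀ x : T2 T, wC y z s x.2.1.1 = y * (cl y z s (e x).1.2.1 * cl y z s (e x).2.1) :=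
    fun x => wC_equiv s (he x).1 (he x).2
  have hS := sumT hT hy hz hz1 hq hone hs
  have h2 : Summable fun x : T2 T => wC y z s x.2.1.1 :=
    summable_compC (hS.mul_left (y : ℂ)) e.injective h1
  have h3 : ∑' x : T2 T, wC y z s x.2.1.1 = y * (mdlT T y z).srcs s (mmT T y z s) := by
    rw [← tsumT hT hy hz hz1 hq hone hs, ← tsum_mul_left]
    exact tsum_equivC e h1
  let g : T1 T × Bool ≃ T2 T :=
    { toFun := fun x => ⟨x.1.1, (x.1.2, x.2)⟩
      invFun := fun x => (⟨x.1, x.2.1⟩, x.2.2)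
      left_inv := fun x => rfl
      right_inv := fun x => rfl }
  have h4 : Summable fun x : T1 T × Bool => wC y z s x.1.2.1 :=
    summable_compC h2 g.injective fun x => rfl
  have h5 : Summable fun x : T1 T => wC y z s x.2.1 :=
    summable_compC h4 (g := fun x : T1 T => (x, true)) (fun a b h => (Prod.mk.inj h).1)
      fun x => rfl
  refine ⟨h5, ?_⟩
  have h7 : ∑' x : T1 T × Bool, wC y z s x.1.2.1 = ∑' x : T2 T, wC y z s x.2.1.1 :=
    tsum_equivC g fun x => rfl
  rw [← h3, ← h7, h4.tsum_prod]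
  rw [← tsum_mul_left]
  refine tsum_congr fun x => ?_
  rw [tsum_bool]
  ring

/-- **The generating function.** -/
theorem gen_uu (hT : Cls T) (hy : 0 < y) (hz : 0 < z) (hz1 : z ≤ 1 / 10 ^ 12)
    (hq : y * z ^ 2 ≤ 1)
    (hone : ∑' π : {π // FreeT T π}, wt (ENNReal.ofReal y) (ENNReal.ofReal z) π.1 = 1)
    {s : ℂ} (hs : 0 < s.re) :
    ∑' n : ℕ, ((Zt y T n * z ^ n : ℝ) : ℂ) * Complex.exp (-n * s) =
      uuT T y z s + y / 2 * (mdlT T y z).srcs s (mmT T y z s) := by
  classical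
  obtain ⟨h1, h2⟩ := sum1 hT hy hz hz1 hq hone hs
  have h0 : Summable fun E : PT T 0 => wC y z s E.1 := by
    refine Summable.of_norm_bounded (sum0 hy hz hz1 hq) fun E => ?_
    rw [norm_wC hy hz]
    exact mul_le_mul_of_nonneg_left (exp_le_two _ (by linarith)) (wP_nonneg hy hz _)
  -- all polygons by the number of sections
  have e0 : Summable (fun x : Σ N : ℕ, PT T N => wC y z s x.2.1) ∧
      ∑' x : Σ N : ℕ, PT T N, wC y z s x.2.1 = ∑' E : PT T 0, wC y z s E.1 +
        ∑' x : T1 T, wC y z s x.2.1 := by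
    let g : (Σ N : ℕ, PT T N) ≃ (PT T 0 : Set _) ⊕ T1 T := Equiv.sigmaNatSucc fun N => PT T N
    have h3 : HasSum (fun x : (PT T 0 : Set _) ⊕ T1 T => Sum.elim
        (fun E : PT T 0 => wC y z s E.1) (fun x : T1 T => wC y z s x.2.1) x)
        (∑' E : PT T 0, wC y z s E.1 + ∑' x : T1 T, wC y z s x.2.1) := by
      exact HasSum.sum h0.hasSum h1.hasSum
    have h5 : ∀ x : Σ N : ℕ, PT T N, wC y z s x.2.1 = Sum.elim
        (fun E : PT T 0 => wC y z s E.1) (fun x : T1 T => wC y z s x.2.1) (g x) := by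
      rintro ⟨N, E⟩
      cases N with
      | zero => rfl
      | succ N => rfl
    exact ⟨summable_compC h3.summable g.injective h5, (tsum_equivC g h5).trans h3.tsum_eq⟩
  -- all polygons by the number of edges
  let g2 : (Σ n : ℕ, KTen.NSet T n) ≃ Σ N : ℕ, PT T N :=
    { toFun := fun x => ⟨{k : ℤ | IsTwo x.2.1 k}.ncard,
        ⟨x.2.1, x.2.2.1, x.2.2.2.1, x.2.2.2.2.1, rfl⟩⟩
      invFun := fun x => ⟨x.2.1.card, ⟨x.2.1, x.2.2.1, x.2.2.2.1, x.2.2.2.2.1, rfl⟩⟩
      left_inv := by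
        rintro ⟨n, E, a, b, c, d⟩
        subst d
        rfl
      right_inv := by
        rintro ⟨n, E, a, b, c, d⟩
        subst d
        rfl }
  have e1 : Summable (fun x : Σ n : ℕ, KTen.NSet T n => wC y z s x.2.1) :=
    summable_compC e0.1 g2.injective fun x => rfl
  have e2 : ∑' x : Σ n : ℕ, KTen.NSet T n, wC y z s x.2.1 =
      ∑' x : Σ N : ℕ, PT T N, wC y z s x.2.1 :=
    tsum_equivC g2 fun x => rfl
  have e3 : ∀ n : ℕ, ((Zt y T n * z ^ n : ℝ) : ℂ) * Complex.exp (-n * s) =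
      ∑' E : KTen.NSet T n, wC y z s E.1 := by
    intro n
    set X := (KTen.nset_finite T n).toFinset with hX
    have hset : KTen.NSet T n = ↑X := by rw [hX, Set.Finite.coe_toFinset]
    rw [tsum_congr_set_coe (wC y z s) hset]
    have h := Finset.tsum_subtype X (wC y z s)
    refine Eq.trans ?_ h.symm
    rw [zt_sum, ← hX, Finset.sum_mul, Complex.ofReal_sum, Finset.sum_mul]
    refine Finset.sum_congr rfl fun E hE => ?_
    have hE' : E ∈ KTen.NSet T n := by
      rw [hX, Set.Finite.mem_toFinset] at hE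
      exact hE
    unfold wC
    rw [hE'.2.2.2]
  rw [tsum_congr e3, ← e1.tsum_sigma, e2, e0.2]
  have e4 : uuT T y z s = ∑' E : PT T 0, wC y z s E.1 := rfl
  rw [e4]
  congr 1
  have h6 : (y : ℂ) / 2 * (mdlT T y z).srcs s (mmT T y z s) =
      (y * (mdlT T y z).srcs s (mmT T y z s)) / 2 := by
    ring
  rw [h6, ← h2]
  ring

end Pool.Agent.KCls
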