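import Pool.Agent.KCls.Caps
import Pool.Agent.KLog.Glue

/-! KC3: halves are composed of a half and a block. -/

set_option autoImplicit false

open Pool.Agent.LK
open scoped ENNReal

namespace Pool.Agent.KCls

open Pool.Agent.KTube Pool.Agent.KRing Pool.Agent.KLog
open Pool.Agent.LatticeTube (pedges mem_of_mem_pedges)

variable {T : Finset (Sym2 P3) → Prop} {v v' w : ℤ × ℤ} {π π' : PP} {l l' : List P3} {n n' : ℕ}
  {y z : ℝ≥0∞}

theorem glu_half (hT : Cls T) (hl : HalfT T n v l) (hπ : ValidT T v π) :
    HalfT T (n + 1) (v + dsp π) (glu v l π) := by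
  obtain ⟨h1, h2⟩ := hl
  obtain ⟨hg, hu⟩ := hπ
  have h3 := (t_lu hT hg h1.2.1).2 ⟨h1, hu⟩
  have h4 := h3.shift hT (-(π.1.sum.1), -(π.1.sum.2.1), -(hgt π))
  refine ⟨?_, ?_⟩
  · have e1 : hgt π + ((-(π.1.sum.1), -(π.1.sum.2.1), -(hgt π)) : P3).2.2 = 0 := by
      simp only; ring
    have e2 : csh (-(π.1.sum.1), -(π.1.sum.2.1), -(hgt π)) (hz π.1.sum) = 0 := by
      refine Prod.ext ?_ ?_
      · simp [csh, hz]
      · simp [csh, hz]
    have e3 : csh (-(π.1.sum.1), -(π.1.sum.2.1), -(hgt π)) (v + hz π.2.sum) = v + dsp π := by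
      refine Prod.ext ?_ ?_
      · simp only [csh, hz, dsp, Prod.fst_add, Prod.fst_sub]; ring
      · simp only [csh, hz, dsp, Prod.snd_add, Prod.snd_sub]; ring
    rw [e1, e2, e3] at h4
    exact h4
  · unfold glu
    rw [nsec_map_add, nsec_glu hg h1.2.1, h2]

theorem wl_glu (hl : HalfT T n v l) (hπ : ValidT T v π) :
    wl y z (glu v l π) = wl y z l * wt y z π := by
  obtain ⟨h1, h2⟩ := hl
  obtain ⟨hg, hu⟩ := hπ
  unfold wl wt glu
  rw [lspan_map_add, lspan_glu hg h1.2.1]
  have hlen : ((sdB v π ++ (l ++ sdA π)).map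
      (· + ((-(π.1.sum.1), -(π.1.sum.2.1), -(hgt π)) : P3))).length =
      l.length + (π.1.length + π.2.length + 2) := by
    simp only [List.length_map, List.length_append, sdA, sdB, List.length_reverse, length_wk]
    omega
  rw [hlen, pow_add, pow_add]
  ring

theorem length_glu (hl : HalfT T n v l) (hπ : ValidT T v π) :
    (glu v l π).length = l.length + (π.1.length + π.2.length + 2) := by
  unfold glu
  simp only [List.length_map, List.length_append, sdA, sdB, List.length_reverse, length_wk]
  omega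

private theorem glueInj_key (t : P3) (l : List P3) (c : ℤ × ℤ) (j : ℤ) :
    leg c j ∈ pedges (l.map (· + t)) ↔
      leg (c.1 - t.1, c.2 - t.2.1) (j - t.2.2) ∈ pedges l := by
  rw [pedges_map]
  have : leg c j ∈ LK.shift t (pedges l) ↔ _ := mem_shift
  refine this.trans ?_
  have e1 : ((c.1, c.2, j + 1) : P3) - t = (c.1 - t.1, c.2 - t.2.1, j - t.2.2 + 1) := by
    refine Prod.ext rfl (Prod.ext rfl ?_)
    simp only [Prod.snd_sub]; ring
  rw [e1]
  rfl

private theorem glueInj_map (t : P3) (l : List P3) (j : ℤ) :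
    {c | leg c j ∈ pedges (l.map (· + t))}.ncard = {c | leg c (j - t.2.2) ∈ pedges l}.ncard := by
  have h1 : {c | leg c j ∈ pedges (l.map (· + t))} =
      (fun c : ℤ × ℤ => (c.1 + t.1, c.2 + t.2.1)) '' {c | leg c (j - t.2.2) ∈ pedges l} := by
    ext c
    rw [Set.mem_ofPred_eq, glueInj_key]
    constructor
    · intro h
      exact ⟨_, h, by simp⟩
    · rintro ⟨c', h, rfl⟩
      simpa using h
  rw [h1]
  refine Set.ncard_image_of_injective _ ?_
  intro c c' h
  simp only [Prod.mk.injEq, add_left_inj] at h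
  exact Prod.ext h.1 h.2

private theorem glueInj_zero (hg : Geo v π) (hl : Lower 0 0 v l) :
    {c | leg c 0 ∈ pedges (sdB v π ++ (l ++ sdA π))}.ncard = 2 := by
  have h1 : {c | leg c 0 ∈ pedges (sdB v π ++ (l ++ sdA π))} = {0, v} := by
    ext c
    rw [Set.mem_ofPred_eq, hg.block.mem_lower hl, Set.mem_insert_iff, Set.mem_singleton_iff]
    constructor
    · rintro (h | h | h | h | h)
      · have := (hg.block.levA _ (LatticeTube.mem_of_mem_pedges h).1).1
        simp only at this
        omega
      · have := (hg.block.levB _ (LatticeTube.mem_of_mem_pedges h).1).1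
        simp only at this
        omega
      · have := hl.lev _ (LatticeTube.mem_of_mem_pedges h).2
        simp only at this
        omega
      · exact Or.inl (leg_inj h).1
      · exact Or.inr (leg_inj h).1
    · rintro (rfl | rfl)
      · exact Or.inr (Or.inr (Or.inr (Or.inl rfl)))
      · exact Or.inr (Or.inr (Or.inr (Or.inr rfl)))
  rw [h1]
  exact Set.ncard_pair hg.ne.symm

private theorem glueInj_mid (hg : Geo v π) (hl : Lower 0 0 v l) {j : ℤ} (hj : 0 < j)
    (hj' : j < hgt π) : {c | leg c j ∈ pedges (sdB v π ++ (l ++ sdA π))}.ncard ≠ 2 := by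
  have h1 : {c | leg c j ∈ pedges (sdB v π ++ (l ++ sdA π))} =
      {c | leg c j ∈ pedges (sdA π) ∨ leg c j ∈ pedges (sdB v π)} := by
    ext c
    rw [Set.mem_ofPred_eq, hg.block.mem_lower hl, Set.mem_ofPred_eq]
    constructor
    · rintro (h | h | h | h | h)
      · exact Or.inl h
      · exact Or.inr h
      · have := hl.lev _ (LatticeTube.mem_of_mem_pedges h).1
        simp only at this
        omega
      · have := (leg_inj h).2
        omega
      · have := (leg_inj h).2
        omega
    · rintro (h | h)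
      · exact Or.inl h
      · exact Or.inr (Or.inl h)
  rw [h1]
  exact hg.thick j hj hj'

private theorem glueInj_hgt (hg : Geo v π) (hl : Lower 0 0 v l) (hg' : Geo v' π')
    (hl' : Lower 0 0 v' l') (h : glu v l π = glu v' l' π') : hgt π' ≤ hgt π := by
  by_contra hlt
  rw [not_le] at hlt
  have h0 : (0 : ℤ) < hgt π := hg.block.lt
  have e1 : {c | leg c (-(hgt π)) ∈ pedges (glu v l π)}.ncard = 2 := by
    unfold glu
    rw [glueInj_map]
    have : -(hgt π) - -(hgt π) = 0 := by ring
    simp only [this]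
    exact glueInj_zero hg hl
  have e2 : {c | leg c (-(hgt π)) ∈ pedges (glu v' l' π')}.ncard ≠ 2 := by
    unfold glu
    rw [glueInj_map]
    exact glueInj_mid hg' hl' (by simp only; omega) (by simp only; omega)
  rw [h] at e1
  exact e2 e1

theorem glu_inj (hl : HalfT T n v l) (hπ : ValidT T v π) (hl' : HalfT T n' v' l')
    (hπ' : ValidT T v' π') (h : glu v l π = glu v' l' π') : v = v' ∧ l = l' ∧ π = π' := by
  have hg := hπ.1
  have hg' := hπ'.1
  have hL : Lower 0 0 v l := hl.1.2.1
  have hL' : Lower 0 0 v' l' := hl'.1.2.1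
  have hH : hgt π = hgt π' :=
    le_antisymm (glueInj_hgt hg' hL' hg hL h.symm) (glueInj_hgt hg hL hg' hL' h)
  unfold glu at h
  rw [List.map_append, List.map_append, List.map_append, List.map_append] at h
  obtain ⟨t, ht⟩ : ∃ t : P3, t = (-(π.1.sum.1), -(π.1.sum.2.1), -(hgt π)) := ⟨_, rfl⟩
  obtain ⟨t', ht'⟩ : ∃ t' : P3, t' = (-(π'.1.sum.1), -(π'.1.sum.2.1), -(hgt π')) := ⟨_, rfl⟩
  rw [← ht, ← ht'] at h
  have ht3 : t.2.2 = -(hgt π) := by rw [ht]
  have ht3' : t'.2.2 = -(hgt π) := by rw [ht', hH]
  obtain ⟨h1, h2⟩ := LatticeTube.append_split (fun u : P3 => -(hgt π) < u.2.2) _ _ _ _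
    (by
      intro u hu
      obtain ⟨w, hw, rfl⟩ := List.mem_map.1 hu
      have := (hg.block.levB w hw).1
      simp only [Prod.snd_add]
      omega)
    (by
      intro u hu
      obtain ⟨w, hw, rfl⟩ := List.mem_map.1 hu
      have := (hg'.block.levB w hw).1
      simp only [Prod.snd_add]
      omega)
    (by
      intro u hu
      rw [List.head?_append, List.head?_map, hL.head] at hu
      simp only [Option.map_some, Option.some_or, Option.mem_def, Option.some.injEq] at hu
      subst hu
      simp only [Prod.snd_add]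
      omega)
    (by
      intro u hu
      rw [List.head?_append, List.head?_map, hL'.head] at hu
      simp only [Option.map_some, Option.some_or, Option.mem_def, Option.some.injEq] at hu
      subst hu
      simp only [Prod.snd_add]
      omega) h
  obtain ⟨h3, h4⟩ := LatticeTube.append_split (fun u : P3 => u.2.2 ≤ -(hgt π)) _ _ _ _
    (by
      intro u hu
      obtain ⟨w, hw, rfl⟩ := List.mem_map.1 hu
      have := hL.lev w hw
      simp only [Prod.snd_add]
      omega)
    (by
      intro u hu
      obtain ⟨w, hw, rfl⟩ := List.mem_map.1 hu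
      have := hL'.lev w hw
      simp only [Prod.snd_add]
      omega)
    (by
      intro u hu
      rw [List.head?_map, hg.block.headA] at hu
      simp only [Option.map_some, Option.mem_def, Option.some.injEq] at hu
      subst hu
      simp only [Prod.snd_add]
      omega)
    (by
      intro u hu
      rw [List.head?_map, hg'.block.headA] at hu
      simp only [Option.map_some, Option.mem_def, Option.some.injEq] at hu
      subst hu
      simp only [Prod.snd_add]
      omega) h2
  have htt : t = t' := by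
    have h5 := congrArg List.head? h4
    rw [List.head?_map, List.head?_map, hg.block.headA, hg'.block.headA] at h5
    simp only [Option.map_some, Option.some.injEq] at h5
    exact add_left_cancel h5
  subst htt
  have hinj : Function.Injective (fun u : P3 => u + t) := add_left_injective t
  have hlist : Function.Injective (List.map fun u : P3 => u + t) :=
    List.map_injective_iff.2 hinj
  have e1 : sdB v π = sdB v' π' := hlist h1
  have e2 : l = l' := hlist h3
  have e3 : sdA π = sdA π' := hlist h4
  have e4 : π.1 = π'.1 := wk_inj e3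
  unfold sdB at e1
  rw [List.reverse_inj] at e1
  have e5 : v = v' := by
    have h5 := congrArg List.head? e1
    rw [head_wk, head_wk] at h5
    simp only [Option.some.injEq, Prod.mk.injEq, and_true] at h5
    exact Prod.ext h5.1 h5.2
  subst e5
  exact ⟨rfl, e2, Prod.ext e4 (wk_inj e1)⟩

section

variable {k k' : ℤ} {a b a' b' : ℤ × ℤ} {r l A B : List P3}

private lemma rev_chain {l : List P3} (h : l.IsChain Adj) : l.reverse.IsChain Adj := by
  rw [List.isChain_reverse]
  exact h.imp fun _ _ h => h.symm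

private lemma upper_rev (h : Upper k a b r) : Upper k b a r.reverse :=
  ⟨List.nodup_reverse.2 h.nodup, rev_chain h.chain, by rw [List.head?_reverse]; exact h.last,
    by rw [List.getLast?_reverse]; exact h.head, fun u hu => h.lev u (List.mem_reverse.1 hu)⟩

private lemma lower_rev (h : Lower k a b l) : Lower k b a l.reverse :=
  ⟨List.nodup_reverse.2 h.nodup, rev_chain h.chain, by rw [List.head?_reverse]; exact h.last,
    by rw [List.getLast?_reverse]; exact h.head, fun u hu => h.lev u (List.mem_reverse.1 hu)⟩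

private lemma block_rev (h : Block k k' a b a' b' A B) :
    Block k k' b a b' a' B.reverse A.reverse :=
  ⟨h.lt, List.nodup_reverse.2 h.nodupB, List.nodup_reverse.2 h.nodupA,
    fun u hu hu' => h.disj u (List.mem_reverse.1 hu') (List.mem_reverse.1 hu),
    rev_chain h.chainB, rev_chain h.chainA, by rw [List.head?_reverse]; exact h.lastB,
    by rw [List.getLast?_reverse]; exact h.headB, by rw [List.head?_reverse]; exact h.lastA,
    by rw [List.getLast?_reverse]; exact h.headA,
    fun u hu => h.levB u (List.mem_reverse.1 hu), fun u hu => h.levA u (List.mem_reverse.1 hu)⟩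

private lemma block_shift (h : Block k k' a b a' b' A B) (t : P3) :
    Block (k + t.2.2) (k' + t.2.2) (csh t a) (csh t b) (csh t a') (csh t b')
      (A.map (· + t)) (B.map (· + t)) := by
  have hch : ∀ l : List P3, l.IsChain Adj → (l.map (· + t)).IsChain Adj := by
    intro l hl
    rw [List.isChain_map]
    refine hl.imp fun u v huv => ?_
    simpa [Adj] using huv
  refine ⟨by have := h.lt; omega, h.nodupA.map (add_left_injective t),
    h.nodupB.map (add_left_injective t), ?_, hch _ h.chainA, hch _ h.chainB, ?_, ?_, ?_, ?_,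
    ?_, ?_⟩
  · intro u hu hu'
    obtain ⟨x, hx, rfl⟩ := List.mem_map.1 hu
    obtain ⟨y, hy, hxy⟩ := List.mem_map.1 hu'
    have := add_left_injective t hxy
    subst this
    exact h.disj _ hx hy
  · rw [List.head?_map, h.headA]
    simp only [Option.map_some, Option.some.injEq, csh]
    refine Prod.ext rfl (Prod.ext rfl ?_)
    simp only [Prod.snd_add]; ring
  · rw [List.getLast?_map, h.lastA]
    rfl
  · rw [List.head?_map, h.headB]
    rfl
  · rw [List.getLast?_map, h.lastB]
    simp only [Option.map_some, Option.some.injEq, csh]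
    refine Prod.ext rfl (Prod.ext rfl ?_)
    simp only [Prod.snd_add]; ring
  · intro u hu
    obtain ⟨v, hv, rfl⟩ := List.mem_map.1 hu
    have := h.levA v hv
    simp only [Prod.snd_add]; omega
  · intro u hu
    obtain ⟨v, hv, rfl⟩ := List.mem_map.1 hu
    have := h.levB v hv
    simp only [Prod.snd_add]; omega

private lemma leg_map (t : P3) (l : List P3) (c : ℤ × ℤ) (j : ℤ) :
    leg c j ∈ pedges (l.map (· + t)) ↔ leg (c.1 - t.1, c.2 - t.2.1) (j - t.2.2) ∈ pedges l := by
  rw [pedges_map]
  have : leg c j ∈ LK.shift t (pedges l) ↔ _ := mem_shift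
  refine this.trans ?_
  have e1 : ((c.1, c.2, j + 1) : P3) - t = (c.1 - t.1, c.2 - t.2.1, j - t.2.2 + 1) := by
    refine Prod.ext rfl (Prod.ext rfl ?_)
    simp only [Prod.snd_sub]; ring
  rw [e1]
  rfl

private lemma steps_of {p : P3} {s : List P3} (h : (wk p s).IsChain Adj) : Steps s :=
  chain_wk.1 h

/-- the part of a lower half above its highest section with two edges -/
private lemma exists_top (hw : (0 : ℤ × ℤ) ≠ w) (hl' : Lower 0 0 w l') (hn : nsec l' ≠ 0) :
    ∃ (k : ℤ) (a b : ℤ × ℤ) (l A B : List P3), a ≠ b ∧ Lower k a b l ∧ Block k 0 a b 0 w A B ∧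
      l' = B ++ (l ++ A) ∧
      ∀ j, k < j → j < 0 → {c | leg c j ∈ pedges A ∨ leg c j ∈ pedges B}.ncard ≠ 2 := by
  obtain ⟨r, hr⟩ : ∃ r, Upper 0 0 w r := by
    obtain ⟨r, hr⟩ := exists_UU' (k := 0) hw
    exact ⟨r, hr.2.1⟩
  have hfin : {j : ℤ | {c | leg c j ∈ pedges l'}.ncard = 2}.Finite := Set.finite_of_ncard_ne_zero hn
  have hne : {j : ℤ | {c | leg c j ∈ pedges l'}.ncard = 2}.Nonempty := by
    rw [Set.nonempty_iff_ne_empty]
    intro h
    apply hn
    unfold nsec
    rw [h, Set.ncard_empty]
  obtain ⟨k, hk2, hmax⟩ := Set.exists_max_image _ id hfin hne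
  rw [Set.mem_ofPred_eq] at hk2
  have hk0 : k < 0 := by
    have h1 : {c | leg c k ∈ pedges l'}.Nonempty := by
      rw [Set.nonempty_iff_ne_empty]
      intro h
      rw [h, Set.ncard_empty] at hk2
      omega
    obtain ⟨c, hc⟩ := h1
    have := (pedges_lev hl'.lev hc).2
    simp only at this
    omega
  have hcr : ∀ j : ℤ, j < 0 → cross (ring (r ++ l')) j = {c | leg c j ∈ pedges l'} := by
    intro j hj
    ext c
    exact cross_ring_low hr hl' hj
  have h2 : IsTwo (ring (r ++ l')) k := by
    unfold IsTwo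
    rw [hcr k hk0, hk2]
  have hP : IsPolygon (ring (r ++ l')) := (ring_of hw hr hl').isPolygon
  obtain ⟨a, ha⟩ := two_nonempty h2
  obtain ⟨b, r1, l, hab, hr1, hl, hE⟩ := exists_halves hP h2 ha
  have h20 : IsTwo (ring (r1 ++ l)) 0 := by
    rw [hE]
    exact isTwo_ring_of hw hr hl'
  obtain ⟨a', b', A, r', B, hab', hb, hr', hrA⟩ := exists_block hr1 hl hk0 h20
  subst hrA
  rw [hb.ring_rotate hr' hl] at hE
  have hthin : ∀ j, k < j → j < 0 →
      {c | leg c j ∈ pedges A ∨ leg c j ∈ pedges B}.ncard ≠ 2 := by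
    intro j hj hj' h
    have h3 : {c | leg c j ∈ pedges l'}.ncard = 2 := by
      rw [← hcr j hj', ← hE, ← hb.ring_rotate hr' hl, hb.cross_mid hr' hl hj hj']
      exact h
    have := hmax j h3
    simp only [id] at this
    omega
  have hcross : ({a', b'} : Set (ℤ × ℤ)) = {0, w} := by
    rw [← cross_ring_of hr hl', ← hE, cross_ring_of hr' (hb.lower hl)]
  have ha0 : a' = 0 ∨ a' = w := by
    have : a' ∈ ({0, w} : Set (ℤ × ℤ)) := by rw [← hcross]; exact Set.mem_insert _ _
    simpa using this
  rcases ha0 with rfl | rfl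
  · obtain ⟨h3, -, h4⟩ := halves_unique hab' hw hr' (hb.lower hl) hr hl' hE
    subst h3
    exact ⟨k, a, b, l, A, B, hab, hl, hb, h4.symm, hthin⟩
  · have hb0 : b' = 0 := by
      have : (0 : ℤ × ℤ) ∈ ({a', b'} : Set (ℤ × ℤ)) := by rw [hcross]; exact Set.mem_insert _ _
      rcases this with h | h
      · exact absurd h hw
      · exact h.symm
    subst hb0
    have hbr := block_rev hb
    have hE2 : ring (r'.reverse ++ (A.reverse ++ (l.reverse ++ B.reverse))) = ring (r ++ l') := by
      rw [← hE]
      ext e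
      rw [mem_ring_of (upper_rev hr') (hbr.lower (lower_rev hl)),
        mem_ring_of hr' (hb.lower hl)]
      have e1 : A.reverse ++ (l.reverse ++ B.reverse) = (B ++ (l ++ A)).reverse := by
        simp
      rw [e1, mem_pedges_reverse, mem_pedges_reverse]
      tauto
    obtain ⟨-, -, h4⟩ := halves_unique hw hw (upper_rev hr') (hbr.lower (lower_rev hl)) hr hl' hE2
    refine ⟨k, b, a, l.reverse, B.reverse, A.reverse, hab.symm, lower_rev hl, hbr, h4.symm, ?_⟩
    intro j hj hj'
    have h5 : {c | leg c j ∈ pedges B.reverse ∨ leg c j ∈ pedges A.reverse} =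
        {c | leg c j ∈ pedges A ∨ leg c j ∈ pedges B} := by
      ext c
      simp only [Set.mem_ofPred_eq, mem_pedges_reverse]
      exact or_comm
    rw [h5]
    exact hthin j hj hj'

end

theorem glu_surj (hT : Cls T) (h : HalfT T (n + 1) w l') : ∃ (v : ℤ × ℤ) (l : List P3) (π : PP),
    HalfT T n v l ∧ ValidT T v π ∧ v + dsp π = w ∧ glu v l π = l' := by
  obtain ⟨hLU, hn⟩ := h
  obtain ⟨k, a, b, l, A, B, hab, hl, hb, hl'eq, hthin⟩ :=
    exists_top hLU.1 hLU.2.1 (by rw [hn]; omega)
  set t : P3 := (-a.1, -a.2, -k) with ht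
  have ht1 : t.1 = -a.1 := rfl
  have ht2 : t.2.1 = -a.2 := rfl
  have ht3 : t.2.2 = -k := rfl
  have hbs := block_shift hb t
  have hls := hl.shift t
  have hk0 : k + t.2.2 = 0 := by rw [ht3]; ring
  have hk1 : (0 : ℤ) + t.2.2 = -k := by rw [ht3]; ring
  have ha0 : csh t a = 0 := by
    unfold csh
    rw [ht1, ht2]
    refine Prod.ext ?_ ?_
    · simp
    · simp
  rw [hk0, hk1, ha0] at hbs
  rw [hk0, ha0] at hls
  set v := csh t b with hv
  obtain ⟨sA, hA⟩ := exists_wk (A.map (· + t)) _ hbs.headA
  obtain ⟨sB, hB⟩ := exists_wk (B.map (· + t)).reverse _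
    (by rw [List.head?_reverse]; exact hbs.lastB)
  have hA0 : A.map (· + t) = wk (0, 0, 1) sA := by
    rw [hA]
    rfl
  have hB0 : B.map (· + t) = (wk (v.1, v.2, 1) sB).reverse := by
    rw [← List.reverse_reverse (B.map (· + t)), hB]
    rfl
  have hstA : Steps sA := by
    refine steps_of (p := (0, 0, 1)) ?_
    rw [← hA0]
    exact hbs.chainA
  have hstB : Steps sB := by
    refine steps_of (p := (v.1, v.2, 1)) ?_
    have h1 := rev_chain hbs.chainB
    rw [hB0, List.reverse_reverse] at h1
    exact h1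
  have hsumA : ((0, 0, 1) : P3) + sA.sum = (-a.1, -a.2, -k) := by
    have h1 := hbs.lastA
    rw [hA0, last_wk, Option.some.injEq] at h1
    rw [h1]
    unfold csh
    rw [ht1, ht2]
    simp
  have hsumB : ((v.1, v.2, 1) : P3) + sB.sum = (w.1 - a.1, w.2 - a.2, -k) := by
    have h1 := hbs.headB
    rw [hB0, List.head?_reverse, last_wk, Option.some.injEq] at h1
    rw [h1]
    unfold csh
    rw [ht1, ht2]
    simp only [sub_eq_add_neg]
  have hA1 : sA.sum.1 = -a.1 := by
    have := congrArg Prod.fst hsumA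
    simpa using this
  have hA2 : sA.sum.2.1 = -a.2 := by
    have := congrArg (fun p : P3 => p.2.1) hsumA
    simpa using this
  have hA3 : sA.sum.2.2 + 1 = -k := by
    have := congrArg (fun p : P3 => p.2.2) hsumA
    simp only [Prod.snd_add] at this
    omega
  have hB1 : v.1 + sB.sum.1 = w.1 - a.1 := by
    have := congrArg Prod.fst hsumB
    simpa using this
  have hB2 : v.2 + sB.sum.2.1 = w.2 - a.2 := by
    have := congrArg (fun p : P3 => p.2.1) hsumB
    simpa using this
  have hgt' : hgt (sA, sB) = -k := hA3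
  have hz1 : hz sA.sum = csh t 0 := by
    unfold hz csh
    rw [ht1, ht2, hA1, hA2]
    simp
  have hz2 : v + hz sB.sum = csh t w := by
    unfold csh
    rw [ht1, ht2]
    refine Prod.ext ?_ ?_
    · change v.1 + sB.sum.1 = w.1 + -a.1
      rw [hB1]; ring
    · change v.2 + sB.sum.2.1 = w.2 + -a.2
      rw [hB2]; ring
  have hsdA : sdA (sA, sB) = A.map (· + t) := hA0.symm
  have hsdB : sdB v (sA, sB) = B.map (· + t) := hB0.symm
  have hv0 : v ≠ 0 := by
    intro h0
    exact csh_ne (t := t) hab.symm (by rw [← hv, h0, ha0])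
  have hgeo : Geo v (sA, sB) := by
    refine ⟨hv0, hstA, hstB, ?_, ?_⟩
    · rw [hsdA, hsdB, hgt']
      change Block 0 (-k) 0 v (hz sA.sum) (v + hz sB.sum) _ _
      rw [hz1, hz2]
      exact hbs
    · intro j hj hj'
      rw [hgt'] at hj'
      have h1 := hthin (j + k) (by omega) (by omega)
      intro h2
      apply h1
      rw [← h2, hsdA, hsdB]
      have h3 : {c | leg c j ∈ pedges (A.map (· + t)) ∨ leg c j ∈ pedges (B.map (· + t))} =
          (fun c : ℤ × ℤ => csh t c) ''
            {c | leg c (j + k) ∈ pedges A ∨ leg c (j + k) ∈ pedges B} := by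
        ext c
        have h4 : j - t.2.2 = j + k := by rw [ht3]; ring
        simp only [Set.mem_ofPred_eq, leg_map, h4, Set.mem_image]
        constructor
        · intro h5
          refine ⟨(c.1 - t.1, c.2 - t.2.1), h5, ?_⟩
          unfold csh
          simp
        · rintro ⟨d, hd, rfl⟩
          unfold csh
          simpa using hd
      rw [h3, Set.ncard_image_of_injective]
      intro c d hcd
      by_contra hne
      exact csh_ne (t := t) hne hcd
  have hsh : l'.map (· + t) = sdB v (sA, sB) ++ (l.map (· + t) ++ sdA (sA, sB)) := by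
    rw [hsdA, hsdB, hl'eq]
    simp only [List.map_append]
  have hLU2 : LT T (hgt (sA, sB)) (hz sA.sum) (v + hz sB.sum)
      (sdB v (sA, sB) ++ (l.map (· + t) ++ sdA (sA, sB))) := by
    have h1 := hLU.shift hT t
    rw [hk1] at h1
    rw [hgt', hz1, hz2, ← hsh]
    exact h1
  obtain ⟨h3, h4⟩ := (t_lu hT hgeo hls).1 hLU2
  refine ⟨v, l.map (· + t), (sA, sB), ⟨h3, ?_⟩, ⟨hgeo, h4⟩, ?_, ?_⟩
  · have h5 := nsec_glu hgeo hls
    rw [← hsh, nsec_map_add, hn] at h5
    omega
  · refine Prod.ext ?_ ?_
    · change v.1 + (sB.sum.1 - sA.sum.1) = w.1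
      rw [hA1]
      linarith
    · change v.2 + (sB.sum.2.1 - sA.sum.2.1) = w.2
      rw [hA2]
      linarith
  · unfold glu
    rw [← hsh, List.map_map]
    have h6 : ((· + (-((sA, sB) : PP).1.sum.1, -((sA, sB) : PP).1.sum.2.1, -(hgt (sA, sB)))) ∘
        (· + t) : P3 → P3) = id := by
      funext u
      simp only [Function.comp_apply, id]
      rw [hgt', hA1, hA2, ht]
      refine Prod.ext ?_ (Prod.ext ?_ ?_)
      · simp
      · simp
      · simp
    rw [h6, List.map_id]

private theorem pedges_card (l : List P3) : (LatticeTube.pedges l).card ≤ l.length := by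
  induction l with
  | nil => simp [LatticeTube.pedges]
  | cons a l ih =>
    cases l with
    | nil => simp [LatticeTube.pedges]
    | cons b l =>
      rw [LatticeTube.pedges]
      exact (Finset.card_insert_le _ _).trans (Nat.add_le_add_right ih 1)

theorem two_nsec_le (hl : LT T 0 0 v l) : 2 * nsec l ≤ l.length := by
  classical
  have hfin : {j : ℤ | {c | leg c j ∈ LatticeTube.pedges l}.ncard = 2}.Finite := by
    refine (planes_finite' l).subset fun j hj => ?_
    have hj' : {c | leg c j ∈ LatticeTube.pedges l}.ncard = 2 := hj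
    obtain ⟨c, hc⟩ : {c | leg c j ∈ LatticeTube.pedges l}.Nonempty :=
      Set.nonempty_of_ncard_ne_zero (by omega)
    exact ⟨c, hc⟩
  have hC : ∀ j : ℤ, {c | leg c j ∈ LatticeTube.pedges l}.Finite := fun j =>
    (LatticeTube.pedges l).finite_toSet.preimage (f := fun c => leg c j)
      fun a _ b _ h => (leg_inj h).1
  have h1 : nsec l = hfin.toFinset.card := Set.ncard_eq_toFinset_card _ hfin
  have h2 : ∑ j ∈ hfin.toFinset, (hC j).toFinset.card = 2 * nsec l := by
    rw [h1, mul_comm, ← smul_eq_mul, ← Finset.sum_const]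
    refine Finset.sum_congr rfl fun j hj => ?_
    rw [Set.Finite.mem_toFinset] at hj
    rw [← Set.ncard_eq_toFinset_card _ (hC j)]
    exact hj
  rw [← h2, ← Finset.card_sigma]
  refine (Finset.card_le_card_of_injOn (fun p : Σ _ : ℤ, ℤ × ℤ => leg p.2 p.1) ?_ ?_).trans
    (pedges_card l)
  · intro p hp
    rw [Finset.mem_coe, Finset.mem_sigma, Set.Finite.mem_toFinset, Set.Finite.mem_toFinset] at hp
    exact hp.2
  · rintro ⟨j, c⟩ _ ⟨j', c'⟩ _ h
    obtain ⟨rfl, rfl⟩ := leg_inj h
    rfl

end Pool.Agent.KCls
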