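import Pool.Agent.KCls.Glue

/-! KC4: the recursion. -/

set_option autoImplicit false

open Pool.Agent.LK
open scoped ENNReal

namespace Pool.Agent.KCls

open Pool.Agent.KTube Pool.Agent.KRing Pool.Agent.KLog

variable {T : Finset (Sym2 P3) → Prop} {y z : ℝ≥0∞}

theorem MT_zero (n : ℕ) : MT T y z n 0 = 0 := by
  have : IsEmpty {l // HalfT T n 0 l} := ⟨fun l => l.2.1.1 rfl⟩
  rw [MT, tsum_empty]

theorem MT_pos (hT : Cls T) (hy : y ≠ 0) (hz : z ≠ 0) {v : ℤ × ℤ} (hv : v ≠ 0) :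
    MT T y z 0 v ≠ 0 := by
  obtain ⟨l, hl, -⟩ := exists_flatT hT hv
  intro h
  rw [MT, ENNReal.tsum_eq_zero] at h
  have h1 := h ⟨l, hl⟩
  rw [wl] at h1
  exact mul_ne_zero (pow_ne_zero _ hy) (pow_ne_zero _ hz) h1

/-- The half composed of a half and a block, as a map. -/
private def gluMapT (hT : Cls T) (n : ℕ)
    (x : Σ v : ℤ × ℤ, {l // HalfT T n v l} × {π // ValidT T v π}) :
    Σ w : ℤ × ℤ, {l // HalfT T (n + 1) w l} :=
  ⟨x.1 + dsp x.2.2.1, ⟨glu x.1 x.2.1.1 x.2.2.1, glu_half hT x.2.1.2 x.2.2.2⟩⟩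

private theorem gluMapT_bijective (hT : Cls T) (n : ℕ) :
    Function.Bijective (gluMapT hT n) := by
  constructor
  · rintro ⟨v, ⟨l, hl⟩, ⟨π, hπ⟩⟩ ⟨v', ⟨l', hl'⟩, ⟨π', hπ'⟩⟩ h
    have h1 : glu v l π = glu v' l' π' :=
      congrArg (fun x : Σ w : ℤ × ℤ, {l // HalfT T (n + 1) w l} => x.2.1) h
    obtain ⟨rfl, rfl, rfl⟩ := glu_inj hl hπ hl' hπ' h1
    rfl
  · rintro ⟨w, ⟨l', hl'⟩⟩
    obtain ⟨v, l, π, hl, hπ, rfl, rfl⟩ := glu_surj hT hl'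
    exact ⟨⟨v, ⟨l, hl⟩, ⟨π, hπ⟩⟩, rfl⟩

/-- **The recursion.** -/
theorem MT_step (hT : Cls T) (n : ℕ) (f : ℤ × ℤ → ℝ≥0∞) : ∑' v, MT T y z (n + 1) v * f v =
    ∑' v, MT T y z n v * ∑' π : {π // ValidT T v π}, wt y z π.1 * f (v + dsp π.1) := by
  have hL : ∑' v, MT T y z (n + 1) v * f v =
      ∑' x : Σ w : ℤ × ℤ, {l // HalfT T (n + 1) w l}, wl y z x.2.1 * f x.1 := by
    rw [ENNReal.tsum_sigma' (fun x : Σ w : ℤ × ℤ, {l // HalfT T (n + 1) w l} =>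
      wl y z x.2.1 * f x.1)]
    refine tsum_congr fun v => ?_
    rw [MT, ← ENNReal.tsum_mul_right]
  have hR : ∑' v, MT T y z n v * ∑' π : {π // ValidT T v π}, wt y z π.1 * f (v + dsp π.1) =
      ∑' x : Σ v : ℤ × ℤ, {l // HalfT T n v l} × {π // ValidT T v π},
        wl y z (gluMapT hT n x).2.1 * f (gluMapT hT n x).1 := by
    rw [ENNReal.tsum_sigma' (fun x : Σ v : ℤ × ℤ, {l // HalfT T n v l} × {π // ValidT T v π} =>
      wl y z (gluMapT hT n x).2.1 * f (gluMapT hT n x).1)]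
    refine tsum_congr fun v => ?_
    rw [ENNReal.tsum_prod', MT, ← ENNReal.tsum_mul_right]
    refine tsum_congr fun l => ?_
    rw [← ENNReal.tsum_mul_left]
    refine tsum_congr fun π => ?_
    show _ = wl y z (glu v l.1 π.1) * f (v + dsp π.1)
    rw [wl_glu l.2 π.2]
    ring
  rw [hL, hR]
  exact ((Equiv.ofBijective _ (gluMapT_bijective hT n)).tsum_eq
    (fun x : Σ w : ℤ × ℤ, {l // HalfT T (n + 1) w l} => wl y z x.2.1 * f x.1)).symm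

end Pool.Agent.KCls
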