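import Pool.Agent.KCls.Crit
import Pool.Agent.KCls.Far
import Pool.Agent.KCls.Step
import Pool.Agent.KLog.SeqB

/-! KC13: the kernel of the blocks of class `T` satisfies the hypotheses. -/

set_option autoImplicit false

open Pool.Agent.LK
open scoped ENNReal

namespace Pool.Agent.KCls

open Pool.Agent.KTube Pool.Agent.KRing Pool.Agent.KLog

variable {T : Finset (Sym2 P3) → Prop} {y z : ℝ}

private theorem exists_geo {p : PP} (hp : FreeT T p ∨ ∃ v, ValidT T v p) : ∃ v, Geo v p := by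
  rcases hp with ⟨v, -, hv⟩ | ⟨v, hv⟩
  · exact ⟨v, hv.1⟩
  · exact ⟨v, hv.1⟩

private theorem rest_T (hy : 0 < y) (hz : 0 < z) (hz1 : z ≤ 1 / 10 ^ 4) (hq : y * z ^ 2 ≤ 1) :
    ∑' p : {p // ¬ Bas p ∧ (FreeT T p ∨ ∃ v, ValidT T v p)},
      wt (ENNReal.ofReal y) (ENNReal.ofReal z) p.1 * 4 ^ nh p.1 ≤ ENNReal.ofReal (z / 4) := by
  refine le_trans ?_ (rest_geo hy hz hz1 hq)
  let φ : {p // ¬ Bas p ∧ (FreeT T p ∨ ∃ v, ValidT T v p)} → {p // ¬ Bas p ∧ ∃ v, Geo v p} :=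
    fun p => ⟨p.1, p.2.1, exists_geo p.2.2⟩
  have hφ : Function.Injective φ := fun a b h => Subtype.ext (congrArg (fun q => q.1) h)
  exact ENNReal.tsum_comp_le_tsum_of_injective hφ
    (fun p : {p // ¬ Bas p ∧ ∃ v, Geo v p} =>
      wt (ENNReal.ofReal y) (ENNReal.ofReal z) p.1 * 4 ^ nh p.1)

theorem ker_ok (hT : Cls T) (hy : 0 < y) (hz : 0 < z) (hz1 : z ≤ 1 / 10 ^ 4) (hq : y * z ^ 2 ≤ 1)
    (hone : ∑' π : {π // FreeT T π}, wt (ENNReal.ofReal y) (ENNReal.ofReal z) π.1 = 1) :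
    (kerT T y z).Ok where
  z_pos := hz
  z_le := hz1
  q_pos := mul_pos hy (pow_pos hz 2)
  u_le p hp := by
    obtain ⟨v, hv⟩ := exists_geo hp
    exact nrm_dsp_le hv.stA hv.stB
  far _ _ h := valid_far hT h
  bas_V _ hv f := basV hT hy hz hv f
  bas_F f := basF hT hy hz f
  bas_l _ h := h.2
  rest := rest_T hy hz hz1 hq
  one := hone
  rot := by
    obtain ⟨σ, hσ⟩ := free_rot hT
    exact ⟨σ, fun p => ⟨(hσ p).1 _ _, (hσ p).2.1, (hσ p).2.2⟩⟩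

theorem cap_sum (hy : 0 < y) (hz : 0 < z) (hz1 : z ≤ 1 / 10 ^ 4) (hq : y * z ^ 2 ≤ 1) :
    ∑' v, MT T (ENNReal.ofReal y) (ENNReal.ofReal z) 0 v * 4 ^ nrm v ≠ ⊤ := by
  refine ne_top_of_le_ne_top (cap_geo hy hz hz1 hq) (ENNReal.tsum_le_tsum fun v => ?_)
  refine mul_le_mul' ?_ le_rfl
  let φ : {l // HalfT T 0 v l} → {l // Flat v l} :=
    fun l => ⟨l.1, l.2.1.1, l.2.1.2.1, l.2.2⟩
  have hφ : Function.Injective φ := fun a b h => Subtype.ext (congrArg (fun q => q.1) h)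
  exact ENNReal.tsum_comp_le_tsum_of_injective hφ
    (fun l : {l // Flat v l} => wl (ENNReal.ofReal y) (ENNReal.ofReal z) l.1)

theorem seq_MT (hT : Cls T) (hy : 0 < y) (hz : 0 < z) (hz1 : z ≤ 1 / 10 ^ 4)
    (hq : y * z ^ 2 ≤ 1) :
    Seq (kerT T y z) (MT T (ENNReal.ofReal y) (ENNReal.ofReal z)) where
  zero n := MT_zero n
  step n f := MT_step hT n f
  fin := cap_sum hy hz hz1 hq
  pos _ hv := MT_pos hT (ENNReal.ofReal_pos.2 hy).ne' (ENNReal.ofReal_pos.2 hz).ne' hv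

end Pool.Agent.KCls
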