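import Pool.Agent.KCls.Kernel
import Pool.Agent.KAsym.RecB

/-! KC15: the recursion of the halves with complex weights. -/

set_option autoImplicit false

open Pool.Agent.LK
open scoped ENNReal

namespace Pool.Agent.KCls

open Pool.Agent.KTube Pool.Agent.KRing Pool.Agent.KLog Pool.Agent.KAsym

variable {T : Finset (Sym2 P3) → Prop} {y z : ℝ} {s : ℂ} {v : ℤ × ℤ} {n : ℕ} {l : List P3}
  {π : PP}

/-- The generating function of the halves. -/
noncomputable def mmT (T : Finset (Sym2 P3) → Prop) (y z : ℝ) (s : ℂ) (v : ℤ × ℤ) : ℂ :=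
  ∑' l : {l // LT T 0 0 v l}, wlR y z l.1 * Complex.exp (-l.1.length * s)

/-- The halves are fibred by the number of sections with two edges. -/
private theorem half_fiber (v : ℤ × ℤ) (f : List P3 → ℝ≥0∞) (g : ℕ → ℝ≥0∞) :
    ∑' l : {l // LT T 0 0 v l}, f l.1 * g (nsec l.1) =
      ∑' n, (∑' l : {l // HalfT T n v l}, f l.1) * g n := by
  let e : (Σ n : ℕ, {l // HalfT T n v l}) ≃ {l // LT T 0 0 v l} :=
    { toFun := fun x => ⟨x.2.1, x.2.2.1⟩
      invFun := fun l => ⟨nsec l.1, ⟨l.1, l.2, rfl⟩⟩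
      left_inv := by
        rintro ⟨n, ⟨l, hl, rfl⟩⟩
        rfl
      right_inv := fun l => rfl }
  rw [← e.tsum_eq, ENNReal.tsum_sigma' fun x => f (e x).1 * g (nsec (e x).1)]
  refine tsum_congr fun n => ?_
  rw [← ENNReal.tsum_mul_right]
  refine tsum_congr fun l => ?_
  change f l.1 * g (nsec l.1) = f l.1 * g n
  rw [l.2.2]

/-- The sum over all halves is the sum of the partition functions. -/
theorem tsum_half (v : ℤ × ℤ) : ∑' l : {l // LT T 0 0 v l},
    wl (ENNReal.ofReal y) (ENNReal.ofReal z) l.1 =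
      ∑' n, MT T (ENNReal.ofReal y) (ENNReal.ofReal z) n v := by
  have h := half_fiber (T := T) v (wl (ENNReal.ofReal y) (ENNReal.ofReal z)) fun _ => 1
  simp only [mul_one] at h
  exact h

private theorem wl_ofReal (hy : 0 < y) (hz : 0 < z) (l : List P3) :
    wl (ENNReal.ofReal y) (ENNReal.ofReal z) l = ENNReal.ofReal (wlR y z l) := by
  unfold wl wlR
  rw [ENNReal.ofReal_mul (by positivity), ENNReal.ofReal_pow hy.le, ENNReal.ofReal_pow hz.le]

private theorem wlR_nn (hy : 0 < y) (hz : 0 < z) (l : List P3) : 0 ≤ wlR y z l := by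
  unfold wlR
  positivity

/-- A sum of nonnegative numbers. -/
private theorem summable_of_top {α : Type*} {f : α → ℝ} (hf : ∀ a, 0 ≤ f a)
    (h : ∑' a, ENNReal.ofReal (f a) ≠ ⊤) : Summable f ∧
      ∑' a, f a = (∑' a, ENNReal.ofReal (f a)).toReal := by
  have h1 := ENNReal.summable_toReal h
  have h2 : (fun a => (ENNReal.ofReal (f a)).toReal) = f :=
    funext fun a => ENNReal.toReal_ofReal (hf a)
  rw [h2] at h1
  refine ⟨h1, ?_⟩
  rw [ENNReal.tsum_toReal_eq fun a => ENNReal.ofReal_ne_top, h2]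

theorem half_summable (hT : Cls T) (hy : 0 < y) (hz : 0 < z) (hz1 : z ≤ 1 / 10 ^ 12)
    (hq : y * z ^ 2 ≤ 1)
    (hone : ∑' π : {π // FreeT T π}, wt (ENNReal.ofReal y) (ENNReal.ofReal z) π.1 = 1) :
    ∃ C : ℝ, ∀ v, (Summable fun l : {l // LT T 0 0 v l} => wlR y z l.1) ∧
      ∑' l : {l // LT T 0 0 v l}, wlR y z l.1 ≤ C * om v := by
  have hz2 : z ≤ 1 / 10 ^ 4 := hz1.trans (by norm_num)
  have hS := seq_green (ker_ok hT hy hz hz2 hq hone) (seq_MT hT hy hz hz2 hq)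
  obtain ⟨S, hSdef⟩ : ∃ S, S = ∑' n, ∑' v, MT T (ENNReal.ofReal y) (ENNReal.ofReal z) n v *
    ENNReal.ofReal ((1 / 4) ^ nrm v) := ⟨_, rfl⟩
  rw [← hSdef] at hS
  refine ⟨S.toReal, fun v => ?_⟩
  have hom : 0 < om v := by
    unfold om
    positivity
  have h1 : ∑' n, MT T (ENNReal.ofReal y) (ENNReal.ofReal z) n v ≤ S * ENNReal.ofReal (om v) := by
    have h2 : ∀ n, MT T (ENNReal.ofReal y) (ENNReal.ofReal z) n v =
        MT T (ENNReal.ofReal y) (ENNReal.ofReal z) n v * ENNReal.ofReal ((1 / 4) ^ nrm v) *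
          ENNReal.ofReal (om v) := by
      intro n
      rw [mul_assoc, ← ENNReal.ofReal_mul (by positivity)]
      have h3 : (1 / 4 : ℝ) ^ nrm v * om v = 1 := by
        unfold om
        rw [← mul_pow]
        norm_num
      rw [h3, ENNReal.ofReal_one, mul_one]
    rw [tsum_congr h2, ENNReal.tsum_mul_right, hSdef]
    exact mul_le_mul_left (ENNReal.tsum_le_tsum fun n => ENNReal.le_tsum v) _
  have h2 : ∑' l : {l // LT T 0 0 v l}, ENNReal.ofReal (wlR y z l.1) ≤ S * ENNReal.ofReal (om v) := by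
    refine le_trans (le_of_eq ?_) h1
    rw [← tsum_half v]
    exact tsum_congr fun l => (wl_ofReal hy hz l.1).symm
  have htop : S * ENNReal.ofReal (om v) ≠ ⊤ := ENNReal.mul_ne_top hS ENNReal.ofReal_ne_top
  obtain ⟨h3, h4⟩ := summable_of_top (fun l : {l // LT T 0 0 v l} => wlR_nn hy hz l.1)
    (ne_top_of_le_ne_top htop h2)
  refine ⟨h3, ?_⟩
  rw [h4]
  refine (ENNReal.toReal_mono htop h2).trans (le_of_eq ?_)
  rw [ENNReal.toReal_mul, ENNReal.toReal_ofReal hom.le]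

/-- For `0 < re s` everything is summable. -/
theorem all_summable (hT : Cls T) (hy : 0 < y) (hz : 0 < z) (hz1 : z ≤ 1 / 10 ^ 12)
    (hq : y * z ^ 2 ≤ 1)
    (hone : ∑' π : {π // FreeT T π}, wt (ENNReal.ofReal y) (ENNReal.ofReal z) π.1 = 1)
    {t : ℝ} (ht : 0 < t) :
    Summable fun p : Σ v : ℤ × ℤ, {l // LT T 0 0 v l} =>
      wlR y z p.2.1 * Real.exp (-p.2.1.length * t) := by
  have hz2 : z ≤ 1 / 10 ^ 4 := hz1.trans (by norm_num)
  obtain ⟨C, hC, hC'⟩ := seq_mass (ker_ok hT hy hz hz2 hq hone) (seq_MT hT hy hz hz2 hq)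
  obtain ⟨g, hg⟩ : ∃ g : ℕ → ℝ≥0∞, ∀ n, g n = ENNReal.ofReal (Real.exp (-(2 * t))) ^ n :=
    ⟨_, fun _ => rfl⟩
  refine (summable_of_top (f := fun p : Σ v : ℤ × ℤ, {l // LT T 0 0 v l} =>
    wlR y z p.2.1 * Real.exp (-p.2.1.length * t))
    (fun p => mul_nonneg (wlR_nn hy hz p.2.1) (Real.exp_pos _).le) ?_).1
  have h1 : ∑' p : Σ v : ℤ × ℤ, {l // LT T 0 0 v l},
      ENNReal.ofReal (wlR y z p.2.1 * Real.exp (-p.2.1.length * t)) ≤
      ∑' p : Σ v : ℤ × ℤ, {l // LT T 0 0 v l},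
        wl (ENNReal.ofReal y) (ENNReal.ofReal z) p.2.1 * g (nsec p.2.1) := by
    refine ENNReal.tsum_le_tsum fun p => ?_
    rw [wl_ofReal hy hz, hg, ← ENNReal.ofReal_pow (Real.exp_pos _).le,
      ← ENNReal.ofReal_mul (wlR_nn hy hz _), ← Real.exp_nat_mul]
    refine ENNReal.ofReal_le_ofReal (mul_le_mul_of_nonneg_left ?_ (wlR_nn hy hz _))
    refine Real.exp_le_exp.2 ?_
    have h2 : ((2 * nsec p.2.1 : ℕ) : ℝ) ≤ (p.2.1.length : ℝ) := by
      exact_mod_cast two_nsec_le p.2.2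
    push_cast at h2
    nlinarith
  refine ne_top_of_le_ne_top ?_ h1
  rw [ENNReal.tsum_sigma' fun p : Σ v : ℤ × ℤ, {l // LT T 0 0 v l} =>
    wl (ENNReal.ofReal y) (ENNReal.ofReal z) p.2.1 * g (nsec p.2.1)]
  have h2 : ∀ v : ℤ × ℤ, ∑' l : {l // LT T 0 0 v l},
      wl (ENNReal.ofReal y) (ENNReal.ofReal z) l.1 * g (nsec l.1) =
      ∑' n, MT T (ENNReal.ofReal y) (ENNReal.ofReal z) n v * g n := fun v => half_fiber v _ g
  rw [tsum_congr h2, ENNReal.tsum_comm]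
  have h3 : ∑' n, ∑' v, MT T (ENNReal.ofReal y) (ENNReal.ofReal z) n v * g n ≤
      ∑' n, C * g n := by
    refine ENNReal.tsum_le_tsum fun n => ?_
    rw [ENNReal.tsum_mul_right]
    exact mul_le_mul_left (hC' n) _
  refine ne_top_of_le_ne_top ?_ h3
  rw [ENNReal.tsum_mul_left, tsum_congr hg, ENNReal.tsum_geometric]
  refine ENNReal.mul_ne_top hC (ENNReal.inv_ne_top.2 ?_)
  rw [Ne, tsub_eq_zero_iff_le, not_le, ENNReal.ofReal_lt_one, Real.exp_lt_one_iff]
  linarith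

private theorem length_glu_ln (hl : HalfT T n v l) (hπ : ValidT T v π) :
    (glu v l π).length = l.length + ln π := length_glu hl hπ

private theorem wlR_glu (hl : HalfT T n v l) (hπ : ValidT T v π) :
    wlR y z (glu v l π) = wlR y z l * wtR y z π := by
  have h1 := length_glu_ln hl hπ
  have h2 : lspan (glu v l π) = lspan l + (hgt π).toNat := by
    unfold glu
    rw [lspan_map_add, lspan_glu hπ.1 hl.1.2.1]
  unfold wlR wtR
  rw [h1, h2, pow_add, pow_add]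
  ring

/-- The halves, cut below the highest section with two edges. -/
private def cutMap (hT : Cls T) : (Σ v : ℤ × ℤ, {l // HalfT T 0 v l}) ⊕
    (Σ p : {p : (ℤ × ℤ) × PP // ValidT T p.1 p.2}, {l // LT T 0 0 p.1.1 l}) →
    Σ v : ℤ × ℤ, {l // LT T 0 0 v l}
  | .inl x => ⟨x.1, ⟨x.2.1, x.2.2.1⟩⟩
  | .inr x => ⟨x.1.1.1 + dsp x.1.1.2, ⟨glu x.1.1.1 x.2.1 x.1.1.2,
      (glu_half hT (n := nsec x.2.1) ⟨x.2.2, rfl⟩ x.1.2).1⟩⟩

private theorem cutMap_bijective (hT : Cls T) : Function.Bijective (cutMap hT) := by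
  have hsec : ∀ {v : ℤ × ℤ} {l : List P3} {π : PP}, LT T 0 0 v l → ValidT T v π →
      nsec (glu v l π) = nsec l + 1 := fun hl hπ => (glu_half hT ⟨hl, rfl⟩ hπ).2
  constructor
  · rintro (⟨v, ⟨l, hl⟩⟩ | ⟨⟨⟨v, π⟩, hπ⟩, ⟨l, hl⟩⟩) (⟨v', ⟨l', hl'⟩⟩ | ⟨⟨⟨v', π'⟩, hπ'⟩, ⟨l', hl'⟩⟩) h
    · have h1 : v = v' := congrArg (fun x : Σ v : ℤ × ℤ, {l // LT T 0 0 v l} => x.1) h
      have h2 : l = l' := congrArg (fun x : Σ v : ℤ × ℤ, {l // LT T 0 0 v l} => x.2.1) h
      subst h1 h2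
      rfl
    · have h2 : l = glu v' l' π' :=
        congrArg (fun x : Σ v : ℤ × ℤ, {l // LT T 0 0 v l} => x.2.1) h
      have h3 := hsec hl' hπ'
      rw [← h2, hl.2] at h3
      omega
    · have h2 : glu v l π = l' :=
        congrArg (fun x : Σ v : ℤ × ℤ, {l // LT T 0 0 v l} => x.2.1) h
      have h3 := hsec hl hπ
      rw [h2, hl'.2] at h3
      omega
    · have h2 : glu v l π = glu v' l' π' :=
        congrArg (fun x : Σ v : ℤ × ℤ, {l // LT T 0 0 v l} => x.2.1) h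
      obtain ⟨rfl, rfl, rfl⟩ := glu_inj (n := nsec l) ⟨hl, rfl⟩ hπ (n' := nsec l') ⟨hl', rfl⟩ hπ' h2
      rfl
  · rintro ⟨w, ⟨l', hl'⟩⟩
    rcases hn : nsec l' with _ | n
    · exact ⟨.inl ⟨w, ⟨l', hl', hn⟩⟩, rfl⟩
    · obtain ⟨v, l, π, hl, hπ, rfl, rfl⟩ := glu_surj hT (n := n) ⟨hl', hn⟩
      exact ⟨.inr ⟨⟨(v, π), hπ⟩, ⟨l, hl.1⟩⟩, rfl⟩

/-- **The recursion.** -/
theorem mm_rec (hT : Cls T) (hy : 0 < y) (hz : 0 < z) (hz1 : z ≤ 1 / 10 ^ 12)
    (hq : y * z ^ 2 ≤ 1)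
    (hone : ∑' π : {π // FreeT T π}, wt (ENNReal.ofReal y) (ENNReal.ofReal z) π.1 = 1)
    (hs : 0 < s.re) (x : ℤ × ℤ) :
    mmT T y z s x =
      (∑' p : Σ v : ℤ × ℤ, {l // HalfT T 0 v l}, if p.1 = x then
        wlR y z p.2.1 * Complex.exp (-p.2.1.length * s) else 0) +
      ∑' p : {p : (ℤ × ℤ) × PP // ValidT T p.1 p.2}, if p.1.1 + dsp p.1.2 = x then
        wtR y z p.1.2 * Complex.exp (-ln p.1.2 * s) * mmT T y z s p.1.1 else 0 := by
  classical
  have hnorm : ∀ l : List P3, ‖(wlR y z l * Complex.exp (-l.length * s) : ℂ)‖ =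
      wlR y z l * Real.exp (-l.length * s.re) := by
    intro l
    rw [norm_mul, Complex.norm_exp, Complex.norm_real, Real.norm_of_nonneg (wlR_nn hy hz l)]
    congr 2
    simp
  let F : (Σ v : ℤ × ℤ, {l // LT T 0 0 v l}) → ℂ := fun p =>
    if p.1 = x then wlR y z p.2.1 * Complex.exp (-p.2.1.length * s) else 0
  have hF : Summable F := by
    refine Summable.of_norm_bounded (all_summable hT hy hz hz1 hq hone hs) fun p => ?_
    change ‖if p.1 = x then (wlR y z p.2.1 * Complex.exp (-p.2.1.length * s) : ℂ) else 0‖ ≤ _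
    split_ifs
    · exact (hnorm _).le
    · rw [norm_zero]
      exact mul_nonneg (wlR_nn hy hz _) (Real.exp_pos _).le
  have h0 : mmT T y z s x = ∑' p, F p := by
    rw [hF.tsum_sigma, tsum_eq_single x]
    · change _ = ∑' l : {l // LT T 0 0 x l}, if x = x then
        (wlR y z l.1 * Complex.exp (-l.1.length * s) : ℂ) else 0
      simp only [if_true]
      rfl
    · intro v hv
      change ∑' l : {l // LT T 0 0 v l}, (if v = x then
        (wlR y z l.1 * Complex.exp (-l.1.length * s) : ℂ) else 0) = 0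
      simp only [if_neg hv, tsum_zero]
  let e := Equiv.ofBijective (cutMap hT) (cutMap_bijective hT)
  have hFe : Summable fun c => F (e c) := hF.comp_injective e.injective
  have hFr : Summable fun c => F (e (Sum.inr c)) := hFe.comp_injective Sum.inr_injective
  rw [h0, ← e.tsum_eq F, Summable.tsum_sum (f := fun c => F (e c))
    (hFe.comp_injective Sum.inl_injective) hFr]
  congr 1
  rw [hFr.tsum_sigma]
  refine tsum_congr fun p => ?_
  change ∑' l : {l // LT T 0 0 p.1.1 l}, (if p.1.1 + dsp p.1.2 = x then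
    (wlR y z (glu p.1.1 l.1 p.1.2) * Complex.exp (-(glu p.1.1 l.1 p.1.2).length * s) : ℂ)
      else 0) = _
  by_cases h : p.1.1 + dsp p.1.2 = x
  · simp only [if_pos h]
    unfold mmT
    rw [← tsum_mul_left]
    refine tsum_congr fun l => ?_
    have h1 : HalfT T (nsec l.1) p.1.1 l.1 := ⟨l.2, rfl⟩
    rw [wlR_glu h1 p.2, length_glu_ln h1 p.2]
    push_cast
    rw [show (-((l.1.length : ℂ) + ln p.1.2) * s) = -(ln p.1.2 : ℂ) * s + -(l.1.length : ℂ) * s by
      ring, Complex.exp_add]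
    ring
  · simp only [if_neg h, tsum_zero]

end Pool.Agent.KCls
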