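import Pool.Agent.KCls.Caps
import Pool.Agent.KLog.Rot
import Pool.Agent.KLog.XDir

/-! KC7: rotation by a quarter turn about the vertical axis; cutting in the direction of the first
coordinate. -/

set_option autoImplicit false

open Pool.Agent.LK

namespace Pool.Agent.KCls

open Pool.Agent.KTube Pool.Agent.KRing Pool.Agent.KLog
open Pool.Agent.LatticeTube (pedges)

variable {T : Finset (Sym2 P3) → Prop} {v : ℤ × ℤ} {π : PP}

/-! ### The rotation of lattice points -/

/-- The inverse rotation of a vector. -/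
private def ri3 (u : P3) : P3 := (u.2.1, -u.1, u.2.2)

/-- The inverse rotation of a column. -/
private def ri (c : ℤ × ℤ) : ℤ × ℤ := (c.2, -c.1)

private theorem ri3_rt3 (u : P3) : ri3 (rt3 u) = u := by
  refine Prod.ext rfl (Prod.ext ?_ rfl)
  simp [ri3, rt3]

private theorem rt3_ri3 (u : P3) : rt3 (ri3 u) = u := by
  refine Prod.ext ?_ (Prod.ext rfl rfl)
  simp [ri3, rt3]

private theorem ri_rt (c : ℤ × ℤ) : ri (rt c) = c := by
  refine Prod.ext rfl ?_
  simp [ri, rt]

private theorem rt_ri (c : ℤ × ℤ) : rt (ri c) = c := by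
  refine Prod.ext ?_ rfl
  simp [ri, rt]

private theorem rt3_inj : Function.Injective rt3 := fun u w h => by
  have := congrArg ri3 h
  rwa [ri3_rt3, ri3_rt3] at this

private theorem rt_inj : Function.Injective rt := fun u w h => by
  have := congrArg ri h
  rwa [ri_rt, ri_rt] at this

private theorem frame_rt : Frame (0, 1, 0) (-1, 0, 0) (0, 0, 1) :=
  ⟨by simp [dot3], by simp [dot3], by simp [dot3], by simp [dot3], by simp [dot3], by simp [dot3]⟩

private theorem rt3_eq : rt3 = latIso (0, 0, 0) (0, 1, 0) (-1, 0, 0) (0, 0, 1) := by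
  funext u
  refine Prod.ext ?_ (Prod.ext ?_ ?_) <;> simp [latIso, rt3]

private theorem rt3_add (u w : P3) : rt3 (u + w) = rt3 u + rt3 w := by
  refine Prod.ext ?_ (Prod.ext ?_ ?_)
  · simp only [rt3, Prod.fst_add, Prod.snd_add]; ring
  · simp only [rt3, Prod.fst_add, Prod.snd_add]
  · simp only [rt3, Prod.snd_add]

private theorem rt3_zero : rt3 0 = 0 := by
  refine Prod.ext ?_ (Prod.ext ?_ ?_) <;> simp [rt3]

private theorem sum_rt3 (s : List P3) : (s.map rt3).sum = rt3 s.sum := by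
  induction s with
  | nil => simp [rt3_zero]
  | cons d s ih => rw [List.map_cons, List.sum_cons, List.sum_cons, ih, rt3_add]

private theorem wk_rt3 (p : P3) (s : List P3) : (wk p s).map rt3 = wk (rt3 p) (s.map rt3) := by
  induction s generalizing p with
  | nil => rfl
  | cons d s ih =>
    rw [wk_cons, List.map_cons, List.map_cons, wk_cons, ih, rt3_add]

private theorem hz_rt3 (u : P3) : hz (rt3 u) = rt (hz u) := rfl

private theorem rt_sub (a b : ℤ × ℤ) : rt (a - b) = rt a - rt b := by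
  refine Prod.ext ?_ rfl
  simp only [rt, Prod.fst_sub, Prod.snd_sub]; ring

private theorem rt_add (a b : ℤ × ℤ) : rt (a + b) = rt a + rt b := by
  refine Prod.ext ?_ rfl
  simp only [rt, Prod.fst_add, Prod.snd_add]; ring

private theorem rt_zero : rt 0 = 0 := by
  refine Prod.ext ?_ rfl
  simp [rt]

private theorem rt3_col (c : ℤ × ℤ) (j : ℤ) : rt3 (c.1, c.2, j) = ((rt c).1, (rt c).2, j) := rfl

private theorem ri3_col (c : ℤ × ℤ) (j : ℤ) : ri3 (c.1, c.2, j) = ((ri c).1, (ri c).2, j) := rfl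

private theorem adj_rt3 {u w : P3} (h : Adj u w) : Adj (rt3 u) (rt3 w) := by
  rw [rt3_eq]
  exact (latIso_adj frame_rt _ u w).2 h

/-! ### Polygons -/

private theorem mem_rot {E : Finset (Sym2 P3)} {u w : P3} :
    s(u, w) ∈ mapE rt3 E ↔ s(ri3 u, ri3 w) ∈ E := by
  have := mem_mapE rt3_inj (E := E) (u := ri3 u) (v := ri3 w)
  rwa [rt3_ri3, rt3_ri3] at this

private theorem isPolygon_rot {E : Finset (Sym2 P3)} (hE : IsPolygon E) :
    IsPolygon (mapE rt3 E) := by
  rw [rt3_eq]
  exact isPolygon_latIso frame_rt _ hE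

private theorem sameType_rot (E : Finset (Sym2 P3)) : SameType E (mapE rt3 E) := by
  rw [rt3_eq]
  obtain ⟨G, -, hG, hseg⟩ := exists_latHomeo frame_rt (0, 0, 0)
  exact ⟨G, (body_mapE G _ hG hseg E).symm⟩

private theorem ring_rot (c : List P3) : ring (c.map rt3) = mapE rt3 (ring c) := by
  unfold ring
  rw [← pedges_map, List.map_append, List.getLast?_map]
  congr 2
  cases c.getLast? <;> rfl

private theorem cross_rot {E : Finset (Sym2 P3)} (j : ℤ) :
    cross (mapE rt3 E) j = rt '' cross E j := by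
  ext c
  rw [mem_cross, mem_rot, Set.mem_image]
  constructor
  · intro h
    exact ⟨ri c, h, rt_ri c⟩
  · rintro ⟨d, hd, rfl⟩
    have h1 := mem_cross.1 hd
    rw [← rt3_col, ← rt3_col, ri3_rt3, ri3_rt3]
    exact h1

private theorem lowClose_rot {E A : Finset (Sym2 P3)} {k : ℤ} (h : LowClose E k A) :
    LowClose (mapE rt3 E) k (mapE rt3 A) := by
  refine ⟨isPolygon_rot h.1, ?_, ?_⟩
  · intro u w hu
    rw [mem_rot, mem_rot]
    exact h.2.1 _ _ hu
  · intro j hj h1
    rw [cross_rot] at h1 ⊢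
    rw [Set.ncard_image_of_injective _ rt_inj]
    exact h.2.2 j hj (Set.image_nonempty.1 h1)

private theorem lowU_rot {E : Finset (Sym2 P3)} {k : ℤ} (h : LowU E k) :
    LowU (mapE rt3 E) k := by
  obtain ⟨A, hA, hU⟩ := h
  exact ⟨_, lowClose_rot hA, (sameType_rot A).symm.unknotted hU⟩

private theorem lowT_rot (hT : Cls T) {E : Finset (Sym2 P3)} {k : ℤ} (h : LowT T E k) :
    LowT T (mapE rt3 E) k := by
  obtain ⟨A, hA, hU⟩ := h
  exact ⟨_, lowClose_rot hA, hT.inv _ _ (sameType_rot A) hU⟩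

/-! ### Halves and blocks -/

private theorem chain_rot {l : List P3} (h : l.IsChain Adj) : (l.map rt3).IsChain Adj := by
  rw [List.isChain_map]
  exact h.imp fun u w huw => adj_rt3 huw

private theorem head_rot {l : List P3} {c : ℤ × ℤ} {j : ℤ} (h : l.head? = some (c.1, c.2, j)) :
    (l.map rt3).head? = some ((rt c).1, (rt c).2, j) := by
  rw [List.head?_map, h]
  rfl

private theorem last_rot {l : List P3} {c : ℤ × ℤ} {j : ℤ}
    (h : l.getLast? = some (c.1, c.2, j)) :
    (l.map rt3).getLast? = some ((rt c).1, (rt c).2, j) := by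
  rw [List.getLast?_map, h]
  rfl

private theorem upper_rot {k : ℤ} {a b : ℤ × ℤ} {r : List P3} (h : Upper k a b r) :
    Upper k (rt a) (rt b) (r.map rt3) := by
  refine ⟨h.nodup.map rt3_inj, chain_rot h.chain, head_rot h.head, last_rot h.last, ?_⟩
  intro u hu
  obtain ⟨w, hw, rfl⟩ := List.mem_map.1 hu
  exact h.lev w hw

private theorem lower_rot {k : ℤ} {a b : ℤ × ℤ} {l : List P3} (h : Lower k a b l) :
    Lower k (rt a) (rt b) (l.map rt3) := by
  refine ⟨h.nodup.map rt3_inj, chain_rot h.chain, head_rot h.head, last_rot h.last, ?_⟩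
  intro u hu
  obtain ⟨w, hw, rfl⟩ := List.mem_map.1 hu
  exact h.lev w hw


private theorem lu_rot {k : ℤ} {a b : ℤ × ℤ} {l : List P3} (h : LU k a b l) :
    LU k (rt a) (rt b) (l.map rt3) := by
  obtain ⟨hab, hl, r, hr, hU⟩ := h
  refine ⟨fun h1 => hab (rt_inj h1), lower_rot hl, r.map rt3, upper_rot hr, ?_⟩
  rw [← List.map_append, ring_rot]
  exact lowU_rot hU

private theorem lt_rot (hT : Cls T) {k : ℤ} {a b : ℤ × ℤ} {l : List P3} (h : LT T k a b l) :
    LT T k (rt a) (rt b) (l.map rt3) := by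
  obtain ⟨hab, hl, r, hr, hU⟩ := h
  refine ⟨fun h1 => hab (rt_inj h1), lower_rot hl, r.map rt3, upper_rot hr, ?_⟩
  rw [← List.map_append, ring_rot]
  exact lowT_rot hT hU

private theorem sdA_rot (π : PP) : sdA (rotP π) = (sdA π).map rt3 := by
  unfold sdA
  rw [wk_rt3]
  rfl

private theorem sdB_rot (v : ℤ × ℤ) (π : PP) : sdB (rt v) (rotP π) = (sdB v π).map rt3 := by
  unfold sdB
  rw [List.map_reverse, wk_rt3]
  rfl

private theorem hgt_rot (π : PP) : hgt (rotP π) = hgt π := by
  unfold KLog.hgt rotP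
  rw [sum_rt3]
  rfl

private theorem hz_sum (s : List P3) : hz (s.map rt3).sum = rt (hz s.sum) := by
  rw [sum_rt3, hz_rt3]

theorem valid_rotP (hT : Cls T) (h : ValidT T v π) : ValidT T (rt v) (rotP π) := by
  refine ⟨geo_rotP h.1, ?_⟩
  obtain ⟨l, hl, hU⟩ := h.2
  refine ⟨l.map rt3, ?_, ?_⟩
  · have h1 := lu_rot hl
    rwa [rt_zero] at h1
  · have h1 := lt_rot hT hU
    rw [rt_add, ← hz_sum, ← hz_sum, List.map_append, List.map_append, ← sdA_rot, ← sdB_rot,
      ← hgt_rot] at h1
    exact h1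

private theorem sw_eq : KLog.sw = latIso 0 (0, 0, 1) (0, 1, 0) (1, 0, 0) := by
  funext u
  obtain ⟨x, y, z⟩ := u
  simp [KLog.sw, latIso]

private theorem sw_frame : Frame (0, 0, 1) (0, 1, 0) (1, 0, 0) := by
  constructor <;> simp [dot3]

private theorem ring_map_sw (c : List P3) : ring (c.map KLog.sw) = mapE KLog.sw (ring c) := by
  unfold ring
  rw [← pedges_map, List.map_append, List.getLast?_map]
  congr 2
  cases c.getLast? <;> rfl

private theorem sameType_sw (E : Finset (Sym2 P3)) : SameType E (mapE KLog.sw E) := by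
  rw [sw_eq]
  obtain ⟨G, -, hG, hseg⟩ := exists_latHomeo sw_frame 0
  exact ⟨G, (body_mapE G _ hG hseg E).symm⟩

/-- **Cutting at a plane `x = k + 1/2`.** -/
theorem t_x (hT : Cls T) {k : ℤ} {a b : ℤ × ℤ} {r l : List P3} (hab : a ≠ b)
    (hr : Upper k a b (r.map KLog.sw)) (hl : Lower k a b (l.map KLog.sw)) :
    T (ring (r ++ l)) ↔ UT T k a b (r.map KLog.sw) ∧ LT T k a b (l.map KLog.sw) := by
  rw [← ring_iff hT hab hr hl, ← List.map_append, ring_map_sw]
  exact ⟨hT.inv _ _ (sameType_sw _), hT.inv _ _ (sameType_sw _).symm⟩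

end Pool.Agent.KCls
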