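import Pool.Agent.KCls.Model
import Pool.Agent.KCls.Basic

/-! KC17: the generating function of the halves solves the model. -/

set_option autoImplicit false

open Pool.Agent.LK
open scoped ENNReal

namespace Pool.Agent.KCls

open Pool.Agent.KTube Pool.Agent.KRing Pool.Agent.KLog Pool.Agent.KAsym

variable {T : Finset (Sym2 P3) → Prop} {y z : ℝ}

private theorem sm_wlR_nn (hy : 0 < y) (hz : 0 < z) (l : List P3) : 0 ≤ wlR y z l := by
  unfold wlR
  positivity

private theorem sm_wtR_nn (hy : 0 < y) (hz : 0 < z) (π : PP) : 0 ≤ wtR y z π := by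
  unfold wtR
  positivity

private theorem sm_norm (hy : 0 < y) (hz : 0 < z) (s : ℂ) (l : List P3) :
    ‖(wlR y z l * Complex.exp (-l.length * s) : ℂ)‖ = wlR y z l * Real.exp (-l.length * s.re) := by
  rw [norm_mul, Complex.norm_exp, Complex.norm_real, Real.norm_of_nonneg (sm_wlR_nn hy hz l)]
  congr 2
  simp

private theorem sm_zero (s : ℂ) : mmT T y z s 0 = 0 := by
  unfold mmT
  have : IsEmpty {l // LT T 0 0 (0 : ℤ × ℤ) l} := ⟨fun l => l.2.1 rfl⟩
  exact tsum_empty

private theorem sm_growth (hT : Cls T) (hy : 0 < y) (hz : 0 < z) (hz1 : z ≤ 1 / 10 ^ 12)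
    (hq : y * z ^ 2 ≤ 1)
    (hone : ∑' π : {π // FreeT T π}, wt (ENNReal.ofReal y) (ENNReal.ofReal z) π.1 = 1) :
    ∃ C : ℝ, 0 ≤ C ∧ ∀ s : ℂ, 0 < s.re → ∀ v, ‖mmT T y z s v‖ ≤ C * om v := by
  obtain ⟨C, hC⟩ := half_summable hT hy hz hz1 hq hone
  refine ⟨max C 0, le_max_right _ _, fun s hs v => ?_⟩
  obtain ⟨h1, h2⟩ := hC v
  have h3 : ∀ l : {l // LT T 0 0 v l},
      ‖(wlR y z l.1 * Complex.exp (-l.1.length * s) : ℂ)‖ ≤ wlR y z l.1 := by
    intro l
    rw [sm_norm hy hz]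
    refine mul_le_of_le_one_right (sm_wlR_nn hy hz _) ?_
    rw [Real.exp_le_one_iff]
    have : (0 : ℝ) ≤ (l.1.length : ℝ) := Nat.cast_nonneg _
    nlinarith
  have h4 : Summable fun l : {l // LT T 0 0 v l} =>
      ‖(wlR y z l.1 * Complex.exp (-l.1.length * s) : ℂ)‖ :=
    Summable.of_nonneg_of_le (fun _ => norm_nonneg _) h3 h1
  unfold mmT
  have h5 : 0 ≤ om v := by
    unfold om
    positivity
  exact (norm_tsum_le_tsum_norm h4).trans ((h4.tsum_le_tsum h3 h1).trans
    (h2.trans (mul_le_mul_of_nonneg_right (le_max_left _ _) h5)))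

private theorem sm_sum (hT : Cls T) (hy : 0 < y) (hz : 0 < z) (hz1 : z ≤ 1 / 10 ^ 12)
    (hq : y * z ^ 2 ≤ 1)
    (hone : ∑' π : {π // FreeT T π}, wt (ENNReal.ofReal y) (ENNReal.ofReal z) π.1 = 1) {s : ℂ}
    (hs : 0 < s.re) : Summable fun v => ‖mmT T y z s v‖ := by
  have h1 := all_summable hT hy hz hz1 hq hone hs
  refine Summable.of_nonneg_of_le (fun _ => norm_nonneg _) (fun v => ?_) h1.sigma
  have h3 : Summable fun l : {l // LT T 0 0 v l} =>
      ‖(wlR y z l.1 * Complex.exp (-l.1.length * s) : ℂ)‖ :=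
    (h1.sigma_factor v).congr fun l => (sm_norm hy hz s l.1).symm
  unfold mmT
  exact (norm_tsum_le_tsum_norm h3).trans (le_of_eq (tsum_congr fun l => sm_norm hy hz s l.1))

private theorem sm_free_summable (hy : 0 < y) (hz : 0 < z)
    (hone : ∑' π : {π // FreeT T π}, wt (ENNReal.ofReal y) (ENNReal.ofReal z) π.1 = 1) :
    Summable fun π : {π // FreeT T π} => wtR y z π.1 := by
  have h : ∑' π : {π // FreeT T π}, wt (ENNReal.ofReal y) (ENNReal.ofReal z) π.1 ≠ ⊤ := by
    rw [hone]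
    exact ENNReal.one_ne_top
  refine (ENNReal.summable_toReal h).congr fun π => ?_
  unfold wt wtR ln
  rw [← ENNReal.ofReal_pow hy.le, ← ENNReal.ofReal_pow hz.le,
    ← ENNReal.ofReal_mul (pow_nonneg hy.le _), ENNReal.toReal_ofReal (by positivity)]

/-- The contribution of a pair. -/
private noncomputable def pc (T : Finset (Sym2 P3) → Prop) (y z : ℝ)
    (s : ℂ) (x : ℤ × ℤ) (p : (ℤ × ℤ) × PP) : ℂ :=
  if p.1 + dsp p.2 = x then wtR y z p.2 * Complex.exp (-ln p.2 * s) * mmT T y z s p.1 else 0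

/-- The contribution of a free pair. -/
private noncomputable def fc (T : Finset (Sym2 P3) → Prop) (y z : ℝ)
    (s : ℂ) (x : ℤ × ℤ) (π : PP) : ℂ :=
  wtR y z π * Complex.exp (-ln π * s) * mmT T y z s (x - dsp π)

/-- The contribution of a defect. -/
private noncomputable def dc (T : Finset (Sym2 P3) → Prop) (y z : ℝ)
    (s : ℂ) (x : ℤ × ℤ) (j : JT T) : ℂ :=
  if (mdlT T y z).jt j = x then (mdlT T y z).ej s j * mmT T y z s ((mdlT T y z).js j) else 0

private theorem sm_exp_le (n : ℕ) {s : ℂ} (hs : 0 < s.re) : ‖Complex.exp (-n * s)‖ ≤ 1 := by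
  rw [Complex.norm_exp, Real.exp_le_one_iff]
  have h1 : (-(n : ℂ) * s).re = -(n * s.re) := by simp
  rw [h1]
  have : (0 : ℝ) ≤ (n : ℝ) := Nat.cast_nonneg _
  nlinarith

private theorem fc_summable (hT : Cls T) (hy : 0 < y) (hz : 0 < z) (hz1 : z ≤ 1 / 10 ^ 12)
    (hq : y * z ^ 2 ≤ 1)
    (hone : ∑' π : {π // FreeT T π}, wt (ENNReal.ofReal y) (ENNReal.ofReal z) π.1 = 1) {s : ℂ}
    (hs : 0 < s.re) (x : ℤ × ℤ) : Summable fun π : {π // FreeT T π} => fc T y z s x π.1 := by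
  have h1 := sm_sum hT hy hz hz1 hq hone hs
  refine Summable.of_norm_bounded
    ((sm_free_summable hy hz hone).mul_right (∑' v, ‖mmT T y z s v‖)) fun π => ?_
  unfold fc
  rw [norm_mul, norm_mul, Complex.norm_real, Real.norm_of_nonneg (sm_wtR_nn hy hz _)]
  have h2 := sm_exp_le (ln π.1) hs
  have h3 : ‖mmT T y z s (x - dsp π.1)‖ ≤ ∑' v, ‖mmT T y z s v‖ :=
    h1.le_tsum _ fun _ _ => norm_nonneg _
  have h4 := sm_wtR_nn hy hz π.1
  exact mul_le_mul (mul_le_of_le_one_right h4 h2) h3 (norm_nonneg _) h4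

private theorem om_ge (v : ℤ × ℤ) : 1 ≤ om v := by
  unfold om
  exact one_le_pow₀ (by norm_num)

private theorem dc_summable (hT : Cls T) (hy : 0 < y) (hz : 0 < z) (hz1 : z ≤ 1 / 10 ^ 12)
    (hq : y * z ^ 2 ≤ 1)
    (hone : ∑' π : {π // FreeT T π}, wt (ENNReal.ofReal y) (ENNReal.ofReal z) π.1 = 1) {s : ℂ}
    (hs : 0 < s.re) (x : ℤ × ℤ) : Summable fun j : JT T => dc T y z s x j := by
  obtain ⟨C, hC0, hC⟩ := sm_growth hT hy hz hz1 hq hone
  refine Summable.of_norm_bounded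
    ((mdl_ok hT hy hz hz1 hq hone).j_summable.mul_left C) fun j => ?_
  have h1 := hC s hs ((mdlT T y z).js j)
  have h2 := sm_exp_le ((mdlT T y z).jn j) hs
  have h3 := om_ge ((mdlT T y z).jt j)
  have h4 : (1 : ℝ) ≤ 2 ^ (mdlT T y z).jn j := one_le_pow₀ (by norm_num)
  have h5 := om_ge ((mdlT T y z).js j)
  have h6 := abs_nonneg ((mdlT T y z).jc j)
  have h7 : ‖(mdlT T y z).ej s j * mmT T y z s ((mdlT T y z).js j)‖ ≤
      C * (|(mdlT T y z).jc j| * 2 ^ (mdlT T y z).jn j * om ((mdlT T y z).js j) *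
        om ((mdlT T y z).jt j)) := by
    unfold Mdl.ej
    rw [norm_mul, norm_mul, Complex.norm_real, Real.norm_eq_abs]
    calc |(mdlT T y z).jc j| * ‖Complex.exp (-((mdlT T y z).jn j : ℂ) * s)‖ *
          ‖mmT T y z s ((mdlT T y z).js j)‖
        ≤ |(mdlT T y z).jc j| * 1 * (C * om ((mdlT T y z).js j)) := by gcongr
      _ = C * (|(mdlT T y z).jc j| * 1 * om ((mdlT T y z).js j) * 1) := by ring
      _ ≤ C * (|(mdlT T y z).jc j| * 2 ^ (mdlT T y z).jn j * om ((mdlT T y z).js j) *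
        om ((mdlT T y z).jt j)) := by gcongr
  unfold dc
  split_ifs
  · exact h7
  · rw [norm_zero]
    exact (norm_nonneg _).trans h7

/-- The nine basic pairs. -/
private def nine : Option (Fin 4 ⊕ Fin 4) → PP
  | none => ([], [])
  | some (Sum.inl i) => ([st4 i], [])
  | some (Sum.inr i) => ([], [st4 i])

private theorem st4_inj : Function.Injective st4 := by
  intro i j h
  revert h
  revert i j
  decide

private theorem nine_inj : Function.Injective nine := by
  rintro (_ | i | i) (_ | j | j) h <;> simp only [nine, Prod.mk.injEq, List.cons.injEq, and_true,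
    reduceCtorEq, and_false, true_and] at h ⊢
  · rw [st4_inj h]
  · rw [st4_inj h]

private theorem nine_iff (hT : Cls T) (π : PP) : Bas π ∧ FreeT T π ↔ π ∈ Set.range nine := by
  rw [bas_free hT, bas_free_iff]
  constructor
  · rintro (rfl | ⟨i, rfl⟩ | ⟨i, rfl⟩)
    · exact ⟨none, rfl⟩
    · exact ⟨some (Sum.inl i), rfl⟩
    · exact ⟨some (Sum.inr i), rfl⟩
  · rintro ⟨(_ | i | i), rfl⟩
    · exact Or.inl rfl
    · exact Or.inr (Or.inl ⟨i, rfl⟩)
    · exact Or.inr (Or.inr ⟨i, rfl⟩)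

/-- The free pairs are the nine basic pairs and the other ones. -/
private def frMap (hT : Cls T) : Option (Fin 4 ⊕ Fin 4) ⊕ RT T → {π // FreeT T π}
  | .inl a => ⟨nine a, ((nine_iff hT _).2 ⟨a, rfl⟩).2⟩
  | .inr r => ⟨r.1, r.2.1⟩

private theorem frMap_bijective (hT : Cls T) : Function.Bijective (frMap hT) := by
  constructor
  · rintro (a | r) (b | r') h
    · have h1 : nine a = nine b := congrArg (fun π : {π // FreeT T π} => π.1) h
      rw [nine_inj h1]
    · have h1 : nine a = r'.1 := congrArg (fun π : {π // FreeT T π} => π.1) h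
      exact absurd ((nine_iff hT _).2 ⟨a, h1⟩).1 r'.2.2
    · have h1 : r.1 = nine b := congrArg (fun π : {π // FreeT T π} => π.1) h
      exact absurd ((nine_iff hT _).2 ⟨b, h1.symm⟩).1 r.2.2
    · have h1 : r.1 = r'.1 := congrArg (fun π : {π // FreeT T π} => π.1) h
      rw [Subtype.ext h1]
  · rintro ⟨π, hπ⟩
    by_cases hb : Bas π
    · obtain ⟨a, rfl⟩ := (nine_iff hT π).1 ⟨hb, hπ⟩
      exact ⟨.inl a, rfl⟩
    · exact ⟨.inr ⟨π, hπ, hb⟩, rfl⟩

private theorem fc_nil (s : ℂ) (x : ℤ × ℤ) :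
    fc T y z s x ([], []) = ((y * z ^ 2 : ℝ) : ℂ) * Complex.exp (-2 * s) * mmT T y z s x := by
  have h1 : dsp ([], []) = 0 := by simp [dsp]
  have h2 : wtR y z ([], []) = y * z ^ 2 := by
    simp [wtR, KLog.hgt, ln]
  have h3 : ln ([], []) = 2 := rfl
  unfold fc
  rw [h1, h2, h3, sub_zero]
  norm_num

private theorem fc_left (s : ℂ) (x : ℤ × ℤ) (i : Fin 4) :
    fc T y z s x ([st4 i], []) =
      ((y * z ^ 2 * z : ℝ) : ℂ) * Complex.exp (-3 * s) * mmT T y z s (x + e4 i) := by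
  have h1 : dsp ([st4 i], []) = -e4 i := by
    simp [dsp, hz, st4]
  have h2 : wtR y z ([st4 i], []) = y * z ^ 2 * z := by
    simp [wtR, KLog.hgt, ln, st4]
    ring
  have h3 : ln ([st4 i], []) = 3 := rfl
  unfold fc
  rw [h1, h2, h3, sub_neg_eq_add]
  norm_num

private theorem fc_right (s : ℂ) (x : ℤ × ℤ) (i : Fin 4) :
    fc T y z s x ([], [st4 i]) =
      ((y * z ^ 2 * z : ℝ) : ℂ) * Complex.exp (-3 * s) * mmT T y z s (x - e4 i) := by
  have h1 : dsp ([], [st4 i]) = e4 i := by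
    simp [dsp, hz, st4]
  have h2 : wtR y z ([], [st4 i]) = y * z ^ 2 * z := by
    simp [wtR, KLog.hgt, ln]
    ring
  have h3 : ln ([], [st4 i]) = 3 := rfl
  unfold fc
  rw [h1, h2, h3]
  norm_num

/-- The sum over the free pairs. -/
private theorem fc_tsum (hT : Cls T) (hy : 0 < y) (hz : 0 < z) (hz1 : z ≤ 1 / 10 ^ 12)
    (hq : y * z ^ 2 ≤ 1)
    (hone : ∑' π : {π // FreeT T π}, wt (ENNReal.ofReal y) (ENNReal.ofReal z) π.1 = 1) {s : ℂ}
    (hs : 0 < s.re) (x : ℤ × ℤ) : ∑' π : {π // FreeT T π}, fc T y z s x π.1 =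
      ((y * z ^ 2 : ℝ) : ℂ) * Complex.exp (-2 * s) * mmT T y z s x +
      2 * ((y * z ^ 2 : ℝ) : ℂ) * z * Complex.exp (-3 * s) *
        (mmT T y z s (x + (1, 0)) + mmT T y z s (x + (-1, 0)) + mmT T y z s (x + (0, 1)) +
          mmT T y z s (x + (0, -1))) +
      ∑' r : RT T, fc T y z s x r.1 := by
  have hF := fc_summable hT hy hz hz1 hq hone hs x
  let e := Equiv.ofBijective (frMap hT) (frMap_bijective hT)
  have hFe : Summable fun c => fc T y z s x (e c).1 := hF.comp_injective e.injective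
  rw [← e.tsum_eq fun π : {π // FreeT T π} => fc T y z s x π.1,
    Summable.tsum_sum (f := fun c => fc T y z s x (e c).1)
      (hFe.comp_injective Sum.inl_injective) (hFe.comp_injective Sum.inr_injective)]
  congr 1
  change ∑' a : Option (Fin 4 ⊕ Fin 4), fc T y z s x (nine a) = _
  rw [tsum_fintype, Fintype.sum_option, Fintype.sum_sum_type, Fin.sum_univ_four,
    Fin.sum_univ_four]
  simp only [nine]
  rw [fc_nil, fc_left, fc_left, fc_left, fc_left, fc_right, fc_right, fc_right, fc_right]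
  have h0 : x - e4 0 = x + (-1, 0) := by rw [sub_eq_add_neg]; rfl
  have h1 : x - e4 1 = x + (1, 0) := by rw [sub_eq_add_neg]; rfl
  have h2 : x - e4 2 = x + (0, -1) := by rw [sub_eq_add_neg]; rfl
  have h3 : x - e4 3 = x + (0, 1) := by rw [sub_eq_add_neg]; rfl
  rw [h0, h1, h2, h3]
  have k0 : e4 0 = (1, 0) := rfl
  have k1 : e4 1 = (-1, 0) := rfl
  have k2 : e4 2 = (0, 1) := rfl
  have k3 : e4 3 = (0, -1) := rfl
  rw [k0, k1, k2, k3]
  push_cast
  ring

/-- The free pairs at all positions. -/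
private theorem free_pc (s : ℂ) (x : ℤ × ℤ)
    (hF : Summable fun π : {π // FreeT T π} => fc T y z s x π.1) :
    Summable ({p : (ℤ × ℤ) × PP | FreeT T p.2}.indicator (pc T y z s x)) ∧
      ∑' p, {p : (ℤ × ℤ) × PP | FreeT T p.2}.indicator (pc T y z s x) p =
        ∑' π : {π // FreeT T π}, fc T y z s x π.1 := by
  let i : {π // FreeT T π} → (ℤ × ℤ) × PP := fun π => (x - dsp π.1, π.1)
  have hi : Function.Injective i := by
    intro a b h
    exact Subtype.ext (congrArg Prod.snd h)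
  have hval : ∀ π : {π // FreeT T π},
      {p : (ℤ × ℤ) × PP | FreeT T p.2}.indicator (pc T y z s x) (i π) =
      fc T y z s x π.1 := by
    intro π
    rw [Set.indicator_of_mem (show i π ∈ {p : (ℤ × ℤ) × PP | FreeT T p.2} from π.2)]
    unfold pc fc
    rw [if_pos (sub_add_cancel x (dsp π.1))]
  have hout : ∀ p, p ∉ Set.range i →
      {p : (ℤ × ℤ) × PP | FreeT T p.2}.indicator (pc T y z s x) p = 0 := by
    intro p hp
    by_cases hf : FreeT T p.2
    · rw [Set.indicator_of_mem (show p ∈ {p : (ℤ × ℤ) × PP | FreeT T p.2} from hf)]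
      unfold pc
      rw [if_neg]
      intro h
      exact hp ⟨⟨p.2, hf⟩, Prod.ext (by simp only [i]; rw [← h, add_sub_cancel_right]) rfl⟩
    · exact Set.indicator_of_notMem (show p ∉ {p : (ℤ × ℤ) × PP | FreeT T p.2} from hf) _
  constructor
  · rw [← hi.summable_iff hout]
    exact hF.congr fun π => (hval π).symm
  · rw [← hi.tsum_eq (Function.support_subset_iff'.2 hout)]
    exact tsum_congr hval

private theorem pc_split (s : ℂ) {x : ℤ × ℤ} (hx : x ≠ 0) (p : (ℤ × ℤ) × PP) :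
    {p : (ℤ × ℤ) × PP | ValidT T p.1 p.2}.indicator (pc T y z s x) p =
      {p : (ℤ × ℤ) × PP | FreeT T p.2}.indicator (pc T y z s x) p -
        Function.extend (Subtype.val : JT T → (ℤ × ℤ) × PP) (dc T y z s x) 0 p := by
  classical
  by_cases hJ : p.1 ≠ 0 ∧ p.1 + dsp p.2 ≠ 0 ∧
      ((FreeT T p.2 ∧ ¬ ValidT T p.1 p.2) ∨ (ValidT T p.1 p.2 ∧ ¬ FreeT T p.2))
  · have h1 : Function.extend (Subtype.val : JT T → (ℤ × ℤ) × PP) (dc T y z s x) 0 p =
        dc T y z s x ⟨p, hJ⟩ :=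
      (Subtype.val_injective (p := fun p : (ℤ × ℤ) × PP => p.1 ≠ 0 ∧ p.1 + dsp p.2 ≠ 0 ∧
        ((FreeT T p.2 ∧ ¬ ValidT T p.1 p.2) ∨ (ValidT T p.1 p.2 ∧ ¬ FreeT T p.2)))).extend_apply
        (dc T y z s x) (0 : (ℤ × ℤ) × PP → ℂ) (⟨p, hJ⟩ : JT T)
    rw [h1]
    rcases hJ.2.2 with ⟨hf, hv⟩ | ⟨hv, hf⟩
    · rw [Set.indicator_of_notMem (show p ∉ {p : (ℤ × ℤ) × PP | ValidT T p.1 p.2} from hv),
        Set.indicator_of_mem (show p ∈ {p : (ℤ × ℤ) × PP | FreeT T p.2} from hf), eq_comm,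
        sub_eq_zero]
      unfold pc dc Mdl.ej mdlT
      simp only [if_pos hf]
    · rw [Set.indicator_of_mem (show p ∈ {p : (ℤ × ℤ) × PP | ValidT T p.1 p.2} from hv),
        Set.indicator_of_notMem (show p ∉ {p : (ℤ × ℤ) × PP | FreeT T p.2} from hf), zero_sub]
      unfold pc dc Mdl.ej mdlT
      simp only [if_neg hf]
      split_ifs
      · push_cast
        ring
      · simp
  · have h1 : Function.extend (Subtype.val : JT T → (ℤ × ℤ) × PP) (dc T y z s x) 0 p = 0 := by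
      rw [Function.extend_apply']
      · rfl
      · rintro ⟨j, rfl⟩
        exact hJ j.2
    rw [h1, sub_zero]
    by_cases hp : pc T y z s x p = 0
    · by_cases hf : FreeT T p.2 <;> by_cases hv : ValidT T p.1 p.2 <;>
        simp [Set.indicator, hf, hv, hp]
    · have h2 : p.1 ≠ 0 := by
        intro h
        apply hp
        unfold pc
        rw [h, sm_zero]
        simp
      have h3 : p.1 + dsp p.2 ≠ 0 := by
        intro h
        apply hp
        unfold pc
        rw [if_neg]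
        rw [h]
        exact hx.symm
      by_cases hf : FreeT T p.2 <;> by_cases hv : ValidT T p.1 p.2
      · simp [Set.indicator, hf, hv]
      · exact absurd ⟨h2, h3, Or.inl ⟨hf, hv⟩⟩ hJ
      · exact absurd ⟨h2, h3, Or.inr ⟨hv, hf⟩⟩ hJ
      · simp [Set.indicator, hf, hv]

theorem mdl_sol {T : Finset (Sym2 P3) → Prop} (hT : Cls T) (hy : 0 < y) (hz : 0 < z)
    (hz1 : z ≤ 1 / 10 ^ 12) (hq : y * z ^ 2 ≤ 1)
    (hone : ∑' π : {π // FreeT T π}, wt (ENNReal.ofReal y) (ENNReal.ofReal z) π.1 = 1) :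
    (mdlT T y z).Sol (mmT T y z) := by
  refine ⟨fun s hs => sm_sum hT hy hz hz1 hq hone hs, ?_, sm_zero, fun s hs x hx => ?_⟩
  · obtain ⟨C, -, hC⟩ := sm_growth hT hy hz hz1 hq hone
    exact ⟨C, hC⟩
  · have hF := fc_summable hT hy hz hz1 hq hone hs x
    obtain ⟨hP, hP'⟩ := free_pc s x hF
    have hD := dc_summable hT hy hz hz1 hq hone hs x
    have hinj : Function.Injective (Subtype.val : JT T → (ℤ × ℤ) × PP) := Subtype.val_injective
    have hout : ∀ p, p ∉ Set.range (Subtype.val : JT T → (ℤ × ℤ) × PP) →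
        Function.extend (Subtype.val : JT T → (ℤ × ℤ) × PP) (dc T y z s x) 0 p = 0 := by
      intro p hp
      rw [Function.extend_apply' _ _ _ (by simpa using hp)]
      rfl
    have hval : ∀ j : JT T,
        Function.extend (Subtype.val : JT T → (ℤ × ℤ) × PP) (dc T y z s x) 0 j.1 =
        dc T y z s x j := fun j => hinj.extend_apply _ _ j
    have hE : Summable (Function.extend (Subtype.val : JT T → (ℤ × ℤ) × PP) (dc T y z s x) 0) := by
      rw [← hinj.summable_iff hout]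
      exact hD.congr fun j => (hval j).symm
    have hE' : ∑' p, Function.extend (Subtype.val : JT T → (ℤ × ℤ) × PP) (dc T y z s x) 0 p =
        ∑' j : JT T, dc T y z s x j := by
      rw [← hinj.tsum_eq (Function.support_subset_iff'.2 hout)]
      exact tsum_congr hval
    have hV : ∑' p : {p : (ℤ × ℤ) × PP // ValidT T p.1 p.2}, pc T y z s x p.1 =
        ∑' π : {π // FreeT T π}, fc T y z s x π.1 - ∑' j : JT T, dc T y z s x j := by
      rw [← hE', ← hP', ← hP.tsum_sub hE]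
      have h1 : ∑' p : {p : (ℤ × ℤ) × PP // ValidT T p.1 p.2}, pc T y z s x p.1 =
          ∑' p, {p : (ℤ × ℤ) × PP | ValidT T p.1 p.2}.indicator (pc T y z s x) p :=
        tsum_subtype {p : (ℤ × ℤ) × PP | ValidT T p.1 p.2} (pc T y z s x)
      rw [h1]
      exact tsum_congr fun p => pc_split s hx p
    have hrec := mm_rec hT hy hz hz1 hq hone hs x
    have hsrc : (∑' h, if (mdlT T y z).ht h = x then (mdlT T y z).eh s h else 0) =
        ∑' p : Σ v : ℤ × ℤ, {l // HalfT T 0 v l}, if p.1 = x then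
          (wlR y z p.2.1 * Complex.exp (-p.2.1.length * s) : ℂ) else 0 := rfl
    have hr : ∑' r, (mdlT T y z).er s r * mmT T y z s (x - (mdlT T y z).ru r) =
        ∑' r : RT T, fc T y z s x r.1 := rfl
    have hj : (∑' j, if (mdlT T y z).jt j = x then
        (mdlT T y z).ej s j * mmT T y z s ((mdlT T y z).js j) else 0) =
          ∑' j : JT T, dc T y z s x j := rfl
    have hv' : (∑' p : {p : (ℤ × ℤ) × PP // ValidT T p.1 p.2}, if p.1.1 + dsp p.1.2 = x then
        (wtR y z p.1.2 * Complex.exp (-ln p.1.2 * s) * mmT T y z s p.1.1 : ℂ) else 0) =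
        ∑' p : {p : (ℤ × ℤ) × PP // ValidT T p.1 p.2}, pc T y z s x p.1 := rfl
    rw [hsrc, hr, hj]
    rw [hv', hV, fc_tsum hT hy hz hz1 hq hone hs x] at hrec
    have hq' : (mdlT T y z).q = y * z ^ 2 := rfl
    have hz' : (mdlT T y z).z = z := rfl
    rw [hq', hz']
    refine hrec.trans ?_
    ring

end Pool.Agent.KCls
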